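import Pool.Agent.H320R2.CT.Defs

/-! Task LO (helper501) -/

set_option autoImplicit false

namespace Pool.Agent.H320R2.CT

open Finset Pool.Agent.H999R2.KSat

theorem lo_image_cons {V : Type} [DecidableEq V] {T : ℕ} (v : V) (x : Fin T → V) :
    univ.image (Fin.cons v x : Fin (T + 1) → V) = insert v (univ.image x) := by
  ext w
  simp only [mem_image, mem_univ, true_and, mem_insert, Fin.exists_fin_succ, Fin.cons_zero,
    Fin.cons_succ]
  constructor
  · rintro (h | h)
    · exact Or.inl h.symm
    · exact Or.inr h
  · rintro (h | h)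
    · exact Or.inl h.symm
    · exact Or.inr h

theorem loss_sample {V : Type} [Fintype V] [DecidableEq V] [Nonempty V] (ρ : Finset V → ℝ) (L : ℝ)
    (hstep : ∀ S : Finset V, E (fun v => ρ S - ρ (insert v S)) ≤ L) (T : ℕ) (S : Finset V) :
    E (fun x : Fin T → V => ρ S - ρ (S ∪ univ.image x)) ≤ T * L := by
  induction T generalizing S with
  | zero =>
    have : ∀ x : Fin 0 → V, ρ S - ρ (S ∪ univ.image x) = 0 := by
      intro x
      simp
    rw [E_congr this, E_zero]
    simp
  | succ T ih =>
    rw [E_cons]
    have h1 : ∀ (v : V) (x : Fin T → V), ρ S - ρ (S ∪ univ.image (Fin.cons v x : Fin (T + 1) → V)) =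
        (ρ S - ρ (insert v S)) + (ρ (insert v S) - ρ (insert v S ∪ univ.image x)) := by
      intro v x
      rw [lo_image_cons, union_insert, insert_union]
      ring
    calc E (fun v => E (fun x : Fin T → V => ρ S - ρ (S ∪ univ.image (Fin.cons v x : Fin (T + 1) → V))))
        = E (fun v => (ρ S - ρ (insert v S)) +
            E (fun x : Fin T → V => ρ (insert v S) - ρ (insert v S ∪ univ.image x))) := by
          refine E_congr fun v => ?_
          rw [E_congr (h1 v), E_add, E_const]
      _ ≤ E (fun v => (ρ S - ρ (insert v S)) + T * L) := by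
          refine E_mono fun v => ?_
          have := ih (insert v S)
          linarith
      _ = E (fun v => ρ S - ρ (insert v S)) + T * L := by rw [E_add, E_const]
      _ ≤ L + T * L := by linarith [hstep S]
      _ = ((T + 1 : ℕ) : ℝ) * L := by push_cast; ring

/-- Markov: few vertices cause a large loss -/
theorem loss_one {V : Type} [Fintype V] [DecidableEq V] [Nonempty V] (ρ : Finset V → ℝ) (L al : ℝ)
    (hal : 0 < al) (hmono : ∀ S T : Finset V, S ⊆ T → ρ T ≤ ρ S)
    (hstep : ∀ S : Finset V, E (fun v => ρ S - ρ (insert v S)) ≤ L) (S : Finset V) :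
    E (fun v => ind (al ≤ ρ S - ρ (insert v S))) ≤ L / al := by
  rw [le_div_iff₀ hal, mul_comm, ← E_mul_left]
  refine le_trans (E_mono fun v => ?_) (hstep S)
  have h0 := hmono S (insert v S) (subset_insert _ _)
  by_cases h : al ≤ ρ S - ρ (insert v S)
  · rw [ind_true h]
    linarith
  · rw [ind_false h]
    linarith

end Pool.Agent.H320R2.CT
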