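import Pool.Agent.H320R2.CT.Defs

/-!
# Cauchy-Schwarz for averages (task PZ of helper320, by helper301)
-/

set_option autoImplicit false

namespace Pool.Agent.H320R2.CT

open Finset Filter Pool.Agent.H999R2.KSat

theorem pz {α : Type} [Fintype α] (Z : α → ℝ) :
    (E Z) ^ 2 ≤ E (fun x => ind (Z x ≠ 0)) * E (fun x => Z x ^ 2) := by
  have h1 : ∀ x, Z x = ind (Z x ≠ 0) * Z x := by
    intro x
    by_cases h : Z x = 0
    · simp [h]
    · rw [ind_true h, one_mul]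
  have h2 : ∀ x, ind (Z x ≠ 0) = ind (Z x ≠ 0) ^ 2 := by
    intro x; rw [sq, ind_sq]
  have h3 := Finset.sum_mul_sq_le_sq_mul_sq (Finset.univ : Finset α)
    (fun x => ind (Z x ≠ 0)) (fun x => Z x)
  have h4 : ∑ x, ind (Z x ≠ 0) * Z x = ∑ x, Z x := Finset.sum_congr rfl (fun x _ => (h1 x).symm)
  have h5 : ∑ x, ind (Z x ≠ 0) ^ 2 = ∑ x, ind (Z x ≠ 0) :=
    Finset.sum_congr rfl (fun x _ => (h2 x).symm)
  rw [h4, h5] at h3
  unfold E
  rw [div_pow, div_mul_div_comm, sq (Fintype.card α : ℝ)]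
  exact div_le_div_of_nonneg_right h3 (by positivity)

end Pool.Agent.H320R2.CT
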