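import Pool.Agent.H320R2.CT.SMO
import Pool.Agent.H320R2.CT.PZ
import Pool.Agent.H320R2.CT.LO

/-! Task B2: the bound for pairs -/

set_option autoImplicit false

namespace Pool.Agent.H320R2.CT

open Finset Pool.Agent.H999R2.KSat

/-- the law of one coordinate -/
theorem b2_marg {V : Type} [Fintype V] [Nonempty V] {T : ℕ} (k : Fin T) (f : V → ℝ) :
    E (fun x : Fin T → V => f (x k)) = E f := by
  rw [E_update k]
  have h : ∀ x : Fin T → V, E (fun y : V => f (Function.update x k y k)) = E f :=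
    fun x => E_congr fun y => by rw [Function.update_self]
  rw [E_congr h, E_const]

theorem b2_mean {V : Type} [Fintype V] [Nonempty V] (T : ℕ) (g : V → V → ℝ) :
    E (fun z : (Fin T → V) × (Fin T → V) => ∑ k, ∑ l, g (z.1 k) (z.2 l)) =
      (T : ℝ) ^ 2 * E (fun a => E (fun b => g a b)) := by
  rw [E_prod (fun (x y : Fin T → V) => ∑ k, ∑ l, g (x k) (y l))]
  have h1 : ∀ x : Fin T → V, E (fun y : Fin T → V => ∑ k, ∑ l, g (x k) (y l)) =
      ∑ k, (T : ℝ) * E (fun b => g (x k) b) := by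
    intro x
    rw [E_sum]
    refine Finset.sum_congr rfl fun k _ => ?_
    rw [E_sum]
    have h2 : ∀ l ∈ (univ : Finset (Fin T)), E (fun y : Fin T → V => g (x k) (y l)) =
        E (fun b => g (x k) b) := fun l _ => b2_marg l (fun b => g (x k) b)
    rw [Finset.sum_congr rfl h2]
    simp
  rw [E_congr h1, E_sum]
  have h3 : ∀ k ∈ (univ : Finset (Fin T)),
      E (fun x : Fin T → V => (T : ℝ) * E (fun b => g (x k) b)) =
        (T : ℝ) * E (fun a => E (fun b => g a b)) := by
    intro k _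
    rw [E_mul_left, b2_marg k (fun a => E (fun b => g a b))]
  rw [Finset.sum_congr rfl h3]
  simp
  ring

theorem pair_bound {V : Type} [Fintype V] [DecidableEq V] [Nonempty V] (ρ : Finset V → ℝ)
    (L al : ℝ) (T : ℕ) (hL : 0 < L) (hT : 1 ≤ T) (hTL : 10 * (T * L) ≤ al)
    (hmono : ∀ S T : Finset V, S ⊆ T → ρ T ≤ ρ S)
    (hstep : ∀ S : Finset V, E (fun v => ρ S - ρ (insert v S)) ≤ L)
    (H : V → V → Prop) (hH : ∀ b c, H b c → al ≤ ρ ∅ - ρ {b, c})
    (h1 : ∀ b, E (fun c => ind (H b c)) ≤ L / al)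
    (h2 : ∀ c, E (fun b => ind (H b c)) ≤ L / al) :
    E (fun b => E (fun c => ind (H b c))) ≤ 1 / (2 * (T : ℝ) ^ 2) := by
  have hT' : (1 : ℝ) ≤ T := by exact_mod_cast hT
  have hal : 0 < al := by
    have : 0 < 10 * ((T : ℝ) * L) := by positivity
    linarith
  set h : ℝ := E (fun b => E (fun c => ind (H b c))) with hh
  have hh0 : 0 ≤ h := E_nonneg fun b => E_nonneg fun c => ind_nonneg _
  set Z : (Fin T → V) × (Fin T → V) → ℝ := fun z => ∑ k, ∑ l, ind (H (z.1 k) (z.2 l)) with hZ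
  have hEZ : E Z = (T : ℝ) ^ 2 * h := b2_mean T (fun b c => ind (H b c))
  -- the probability that `Z` does not vanish
  have hpt : ∀ x y : Fin T → V, al * ind (Z (x, y) ≠ 0) ≤
      (ρ ∅ - ρ (∅ ∪ univ.image x)) + (ρ (∅ ∪ univ.image x) - ρ ((∅ ∪ univ.image x) ∪ univ.image y))
      := by
    intro x y
    have e1 : (ρ ∅ - ρ (∅ ∪ univ.image x)) +
        (ρ (∅ ∪ univ.image x) - ρ ((∅ ∪ univ.image x) ∪ univ.image y)) =
        ρ ∅ - ρ ((∅ ∪ univ.image x) ∪ univ.image y) := by ring
    rw [e1]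
    by_cases hz : Z (x, y) ≠ 0
    · rw [ind_true hz, mul_one]
      obtain ⟨k, l, hkl⟩ : ∃ k l, H (x k) (y l) := by
        by_contra hcon
        push Not at hcon
        apply hz
        rw [hZ]
        exact Finset.sum_eq_zero fun k _ => Finset.sum_eq_zero fun l _ => ind_false (hcon k l)
      refine (hH _ _ hkl).trans ?_
      have h3 : ({x k, y l} : Finset V) ⊆ (∅ ∪ univ.image x) ∪ univ.image y := by
        intro v hv
        rw [Finset.mem_insert, Finset.mem_singleton] at hv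
        rcases hv with rfl | rfl
        · simp
        · simp
      have h4 := hmono _ _ h3
      linarith
    · rw [ind_false hz, mul_zero]
      have h4 := hmono ∅ ((∅ ∪ univ.image x) ∪ univ.image y) (Finset.empty_subset _)
      linarith
  have hP : al * E (fun z : (Fin T → V) × (Fin T → V) => ind (Z z ≠ 0)) ≤ 2 * (T * L) := by
    rw [← E_mul_left, E_prod (fun x y : Fin T → V => al * ind (Z (x, y) ≠ 0))]
    have h3 : E (fun x : Fin T → V => E (fun y : Fin T → V => al * ind (Z (x, y) ≠ 0))) ≤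
        E (fun x : Fin T → V => (ρ ∅ - ρ (∅ ∪ univ.image x)) + T * L) := by
      refine E_mono fun x => ?_
      refine (E_mono fun y => hpt x y).trans ?_
      rw [E_add, E_const]
      have := loss_sample ρ L hstep T (∅ ∪ univ.image x)
      linarith
    refine h3.trans ?_
    rw [E_add, E_const]
    have := loss_sample ρ L hstep T ∅
    linarith
  set P : ℝ := E (fun z : (Fin T → V) × (Fin T → V) => ind (Z z ≠ 0)) with hPdef
  have hP0 : 0 ≤ P := E_nonneg fun z => ind_nonneg _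
  have hP5 : P ≤ 1 / 5 := by
    have h3 : al * P ≤ al * (1 / 5) := by linarith
    exact le_of_mul_le_mul_left h3 hal
  -- the second moment
  set η : ℝ := L / al with hη
  have hη0 : 0 ≤ η := div_nonneg hL.le hal.le
  have hTη : (T : ℝ) * η ≤ 1 / 10 := by
    rw [hη, mul_div_assoc', div_le_div_iff₀ hal (by norm_num)]
    linarith
  have hsq : E (fun z => Z z ^ 2) ≤ (T : ℝ) ^ 2 * h + 2 * ((T : ℝ) ^ 3 * (η * h)) +
      (T : ℝ) ^ 4 * h ^ 2 := by
    rw [E_prod (fun x y : Fin T → V => Z (x, y) ^ 2)]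
    have h3 := sm_two T (fun b c => ind (H b c))
    have e1 : E (fun a => E (fun b => ind (H a b) ^ 2)) = h :=
      E_congr fun a => E_congr fun b => by rw [sq, ind_sq]
    have e2 : E (fun a => (E (fun b => ind (H a b))) ^ 2) ≤ η * h := by
      rw [hh, ← E_mul_left]
      refine E_mono fun a => ?_
      rw [sq]
      exact mul_le_mul_of_nonneg_right (h1 a) (E_nonneg fun b => ind_nonneg _)
    have e3 : E (fun b => (E (fun a => ind (H a b))) ^ 2) ≤ η * h := by
      rw [hh, E_comm, ← E_mul_left]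
      refine E_mono fun b => ?_
      rw [sq]
      exact mul_le_mul_of_nonneg_right (h2 b) (E_nonneg fun a => ind_nonneg _)
    rw [e1] at h3
    have e4 : (T : ℝ) ^ 3 * E (fun a => (E (fun b => ind (H a b))) ^ 2) ≤
        (T : ℝ) ^ 3 * (η * h) := mul_le_mul_of_nonneg_left e2 (by positivity)
    have e5 : (T : ℝ) ^ 3 * E (fun b => (E (fun a => ind (H a b))) ^ 2) ≤
        (T : ℝ) ^ 3 * (η * h) := mul_le_mul_of_nonneg_left e3 (by positivity)
    linarith
  have hcs := pz Z
  rw [hEZ, ← hPdef] at hcs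
  set u : ℝ := (T : ℝ) ^ 2 * h with hu
  have hu0 : 0 ≤ u := by positivity
  have hsq2 : E (fun z => Z z ^ 2) ≤ u + 2 * (1 / 10 * u) + u ^ 2 := by
    have e6 : (T : ℝ) ^ 3 * (η * h) ≤ 1 / 10 * u := by
      have : (T : ℝ) ^ 3 * (η * h) = (T * η) * u := by rw [hu]; ring
      rw [this]
      exact mul_le_mul_of_nonneg_right hTη hu0
    have e7 : (T : ℝ) ^ 4 * h ^ 2 = u ^ 2 := by rw [hu]; ring
    linarith
  have hfin : u ^ 2 ≤ 1 / 5 * (u + 2 * (1 / 10 * u) + u ^ 2) := by
    refine hcs.trans ?_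
    have h4 : 0 ≤ E (fun z => Z z ^ 2) := E_nonneg fun z => sq_nonneg _
    calc P * E (fun z => Z z ^ 2) ≤ 1 / 5 * E (fun z => Z z ^ 2) :=
          mul_le_mul_of_nonneg_right hP5 h4
      _ ≤ _ := mul_le_mul_of_nonneg_left hsq2 (by norm_num)
  have hu2 : u ≤ 1 / 2 := by
    by_contra hcon
    push Not at hcon
    nlinarith
  rw [le_div_iff₀ (by positivity)]
  calc h * (2 * (T : ℝ) ^ 2) = 2 * u := by rw [hu]; ring
    _ ≤ 1 := by linarith

end Pool.Agent.H320R2.CT
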