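import Pool.Agent.H320R2.CT.SMO
import Pool.Agent.H320R2.CT.PZ
import Pool.Agent.H320R2.CT.LO
import Pool.Agent.H320R2.CT.B2

/-! Task B3 (helper273): the bound for bad triples. -/

set_option autoImplicit false

namespace Pool.Agent.H320R2.CT

open Finset Pool.Agent.H999R2.KSat

theorem b3_marg {V : Type} [Fintype V] [Nonempty V] {T : ℕ} (f : V → ℝ) (k : Fin T) :
    E (fun x : Fin T → V => f (x k)) = E f := by
  rw [E_update k]
  simp only [Function.update_self]
  exact E_const _

theorem b3_E3 {X Y W : Type} [Fintype X] [Fintype Y] [Fintype W] (F : X → Y → W → ℝ) :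
    E (fun p : X × (Y × W) => F p.1 p.2.1 p.2.2) = E (fun x => E (fun y => E (fun w => F x y w))) := by
  rw [E_prod (fun (x : X) (q : Y × W) => F x q.1 q.2)]
  exact E_congr fun x => E_prod (fun (y : Y) (w : W) => F x y w)

theorem b3_mean {V : Type} [Fintype V] [Nonempty V] (T : ℕ) (g : V → V → V → ℝ) :
    E (fun x : Fin T → V => E (fun y : Fin T → V => E (fun z : Fin T → V =>
      ∑ k, ∑ l, ∑ m, g (x k) (y l) (z m)))) =
      (T : ℝ) ^ 3 * E (fun a => E (fun b => E (fun c => g a b c))) := by
  have h1 : ∀ x y : Fin T → V, E (fun z : Fin T → V => ∑ k, ∑ l, ∑ m, g (x k) (y l) (z m)) =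
      ∑ k, ∑ l, (T : ℝ) * E (fun c => g (x k) (y l) c) := by
    intro x y
    rw [E_sum]
    refine Finset.sum_congr rfl fun k _ => ?_
    rw [E_sum]
    refine Finset.sum_congr rfl fun l _ => ?_
    rw [E_sum]
    rw [Finset.sum_congr rfl (fun m _ => b3_marg (fun c => g (x k) (y l) c) m)]
    simp
  have h2 : ∀ x : Fin T → V, E (fun y : Fin T → V => ∑ k, ∑ l, (T : ℝ) * E (fun c => g (x k) (y l) c)) =
      ∑ k, (T : ℝ) ^ 2 * E (fun b => E (fun c => g (x k) b c)) := by
    intro x
    rw [E_sum]
    refine Finset.sum_congr rfl fun k _ => ?_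
    rw [E_sum]
    rw [Finset.sum_congr rfl (fun l _ => by
      rw [E_mul_left, b3_marg (fun b => E (fun c => g (x k) b c)) l] :
      ∀ l ∈ univ, E (fun y : Fin T → V => (T : ℝ) * E (fun c => g (x k) (y l) c)) =
        (T : ℝ) * E (fun b => E (fun c => g (x k) b c)))]
    simp only [Finset.sum_const, Finset.card_univ, Fintype.card_fin, nsmul_eq_mul]
    ring
  rw [E_congr fun x => (E_congr fun y => h1 x y)]
  rw [E_congr fun x => h2 x, E_sum]
  rw [Finset.sum_congr rfl (fun k _ => by
      rw [E_mul_left, b3_marg (fun a => E (fun b => E (fun c => g a b c))) k] :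
      ∀ k ∈ univ, E (fun x : Fin T → V => (T : ℝ) ^ 2 * E (fun b => E (fun c => g (x k) b c))) =
        (T : ℝ) ^ 2 * E (fun a => E (fun b => E (fun c => g a b c))))]
  simp only [Finset.sum_const, Finset.card_univ, Fintype.card_fin, nsmul_eq_mul]
  ring

/-- average loss of the union of three samples -/
theorem b3_loss3 {V : Type} [Fintype V] [DecidableEq V] [Nonempty V] (ρ : Finset V → ℝ) (L : ℝ)
    (hstep : ∀ S : Finset V, E (fun v => ρ S - ρ (insert v S)) ≤ L) (T : ℕ) :
    E (fun x : Fin T → V => E (fun y : Fin T → V => E (fun z : Fin T → V =>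
      ρ ∅ - ρ ((univ.image x ∪ univ.image y) ∪ univ.image z)))) ≤ 3 * (T * L) := by
  have h1 : ∀ x y : Fin T → V, E (fun z : Fin T → V =>
      ρ ∅ - ρ ((univ.image x ∪ univ.image y) ∪ univ.image z)) ≤
      (ρ ∅ - ρ (univ.image x ∪ univ.image y)) + T * L := by
    intro x y
    have h := loss_sample ρ L hstep T (univ.image x ∪ univ.image y)
    have e : ∀ z : Fin T → V, ρ ∅ - ρ ((univ.image x ∪ univ.image y) ∪ univ.image z) =
        (ρ ∅ - ρ (univ.image x ∪ univ.image y)) +
        (ρ (univ.image x ∪ univ.image y) - ρ ((univ.image x ∪ univ.image y) ∪ univ.image z)) :=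
      fun z => by ring
    rw [E_congr e, E_add, E_const]
    linarith
  have h2 : ∀ x : Fin T → V, E (fun y : Fin T → V =>
      (ρ ∅ - ρ (univ.image x ∪ univ.image y)) + T * L) ≤ (ρ ∅ - ρ (univ.image x)) + 2 * (T * L) := by
    intro x
    have h := loss_sample ρ L hstep T (univ.image x)
    have e : ∀ y : Fin T → V, (ρ ∅ - ρ (univ.image x ∪ univ.image y)) + T * L =
        ((ρ ∅ - ρ (univ.image x)) + T * L) + (ρ (univ.image x) - ρ (univ.image x ∪ univ.image y)) :=
      fun y => by ring
    rw [E_congr e, E_add, E_const]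
    linarith
  have h3 : E (fun x : Fin T → V => (ρ ∅ - ρ (univ.image x)) + 2 * (T * L)) ≤ 3 * (T * L) := by
    have h := loss_sample ρ L hstep T ∅
    have e : ∀ x : Fin T → V, (ρ ∅ - ρ (univ.image x)) + 2 * (T * L) =
        (ρ ∅ - ρ (∅ ∪ univ.image x)) + 2 * (T * L) := fun x => by rw [Finset.empty_union]
    rw [E_congr e, E_add, E_const]
    linarith
  refine le_trans (E_mono fun x => ?_) h3
  exact le_trans (E_mono fun y => h1 x y) (h2 x)

/-- a square of a small nonnegative number -/
theorem b3_sq_le {t e : ℝ} (h0 : 0 ≤ t) (h1 : t ≤ e) : t ^ 2 ≤ e * t := by nlinarith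

theorem triple_bound {V : Type} [Fintype V] [DecidableEq V] [Nonempty V] (ρ : Finset V → ℝ)
    (L al be : ℝ) (hL : 0 < L) (hbe : 0 ≤ be) (hal0 : 0 < al) (hal : 4 * be ≤ al)
    (hmono : ∀ S T : Finset V, S ⊆ T → ρ T ≤ ρ S)
    (hstep : ∀ S : Finset V, E (fun v => ρ S - ρ (insert v S)) ≤ L) :
    E (fun a => E (fun b => E (fun c => ind (al ≤ ρ ∅ - ρ {a, b, c} ∧
      ρ ∅ - ρ {a, b} ≤ be ∧ ρ ∅ - ρ {a, c} ≤ be ∧ ρ ∅ - ρ {b, c} ≤ be)))) ≤
      30 ^ 3 * (L / al) ^ 3 := by
  set H : V → V → V → Prop := fun a b c => al ≤ ρ ∅ - ρ {a, b, c} ∧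
      ρ ∅ - ρ {a, b} ≤ be ∧ ρ ∅ - ρ {a, c} ≤ be ∧ ρ ∅ - ρ {b, c} ≤ be with hHdef
  change E (fun a => E (fun b => E (fun c => ind (H a b c)))) ≤ 30 ^ 3 * (L / al) ^ 3
  set al' : ℝ := 3 / 4 * al with hal'
  have hal'0 : 0 < al' := by positivity
  set y : ℝ := 3 / 40 * (al / L) with hy
  have hy0 : 0 < y := by positivity
  set T : ℕ := ⌊y⌋₊ with hTdef
  have hyL : y * L = 3 / 40 * al := by rw [hy]; field_simp
  set h : ℝ := E (fun a => E (fun b => E (fun c => ind (H a b c)))) with hh
  have hh0 : 0 ≤ h := E_nonneg fun a => E_nonneg fun b => E_nonneg fun c => ind_nonneg _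
  have hh1 : h ≤ 1 := E_le_const fun a => E_le_const fun b => E_le_const fun c => ind_le_one _
  rcases Nat.eq_zero_or_pos T with hT0 | hTpos
  · -- `L / al` is large
    have h1 : y < 1 := by
      by_contra hc
      push Not at hc
      have : 1 ≤ T := by
        rw [hTdef]
        exact Nat.le_floor (by exact_mod_cast hc)
      omega
    have h2 : 3 / 40 < L / al := by
      rw [lt_div_iff₀ hal0]
      have : y * L < 1 * L := mul_lt_mul_of_pos_right h1 hL
      rw [hyL] at this
      linarith
    have h3 : (3 / 40 : ℝ) ^ 3 ≤ (L / al) ^ 3 := pow_le_pow_left₀ (by norm_num) h2.le 3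
    have h4 : (1 : ℝ) ≤ 30 ^ 3 * (3 / 40) ^ 3 := by norm_num
    linarith [mul_le_mul_of_nonneg_left h3 (by norm_num : (0 : ℝ) ≤ 30 ^ 3)]
  · have hT1 : (1 : ℝ) ≤ T := by exact_mod_cast hTpos
    have hTR : (0 : ℝ) < T := by linarith
    have hTy : (T : ℝ) ≤ y := Nat.floor_le hy0.le
    have hyT : y < T + 1 := Nat.lt_floor_add_one y
    have hTL : (T : ℝ) * L ≤ 3 / 40 * al := by
      rw [← hyL]; exact mul_le_mul_of_nonneg_right hTy hL.le
    set eps : ℝ := L / al' with heps
    have heps0 : 0 < eps := by positivity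
    have hTeps : (T : ℝ) * eps ≤ 1 / 10 := by
      have e1 : (T : ℝ) * eps = (T * L) / al' := by rw [heps]; ring
      rw [e1, div_le_iff₀ hal'0, hal']
      linarith
    -- set identities
    have s1 : ∀ a b c : V, insert c ({a, b} : Finset V) = {a, b, c} := by
      intro a b c
      ext v
      simp only [Finset.mem_insert, Finset.mem_singleton]
      tauto
    have s2 : ∀ a b c : V, insert b ({a, c} : Finset V) = {a, b, c} := by
      intro a b c
      ext v
      simp only [Finset.mem_insert, Finset.mem_singleton]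
      tauto
    have s3 : ∀ a b c : V, insert a ({b, c} : Finset V) = {a, b, c} := fun a b c => rfl
    -- level one
    have L1c : ∀ a b, E (fun c => ind (H a b c)) ≤ eps := by
      intro a b
      refine le_trans (E_mono fun c => ind_mono ?_) (loss_one ρ L al' hal'0 hmono hstep {a, b})
      rintro ⟨q1, q2, _, _⟩
      rw [s1]
      rw [hal']; linarith
    have L1b : ∀ a c, E (fun b => ind (H a b c)) ≤ eps := by
      intro a c
      refine le_trans (E_mono fun b => ind_mono ?_) (loss_one ρ L al' hal'0 hmono hstep {a, c})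
      rintro ⟨q1, _, q2, _⟩
      rw [s2]
      rw [hal']; linarith
    have L1a : ∀ b c, E (fun a => ind (H a b c)) ≤ eps := by
      intro b c
      refine le_trans (E_mono fun a => ind_mono ?_) (loss_one ρ L al' hal'0 hmono hstep {b, c})
      rintro ⟨q1, _, _, q2⟩
      rw [s3]
      rw [hal']; linarith
    -- level two
    have h10 : 10 * ((T : ℝ) * L) ≤ al' := by rw [hal']; linarith
    have mono' : ∀ a : V, ∀ S S' : Finset V, S ⊆ S' → ρ (insert a S') ≤ ρ (insert a S) :=
      fun a S S' hS => hmono _ _ (Finset.insert_subset_insert a hS)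
    have step' : ∀ a : V, ∀ S : Finset V,
        E (fun v => ρ (insert a S) - ρ (insert a (insert v S))) ≤ L := by
      intro a S
      refine le_trans (le_of_eq (E_congr fun v => ?_)) (hstep (insert a S))
      rw [Finset.insert_comm]
    have L2a : ∀ a, E (fun b => E (fun c => ind (H a b c))) ≤ 1 / (2 * (T : ℝ) ^ 2) := by
      intro a
      refine pair_bound (fun S => ρ (insert a S)) L al' T hL hTpos h10 (mono' a) (step' a)
        (fun b c => H a b c) ?_ (fun b => L1c a b) (fun c => L1b a c)
      rintro b c ⟨q1, q2, _, _⟩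
      have q3 := hmono (insert a ∅) {a, b} (by intro v; simp; tauto)
      have q4 : ρ (insert a ({b, c} : Finset V)) = ρ {a, b, c} := rfl
      show al' ≤ ρ (insert a ∅) - ρ (insert a ({b, c} : Finset V))
      rw [q4, hal']
      linarith
    have L2b : ∀ b, E (fun a => E (fun c => ind (H a b c))) ≤ 1 / (2 * (T : ℝ) ^ 2) := by
      intro b
      refine pair_bound (fun S => ρ (insert b S)) L al' T hL hTpos h10 (mono' b) (step' b)
        (fun a c => H a b c) ?_ (fun a => L1c a b) (fun c => L1a b c)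
      rintro a c ⟨q1, q2, _, _⟩
      have q3 := hmono (insert b ∅) {a, b} (by intro v; simp; tauto)
      have q4 : ρ (insert b ({a, c} : Finset V)) = ρ {a, b, c} := by
        congr 1
        ext v
        simp only [Finset.mem_insert, Finset.mem_singleton]
        tauto
      show al' ≤ ρ (insert b ∅) - ρ (insert b ({a, c} : Finset V))
      rw [q4, hal']
      linarith
    have L2c : ∀ c, E (fun a => E (fun b => ind (H a b c))) ≤ 1 / (2 * (T : ℝ) ^ 2) := by
      intro c
      refine pair_bound (fun S => ρ (insert c S)) L al' T hL hTpos h10 (mono' c) (step' c)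
        (fun a b => H a b c) ?_ (fun a => L1b a c) (fun b => L1a b c)
      rintro a b ⟨q1, _, q2, _⟩
      have q3 := hmono (insert c ∅) {a, c} (by intro v; simp; tauto)
      simp only [s1]
      rw [hal']
      linarith
    -- level three
    have key := sm_three T (fun a b c => ind (H a b c))
    have g2 : E (fun a => E (fun b => E (fun c => ind (H a b c) ^ 2))) = h := by
      refine E_congr fun a => E_congr fun b => E_congr fun c => ?_
      rw [sq, ind_sq]
    have n1 : ∀ a b, 0 ≤ E (fun c => ind (H a b c)) := fun a b => E_nonneg fun c => ind_nonneg _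
    have n2 : ∀ a c, 0 ≤ E (fun b => ind (H a b c)) := fun a b => E_nonneg fun c => ind_nonneg _
    have n3 : ∀ b c, 0 ≤ E (fun a => ind (H a b c)) := fun a b => E_nonneg fun c => ind_nonneg _
    have hperm1 : E (fun a => E (fun c => E (fun b => ind (H a b c)))) = h := by
      refine E_congr fun a => ?_
      exact E_comm (fun c b => ind (H a b c))
    have hperm2 : E (fun b => E (fun a => E (fun c => ind (H a b c)))) = h := by
      exact (E_comm (fun a b => E (fun c => ind (H a b c)))).symm
    have hperm3 : E (fun b => E (fun c => E (fun a => ind (H a b c)))) = h := by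
      rw [← hperm2]
      refine E_congr fun b => ?_
      exact (E_comm (fun a c => ind (H a b c))).symm
    have hperm4 : E (fun c => E (fun a => E (fun b => ind (H a b c)))) = h := by
      rw [← hperm1]
      exact (E_comm (fun a c => E (fun b => ind (H a b c)))).symm
    have a1 : E (fun a => E (fun b => (E (fun c => ind (H a b c))) ^ 2)) ≤ eps * h := by
      rw [hh, ← E_mul_left]
      refine E_mono fun a => ?_
      rw [← E_mul_left]
      exact E_mono fun b => b3_sq_le (n1 a b) (L1c a b)
    have a2 : E (fun a => E (fun c => (E (fun b => ind (H a b c))) ^ 2)) ≤ eps * h := by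
      rw [← hperm1, ← E_mul_left]
      refine E_mono fun a => ?_
      rw [← E_mul_left]
      exact E_mono fun c => b3_sq_le (n2 a c) (L1b a c)
    have a3 : E (fun b => E (fun c => (E (fun a => ind (H a b c))) ^ 2)) ≤ eps * h := by
      rw [← hperm3, ← E_mul_left]
      refine E_mono fun b => ?_
      rw [← E_mul_left]
      exact E_mono fun c => b3_sq_le (n3 b c) (L1a b c)
    have b1 : E (fun a => (E (fun b => E (fun c => ind (H a b c)))) ^ 2) ≤
        1 / (2 * (T : ℝ) ^ 2) * h := by
      rw [hh, ← E_mul_left]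
      exact E_mono fun a => b3_sq_le (E_nonneg fun b => n1 a b) (L2a a)
    have b2 : E (fun b => (E (fun a => E (fun c => ind (H a b c)))) ^ 2) ≤
        1 / (2 * (T : ℝ) ^ 2) * h := by
      rw [← hperm2, ← E_mul_left]
      exact E_mono fun b => b3_sq_le (E_nonneg fun a => n1 a b) (L2b b)
    have b3 : E (fun c => (E (fun a => E (fun b => ind (H a b c)))) ^ 2) ≤
        1 / (2 * (T : ℝ) ^ 2) * h := by
      rw [← hperm4, ← E_mul_left]
      exact E_mono fun c => b3_sq_le (E_nonneg fun a => n2 a c) (L2c c)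
    rw [g2] at key
    -- Paley-Zygmund
    have hpz := pz (fun p : (Fin T → V) × ((Fin T → V) × (Fin T → V)) =>
      ∑ k, ∑ l, ∑ m, ind (H (p.1 k) (p.2.1 l) (p.2.2 m)))
    rw [b3_E3 (fun x y z : Fin T → V => ∑ k, ∑ l, ∑ m, ind (H (x k) (y l) (z m))),
      b3_E3 (fun x y z : Fin T → V => ind ((∑ k, ∑ l, ∑ m, ind (H (x k) (y l) (z m))) ≠ 0)),
      b3_E3 (fun x y z : Fin T → V => (∑ k, ∑ l, ∑ m, ind (H (x k) (y l) (z m))) ^ 2),
      b3_mean T (fun a b c => ind (H a b c))] at hpz
    set Pr : ℝ := E (fun x : Fin T → V => E (fun y : Fin T → V => E (fun z : Fin T → V =>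
      ind ((∑ k, ∑ l, ∑ m, ind (H (x k) (y l) (z m))) ≠ 0)))) with hPr
    have hPr0 : 0 ≤ Pr := E_nonneg fun _ => E_nonneg fun _ => E_nonneg fun _ => ind_nonneg _
    have hP : al * Pr ≤ 3 * (T * L) := by
      refine le_trans ?_ (b3_loss3 ρ L hstep T)
      rw [hPr, ← E_mul_left]
      refine E_mono fun x => ?_
      rw [← E_mul_left]
      refine E_mono fun yy => ?_
      rw [← E_mul_left]
      refine E_mono fun z => ?_
      by_cases hz : (∑ k, ∑ l, ∑ m, ind (H (x k) (yy l) (z m))) ≠ 0
      · rw [ind_true hz, mul_one]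
        obtain ⟨k, _, hk⟩ := Finset.exists_ne_zero_of_sum_ne_zero hz
        obtain ⟨l, _, hl⟩ := Finset.exists_ne_zero_of_sum_ne_zero hk
        obtain ⟨m, _, hm⟩ := Finset.exists_ne_zero_of_sum_ne_zero hl
        have hHt : H (x k) (yy l) (z m) := by
          by_contra hc
          exact hm (ind_false hc)
        have hsub : ({x k, yy l, z m} : Finset V) ⊆
            (univ.image x ∪ univ.image yy) ∪ univ.image z := by
          intro v hv
          simp only [Finset.mem_insert, Finset.mem_singleton] at hv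
          simp only [Finset.mem_union, Finset.mem_image, Finset.mem_univ, true_and]
          rcases hv with rfl | rfl | rfl
          · exact Or.inl (Or.inl ⟨k, rfl⟩)
          · exact Or.inl (Or.inr ⟨l, rfl⟩)
          · exact Or.inr ⟨m, rfl⟩
        have := hmono _ _ hsub
        linarith [hHt.1]
      · rw [ind_false hz, mul_zero]
        have := hmono ∅ ((univ.image x ∪ univ.image yy) ∪ univ.image z) (Finset.empty_subset _)
        linarith
    have hP4 : Pr ≤ 1 / 4 := by
      have : al * Pr ≤ al * (9 / 40) := by linarith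
      have := le_of_mul_le_mul_left this hal0
      linarith
    set X : ℝ := (T : ℝ) ^ 3 * h with hX
    have hX0 : 0 ≤ X := by positivity
    have hZ2 : E (fun x : Fin T → V => E (fun y : Fin T → V => E (fun z : Fin T → V =>
        (∑ k, ∑ l, ∑ m, ind (H (x k) (y l) (z m))) ^ 2))) ≤ 14 / 5 * X + X ^ 2 := by
      refine key.trans ?_
      have t1 : (T : ℝ) ^ 4 * (E (fun a => E (fun b => (E (fun c => ind (H a b c))) ^ 2)) +
        E (fun a => E (fun c => (E (fun b => ind (H a b c))) ^ 2)) +
        E (fun b => E (fun c => (E (fun a => ind (H a b c))) ^ 2))) ≤ 3 / 10 * X := by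
        have e1 : (T : ℝ) ^ 4 * (3 * (eps * h)) = 3 * (T * eps) * X := by rw [hX]; ring
        calc _ ≤ (T : ℝ) ^ 4 * (3 * (eps * h)) := by
              refine mul_le_mul_of_nonneg_left ?_ (by positivity)
              linarith
          _ = 3 * (T * eps) * X := e1
          _ ≤ 3 / 10 * X := mul_le_mul_of_nonneg_right (by linarith) hX0
      have t2 : (T : ℝ) ^ 5 * (E (fun a => (E (fun b => E (fun c => ind (H a b c)))) ^ 2) +
        E (fun b => (E (fun a => E (fun c => ind (H a b c)))) ^ 2) +
        E (fun c => (E (fun a => E (fun b => ind (H a b c)))) ^ 2)) ≤ 3 / 2 * X := by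
        have e1 : (T : ℝ) ^ 5 * (3 * (1 / (2 * (T : ℝ) ^ 2) * h)) = 3 / 2 * X := by
          rw [hX]; field_simp
        calc _ ≤ (T : ℝ) ^ 5 * (3 * (1 / (2 * (T : ℝ) ^ 2) * h)) := by
              refine mul_le_mul_of_nonneg_left ?_ (by positivity)
              linarith
          _ = 3 / 2 * X := e1
      have t3 : (T : ℝ) ^ 6 * h ^ 2 = X ^ 2 := by rw [hX]; ring
      rw [← hh]
      linarith
    have hfin : X ^ 2 ≤ 1 / 4 * (14 / 5 * X + X ^ 2) := by
      refine hpz.trans ?_
      exact mul_le_mul hP4 hZ2 (E_nonneg fun _ => E_nonneg fun _ => E_nonneg fun _ => sq_nonneg _)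
        (by norm_num)
    have hX1 : X ≤ 1 := by
      by_contra hc
      push Not at hc
      have hXX : X * 1 < X * X := mul_lt_mul_of_pos_left hc (lt_trans one_pos hc)
      rw [sq] at hfin
      linarith only [hXX, hfin, hc]
    -- conclusion
    have hT3 : 0 < (T : ℝ) ^ 3 := by positivity
    have hy2 : y ≤ 2 * T := by linarith
    have h7 : 1 ≤ 80 / 3 * (L / al) * T := by
      have e1 : y * (L / al) = 3 / 40 := by rw [hy]; field_simp
      have e2 : 0 < L / al := by positivity
      have : y * (L / al) ≤ 2 * T * (L / al) := mul_le_mul_of_nonneg_right hy2 e2.le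
      rw [e1] at this
      linarith
    have h8 : (1 : ℝ) ≤ (80 / 3 * (L / al) * T) ^ 3 := one_le_pow₀ h7
    have h9 : (80 / 3 * (L / al) * T) ^ 3 = (80 / 3) ^ 3 * (L / al) ^ 3 * (T : ℝ) ^ 3 := by ring
    have h11 : (T : ℝ) ^ 3 * h ≤ (T : ℝ) ^ 3 * ((80 / 3) ^ 3 * (L / al) ^ 3) := by
      have : X ≤ (80 / 3) ^ 3 * (L / al) ^ 3 * (T : ℝ) ^ 3 := by rw [← h9]; linarith
      rw [hX] at this
      linarith
    have h12 := le_of_mul_le_mul_left h11 hT3
    have h13 : (80 / 3 : ℝ) ^ 3 * (L / al) ^ 3 ≤ 30 ^ 3 * (L / al) ^ 3 := by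
      refine mul_le_mul_of_nonneg_right (by norm_num) (by positivity)
    linarith

end Pool.Agent.H320R2.CT
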