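import Pool.Agent.H320R2.CT.Defs

/-! Task BA: basic facts about `pc` and `RC`. -/

set_option autoImplicit false

namespace Pool.Agent.H320R2.CT

open Finset Filter Pool.Agent.H999R2.KSat

theorem pc_zero (n q : ℕ) (hq : 0 < q) : pc n q 0 = 1 := by
  unfold pc
  have h : ∀ F : Fin 0 → Ed n, ind ((SolC F : Set (Co n q)).Nonempty) = 1 := fun F =>
    ind_true ⟨fun _ => ⟨0, hq⟩, fun j => j.elim0⟩
  rw [E_congr h]
  exact E_const 1

theorem pc_nonneg (n q m : ℕ) : 0 ≤ pc n q m := E_nonneg fun _ => ind_nonneg _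

theorem pc_le_one (n q m : ℕ) : pc n q m ≤ 1 := E_le_of_nonneg zero_le_one fun _ => ind_le_one _

theorem pc_succ_le (n q m : ℕ) : pc n q (m + 1) ≤ pc n q m := by
  rcases isEmpty_or_nonempty (Ed n) with hX | hX
  · have : IsEmpty (Fin (m + 1) → Ed n) := ⟨fun F => hX.false (F 0)⟩
    have h0 : pc n q (m + 1) = 0 := by simp [pc, E]
    rw [h0]
    exact pc_nonneg n q m
  · have h1 : pc n q (m + 1) = E (fun x : Ed n => E (fun G : Fin m → Ed n =>
        ind ((SolC (Fin.cons x G : Fin (m + 1) → Ed n) : Set (Co n q)).Nonempty))) := by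
      unfold pc
      exact E_cons (X := Ed n) (fun F => ind ((SolC F : Set (Co n q)).Nonempty))
    rw [h1]
    refine E_le_const fun x => ?_
    unfold pc
    refine E_mono fun G => ind_mono ?_
    rintro ⟨a, ha⟩
    refine ⟨a, fun j => ?_⟩
    have := ha j.succ
    rwa [Fin.cons_succ] at this

theorem ba_sum (n : ℕ) (f : Fin n → Fin n → ℝ) :
    ∑ e : Ed n, f e.1.1 e.1.2 = ∑ i, ∑ j, f i j - ∑ i, f i i := by
  have h1 : ∑ e : Ed n, f e.1.1 e.1.2 =
      ∑ e ∈ (univ : Finset (Fin n × Fin n)).filter (fun e => e.1 ≠ e.2), f e.1 e.2 := by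
    rw [← Finset.sum_subtype_eq_sum_filter]
    refine Finset.sum_congr ?_ fun _ _ => rfl
    ext e
    simp
  have h2 : ∑ e : Fin n × Fin n, f e.1 e.2 = ∑ i, ∑ j, f i j := by
    rw [Fintype.sum_prod_type]
  have h3 : ∑ e ∈ (univ : Finset (Fin n × Fin n)).filter (fun e => ¬ (e.1 ≠ e.2)), f e.1 e.2 =
      ∑ i, f i i := by
    refine Finset.sum_bij' (fun e _ => e.1) (fun i _ => (i, i)) ?_ ?_ ?_ ?_ ?_
    · intro e _; exact mem_univ _
    · intro i _; simp
    · rintro ⟨i, j⟩ h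
      simp only [ne_eq, not_not, mem_filter, mem_univ, true_and] at h
      rw [h]
    · intro i _; rfl
    · rintro ⟨i, j⟩ h
      simp only [ne_eq, not_not, mem_filter, mem_univ, true_and] at h
      rw [h]
  have h4 := Finset.sum_filter_add_sum_filter_not (univ : Finset (Fin n × Fin n))
    (fun e => e.1 ≠ e.2) (fun e => f e.1 e.2)
  rw [h3, h2] at h4
  rw [h1]
  linarith

theorem ba_card (n : ℕ) : (Fintype.card (Ed n) : ℝ) = (n : ℝ) * n - n := by
  have h := ba_sum n (fun _ _ => (1 : ℝ))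
  simp only [Finset.sum_const, Finset.card_univ, nsmul_eq_mul, mul_one, Fintype.card_fin] at h
  linarith

theorem ba_sum_ind {q : ℕ} (x : Fin q) : ∑ c, ind (x = c) = 1 := by
  rw [Finset.sum_eq_single x]
  · exact ind_true rfl
  · intro c _ hc
    exact ind_false (fun h => hc h.symm)
  · intro h; exact absurd (mem_univ x) h

theorem ba_mono_pairs {n q : ℕ} (hq : 1 ≤ q) (σ : Co n q) :
    (n : ℝ) ^ 2 / q ≤ ∑ i, ∑ j, ind (σ i = σ j) := by
  classical
  have hq0 : (0 : ℝ) < q := by exact_mod_cast hq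
  set N : Fin q → ℝ := fun c => ∑ i, ind (σ i = c) with hN
  have h1 : ∑ c, N c = n := by
    simp only [hN]
    rw [Finset.sum_comm]
    simp [ba_sum_ind]
  have h2 : ∑ i, ∑ j, ind (σ i = σ j) = ∑ c, N c ^ 2 := by
    have h3 : ∀ i j : Fin n, ind (σ i = σ j) = ∑ c, ind (σ i = c) * ind (σ j = c) := by
      intro i j
      by_cases h : σ i = σ j
      · rw [ind_true h]
        have : ∀ c, ind (σ i = c) * ind (σ j = c) = ind (σ i = c) := by
          intro c; rw [← h, ind_sq]
        rw [Finset.sum_congr rfl (fun c _ => this c), ba_sum_ind]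
      · rw [ind_false h]
        symm
        refine Finset.sum_eq_zero fun c _ => ?_
        by_cases hc : σ i = c
        · rw [ind_false (P := σ j = c) (fun h' => h (hc.trans h'.symm)), mul_zero]
        · rw [ind_false hc, zero_mul]
    simp only [h3]
    have h4 : ∀ c, N c ^ 2 = ∑ i, ∑ j, ind (σ i = c) * ind (σ j = c) := by
      intro c
      simp only [hN]
      rw [sq, Finset.sum_mul_sum]
    simp only [h4]
    rw [Finset.sum_comm]
    rw [Finset.sum_congr rfl (fun j _ => Finset.sum_comm)]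
    rw [Finset.sum_comm]
    refine Finset.sum_congr rfl fun c _ => ?_
    rw [Finset.sum_comm]
  have h5 : (∑ c, N c) ^ 2 ≤ q * ∑ c, N c ^ 2 := by
    have := sq_sum_le_card_mul_sum_sq (s := (univ : Finset (Fin q))) (f := N)
    simpa using this
  rw [h1] at h5
  rw [h2, div_le_iff₀ hq0]
  linarith

theorem ba_edge {n q : ℕ} (hq : 1 ≤ q) (hn : 2 * q ≤ n) (σ : Co n q) :
    E (fun e : Ed n => ind (pr σ e)) ≤ 1 - 1 / (2 * q) := by
  have hq0 : (1 : ℝ) ≤ q := by exact_mod_cast hq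
  have hn0 : (2 : ℝ) * q ≤ n := by exact_mod_cast hn
  have hn2 : (2 : ℝ) ≤ n := by linarith
  have hcard := ba_card n
  have hpos : (0 : ℝ) < (n : ℝ) * n - n := by nlinarith
  have hne : Nonempty (Ed n) := by
    by_contra hcon
    rw [not_nonempty_iff] at hcon
    rw [Fintype.card_eq_zero] at hcard
    push_cast at hcard
    linarith
  have h1 : ∀ e : Ed n, ind (pr σ e) = 1 - ind (σ e.1.1 = σ e.1.2) := by
    intro e
    rw [← ind_not]
    rfl
  rw [E_congr h1, E_sub, E_const]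
  have h2 : 1 / (2 * (q : ℝ)) ≤ E (fun e : Ed n => ind (σ e.1.1 = σ e.1.2)) := by
    unfold E
    rw [hcard, ba_sum n (fun i j => ind (σ i = σ j)), le_div_iff₀ hpos]
    have h3 := ba_mono_pairs hq σ
    have h4 : ∑ i : Fin n, ind (σ i = σ i) = n := by
      simp [ind]
    rw [h4]
    have h5 : 1 / (2 * (q : ℝ)) * ((n : ℝ) * n - n) ≤ (n : ℝ) ^ 2 / q - n := by
      rw [div_mul_eq_mul_div, one_mul, div_le_iff₀ (by linarith)]
      have h6 : ((n : ℝ) ^ 2 / q - n) * (2 * q) = 2 * (n : ℝ) ^ 2 - 2 * q * n := by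
        field_simp
      rw [h6]
      nlinarith
    linarith
  linarith

theorem pc_first_moment (q : ℕ) (hq : 1 ≤ q) : ∃ n1 : ℕ, ∃ K r : ℝ, 0 ≤ r ∧ r < 1 ∧ 1 ≤ K ∧
    ∀ n m : ℕ, n1 ≤ n → pc n q m ≤ K ^ n * r ^ m := by
  have hq0 : (1 : ℝ) ≤ q := by exact_mod_cast hq
  refine ⟨2 * q, q, 1 - 1 / (2 * q), ?_, ?_, hq0, ?_⟩
  · rw [sub_nonneg, div_le_one (by linarith)]; linarith
  · have : 0 < 1 / (2 * (q : ℝ)) := by positivity
    linarith
  intro n m hn
  unfold pc
  have h1 : ∀ F : Fin m → Ed n, ind ((SolC F : Set (Co n q)).Nonempty) ≤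
      ∑ a : Co n q, ∏ j, ind (pr a (F j)) := by
    intro F
    refine (ind_exists_le (fun a : Co n q => a ∈ (SolC F : Set (Co n q)))).trans (le_of_eq ?_)
    refine Finset.sum_congr rfl fun a _ => ?_
    exact ind_forall _
  refine (E_mono h1).trans ?_
  rw [E_sum]
  have h2 : ∀ a : Co n q, E (fun F : Fin m → Ed n => ∏ j, ind (pr a (F j))) ≤
      (1 - 1 / (2 * (q : ℝ))) ^ m := by
    intro a
    rw [E_pi (fun _ (e : Ed n) => ind (pr a e))]
    simp only [Finset.prod_const, Finset.card_univ, Fintype.card_fin]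
    exact pow_le_pow_left₀ (E_nonneg fun _ => ind_nonneg _) (ba_edge hq hn a) m
  refine (Finset.sum_le_sum fun a _ => h2 a).trans (le_of_eq ?_)
  rw [Finset.sum_const, Finset.card_univ, nsmul_eq_mul]
  congr 1
  simp

theorem RC_nonneg {n q : ℕ} (s : ℕ) (A : Set (Co n q)) : 0 ≤ RC s A :=
  E_nonneg fun _ => Finset.sum_nonneg fun _ _ => ind_nonneg _

theorem RC_mono {n q : ℕ} (s : ℕ) {A B : Set (Co n q)} (h : A ⊆ B) : RC s A ≤ RC s B := by
  refine E_mono fun W => Finset.sum_le_sum fun u _ => ind_mono ?_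
  rintro ⟨a, ha, hW⟩
  exact ⟨a, h ha, hW⟩

theorem RC_empty {n q : ℕ} (s : ℕ) : RC s (∅ : Set (Co n q)) = 0 := by
  unfold RC
  have h : ∀ W : Fin s → Ed n, ∑ u ∈ range s, ind (∃ a ∈ (∅ : Set (Co n q)),
      ∀ l : Fin s, l.val < u → pr a (W l)) = 0 := by
    intro W
    refine Finset.sum_eq_zero fun u _ => ind_false ?_
    rintro ⟨a, ha, -⟩
    exact ha
  rw [E_congr h]
  exact E_zero

theorem E_RC_ge (n q m s : ℕ) :
    (s : ℝ) * pc n q (m + s) ≤ E (fun F : Fin m → Ed n => RC s (SolC F : Set (Co n q))) := by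
  have h1 : (s : ℝ) * pc n q (m + s) = E (fun F : Fin m → Ed n =>
      E (fun W : Fin s → Ed n => ∑ _u ∈ range s,
        ind ((SolC (Fin.append F W) : Set (Co n q)).Nonempty))) := by
    unfold pc
    rw [E_append (X := Ed n) (fun F => ind ((SolC F : Set (Co n q)).Nonempty)), ← E_mul_left]
    refine E_congr fun F => ?_
    rw [← E_mul_left]
    refine E_congr fun W => ?_
    rw [Finset.sum_const, Finset.card_range, nsmul_eq_mul]
  rw [h1]
  refine E_mono fun F => ?_
  unfold RC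
  refine E_mono fun W => Finset.sum_le_sum fun u _ => ind_mono ?_
  rintro ⟨a, ha⟩
  refine ⟨a, fun j => ?_, fun l _ => ?_⟩
  · have := ha (Fin.castAdd s j)
    rwa [Fin.append_left] at this
  · have := ha (Fin.natAdd m l)
    rwa [Fin.append_right] at this

/-- the average effect of one edge is at most one (telescoping) -/
theorem delta_first {n q : ℕ} (s : ℕ) (hn : 2 ≤ n) (A : Set (Co n q)) :
    E (fun e : Ed n => RC s A - RC s (A ∩ {σ | pr σ e})) ≤ 1 := by
  have hne : Nonempty (Ed n) := ⟨⟨(⟨0, by omega⟩, ⟨1, by omega⟩), by simp⟩⟩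
  set a : ℕ → ℝ := fun u => E (fun W : Fin s → Ed n =>
    ind (∃ σ ∈ A, ∀ l : Fin s, l.val < u → pr σ (W l))) with ha
  have h1 : RC s A = ∑ u ∈ range s, a u := by
    unfold RC
    rw [E_sum]
  have h2 : E (fun e : Ed n => RC s (A ∩ {σ | pr σ e})) = ∑ u ∈ range s, a (u + 1) := by
    unfold RC
    have h3 : ∀ e : Ed n, E (fun W : Fin s → Ed n => ∑ u ∈ range s,
        ind (∃ σ ∈ A ∩ {σ | pr σ e}, ∀ l : Fin s, l.val < u → pr σ (W l))) =
        ∑ u ∈ range s, E (fun W : Fin s → Ed n =>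
          ind (∃ σ ∈ A ∩ {σ | pr σ e}, ∀ l : Fin s, l.val < u → pr σ (W l))) := fun e => by
      rw [E_sum]
    rw [E_congr h3, E_sum]
    refine Finset.sum_congr rfl fun u hu => ?_
    rw [mem_range] at hu
    rw [E_comm]
    simp only [ha]
    rw [E_update (X := Ed n) (⟨u, hu⟩ : Fin s) (fun W => ind (∃ σ ∈ A, ∀ l : Fin s,
      l.val < u + 1 → pr σ (W l)))]
    refine E_congr fun W => E_congr fun e => ind_congr ?_
    constructor
    · rintro ⟨σ, ⟨hσ, hσe⟩, hW⟩
      refine ⟨σ, hσ, fun l hl => ?_⟩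
      by_cases hlu : l = ⟨u, hu⟩
      · subst hlu
        rw [Function.update_self]
        exact hσe
      · rw [Function.update_of_ne hlu]
        have : l.val ≠ u := fun h => hlu (Fin.ext h)
        exact hW l (by omega)
    · rintro ⟨σ, hσ, hW⟩
      refine ⟨σ, ⟨hσ, ?_⟩, fun l hl => ?_⟩
      · have := hW ⟨u, hu⟩ (Nat.lt_succ_self u)
        rwa [Function.update_self] at this
      · have hlu : l ≠ ⟨u, hu⟩ := fun h => by
          have : l.val = u := congrArg Fin.val h
          omega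
        have := hW l (by omega)
        rwa [Function.update_of_ne hlu] at this
  rw [E_sub, E_const, h2, h1, ← Finset.sum_sub_distrib, Finset.sum_range_sub']
  have h4 : a 0 ≤ 1 := E_le_of_nonneg zero_le_one fun _ => ind_le_one _
  have h5 : 0 ≤ a s := E_nonneg fun _ => ind_nonneg _
  linarith

end Pool.Agent.H320R2.CT
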