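import Pool.Agent.H320R2.CT.Defs

/-! Task DC: decomposition of the effect of one edge. -/

set_option autoImplicit false

namespace Pool.Agent.H320R2.CT

open Finset Pool.Agent.H999R2.KSat

theorem dc_aux_nonneg {N A1 A2 : Prop} (h : A2 → A1) : 0 ≤ ind (N ∧ A1) - ind (N ∧ A2) :=
  sub_nonneg.mpr (ind_mono (fun hx => ⟨hx.1, h hx.2⟩))

theorem dc_aux_le {N A1 A2 : Prop} (h : A2 → A1) :
    ind (N ∧ A1) - ind (N ∧ A2) ≤ ind A1 - ind A2 := by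
  by_cases hN : N
  · have h1 : ind (N ∧ A1) = ind A1 := ind_congr ⟨fun x => x.2, fun x => ⟨hN, x⟩⟩
    have h2 : ind (N ∧ A2) = ind A2 := ind_congr ⟨fun x => x.2, fun x => ⟨hN, x⟩⟩
    rw [h1, h2]
  · have h1 : ind (N ∧ A1) = 0 := ind_false (fun x => hN x.1)
    have h2 : ind (N ∧ A2) = 0 := ind_false (fun x => hN x.1)
    rw [h1, h2]
    have := ind_mono h
    linarith

theorem dc_aux_one (P Q : Prop) : ind P - ind Q ≤ 1 := by
  have h1 := ind_le_one P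
  have h2 := ind_nonneg Q
  linarith

theorem dc_pt {N1 N2 T1 T2 A1 A2 : Prop} (h : A2 → A1) (h1 : ¬ N1 → T1) (h2 : ¬ N2 → T2) :
    ind A1 - ind A2 ≤ (ind (N1 ∧ A1) - ind (N1 ∧ A2)) + (ind (N2 ∧ A1) - ind (N2 ∧ A2)) +
      ind (T1 ∧ T2) := by
  have e1 := dc_aux_nonneg (N := N1) h
  have e2 := dc_aux_nonneg (N := N2) h
  have e3 := ind_nonneg (T1 ∧ T2)
  by_cases hN1 : N1
  · have a1 : ind (N1 ∧ A1) = ind A1 := ind_congr ⟨fun x => x.2, fun x => ⟨hN1, x⟩⟩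
    have a2 : ind (N1 ∧ A2) = ind A2 := ind_congr ⟨fun x => x.2, fun x => ⟨hN1, x⟩⟩
    rw [a1, a2]
    linarith
  · by_cases hN2 : N2
    · have a1 : ind (N2 ∧ A1) = ind A1 := ind_congr ⟨fun x => x.2, fun x => ⟨hN2, x⟩⟩
      have a2 : ind (N2 ∧ A2) = ind A2 := ind_congr ⟨fun x => x.2, fun x => ⟨hN2, x⟩⟩
      rw [a1, a2]
      linarith
    · have a3 : ind (T1 ∧ T2) = 1 := ind_true ⟨h1 hN1, h2 hN2⟩
      have := dc_aux_one A1 A2
      linarith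

theorem dc_sub {n q M s : ℕ} (G : Fin M → Ed n) (e : Ed n) (W : Fin s → Ed n) (u : ℕ) :
    (∃ σ ∈ (SolC G : Set (Co n q)) ∩ {σ | pr σ e}, ∀ l : Fin s, l.val < u → pr σ (W l)) →
      ∃ σ ∈ (SolC G : Set (Co n q)), ∀ l : Fin s, l.val < u → pr σ (W l) := by
  rintro ⟨σ, hσ, h⟩
  exact ⟨σ, hσ.1, h⟩

theorem dc_not {n s : ℕ} (i : Fin n) (W : Fin s → Ed n) (u : ℕ)
    (h : ¬ ∀ l : Fin s, l.val < u → ¬ tc i (W l)) : ∃ l : Fin s, l.val < u ∧ tc i (W l) := by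
  by_contra hc
  exact h (fun l hl ht => hc ⟨l, hl, ht⟩)

theorem delta_decomp {n q M : ℕ} (s : ℕ) (G : Fin M → Ed n) (e : Ed n) :
    RC s (SolC G : Set (Co n q)) - RC s ((SolC G : Set (Co n q)) ∩ {σ | pr σ e}) ≤
      Dp (q := q) s e.1.1 G e + Dp (q := q) s e.1.2 G e +
      E (fun W : Fin s → Ed n => ∑ u ∈ range s,
        ind ((∃ l : Fin s, l.val < u ∧ tc e.1.1 (W l)) ∧
          (∃ l : Fin s, l.val < u ∧ tc e.1.2 (W l)))) := by
  unfold RC Dp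
  rw [← E_sub, ← E_add, ← E_add]
  refine E_mono fun W => ?_
  rw [← Finset.sum_sub_distrib, ← Finset.sum_add_distrib, ← Finset.sum_add_distrib]
  refine Finset.sum_le_sum fun u _ => ?_
  exact dc_pt (dc_sub G e W u) (dc_not e.1.1 W u) (dc_not e.1.2 W u)

theorem Dp_nonneg {n q M : ℕ} (s : ℕ) (i : Fin n) (G : Fin M → Ed n) (e : Ed n) :
    0 ≤ Dp (q := q) s i G e := by
  unfold Dp
  exact E_nonneg fun W => Finset.sum_nonneg fun u _ => dc_aux_nonneg (dc_sub G e W u)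

theorem Dp_le_delta {n q M : ℕ} (s : ℕ) (i : Fin n) (G : Fin M → Ed n) (e : Ed n) :
    Dp (q := q) s i G e ≤
      RC s (SolC G : Set (Co n q)) - RC s ((SolC G : Set (Co n q)) ∩ {σ | pr σ e}) := by
  unfold RC Dp
  rw [← E_sub]
  refine E_mono fun W => ?_
  rw [← Finset.sum_sub_distrib]
  exact Finset.sum_le_sum fun u _ => dc_aux_le (dc_sub G e W u)

theorem Dp_le_s {n q M : ℕ} (s : ℕ) (i : Fin n) (G : Fin M → Ed n) (e : Ed n) :
    Dp (q := q) s i G e ≤ s := by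
  unfold Dp
  refine E_le_of_nonneg (Nat.cast_nonneg s) fun W => ?_
  calc _ ≤ ∑ u ∈ range s, (1 : ℝ) := Finset.sum_le_sum fun u _ => dc_aux_one _ _
    _ = s := by simp

end Pool.Agent.H320R2.CT
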