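import Pool.Agent.H320R2.CT.SI
import Pool.Agent.H320R2.CT.DC
import Pool.Agent.H320R2.CT.BA

/-! Task DE: second moment of the effect of one edge. -/

set_option autoImplicit false

namespace Pool.Agent.H320R2.CT

open Finset Pool.Agent.H999R2.KSat

/-- the star indicator -/
noncomputable def deF {n q M : ℕ} (s : ℕ) (lam : ℝ) (c0 : Fin q) (G : Fin M → Ed n)
    (i w : Fin n) : ℝ :=
  ind (lam ≤ rho s i c0 (Base i G) ∅ - rho s i c0 (Base i G) ({w} ∪ Nb i G))

theorem de_star {n q : ℕ} (s M : ℕ) (lam : ℝ) (hn : 2 ≤ n) (hs1 : 1 ≤ s) (hs : s ≤ n)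
    (hlam : 0 < lam) (hq : 3 ≤ q) (c0 : Fin q) (i : Fin n) :
    E (fun w : Fin n => E (fun G : Fin M → Ed n => deF s lam c0 G i w)) ≤
      30 ^ 3 * (Real.sqrt (3 * s) / lam) ^ 3 * 250 * (1 + 500 / ((n : ℝ) - 1)) ^ M := by
  have h1 := star_graph s lam hn hs1 hs hlam hq i c0 M 1 (Set.univ : Set (Co n q))
    (fun π σ _ => Set.mem_univ _)
  rw [pow_one] at h1
  refine le_trans (le_of_eq ?_) h1
  rw [E_cons]
  refine E_congr fun w => ?_
  have h2 : ∀ v : Fin 0 → Fin n, E (fun G : Fin M → Ed n =>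
      ind (lam ≤ rho s i c0 ((Set.univ : Set (Co n q)) ∩ Base i G) ∅ -
        rho s i c0 ((Set.univ : Set (Co n q)) ∩ Base i G)
          (univ.image (Fin.cons w v : Fin 1 → Fin n) ∪ Nb i G))) =
      E (fun G : Fin M → Ed n => deF s lam c0 G i w) := by
    intro v
    refine E_congr fun G => ?_
    unfold deF
    have h3 : univ.image (Fin.cons w v : Fin 1 → Fin n) = {w} := by
      ext x
      simp only [mem_image, mem_univ, true_and, mem_singleton]
      rw [Fin.exists_fin_succ]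
      simp only [Fin.cons_zero, Fin.cons_succ]
      constructor
      · rintro (h | ⟨j, _⟩)
        · exact h.symm
        · exact j.elim0
      · exact fun h => Or.inl h.symm
    rw [h3, Set.univ_inter]
  rw [E_congr h2, E_const]

theorem de_alg (D x y z lam s P1 P2 : ℝ) (hlam : 0 < lam) (hs : 0 ≤ s)
    (hx : 0 ≤ x) (hy : 0 ≤ y) (hz : 0 ≤ z) (hxD : x ≤ D) (hyD : y ≤ D) (hxs : x ≤ s) (hys : y ≤ s)
    (hD : D ≤ x + y + z) (hP1 : 0 ≤ P1) (hP2 : 0 ≤ P2) (h1 : lam ≤ x → 1 ≤ P1)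
    (h2 : lam ≤ y → 1 ≤ P2) :
    D ^ 2 ≤ 18 * lam * D + 9 * s ^ 2 * (P1 + P2) + 3 * z * D := by
  have hD0 : 0 ≤ D := hx.trans hxD
  have hsq : ∀ a P : ℝ, 0 ≤ a → a ≤ D → a ≤ s → 0 ≤ P → (lam ≤ a → 1 ≤ P) →
      a ^ 2 ≤ lam * D + s ^ 2 * P := by
    intro a P ha haD has hP h
    have hs2 : 0 ≤ s ^ 2 * P := by positivity
    rcases lt_or_ge a lam with hl | hl
    · have : a ^ 2 ≤ lam * D := by
        calc a ^ 2 = a * a := sq a
          _ ≤ lam * D := mul_le_mul hl.le haD ha hlam.le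
      linarith
    · have h3 : a ^ 2 ≤ s ^ 2 := pow_le_pow_left₀ ha has 2
      have h4 : s ^ 2 * 1 ≤ s ^ 2 * P := mul_le_mul_of_nonneg_left (h hl) (sq_nonneg s)
      have h5 : 0 ≤ lam * D := by positivity
      linarith
  have hx2 := hsq x P1 hx hxD hxs hP1 h1
  have hy2 := hsq y P2 hy hyD hys hP2 h2
  have hzD : 0 ≤ z * D := mul_nonneg hz hD0
  have hkey : D ^ 2 ≤ 9 * x ^ 2 + 9 * y ^ 2 + 3 * (z * D) := by
    by_cases hxm : D ≤ 3 * x
    · have : D ^ 2 ≤ (3 * x) ^ 2 := pow_le_pow_left₀ hD0 hxm 2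
      nlinarith [sq_nonneg y]
    · by_cases hym : D ≤ 3 * y
      · have : D ^ 2 ≤ (3 * y) ^ 2 := pow_le_pow_left₀ hD0 hym 2
        nlinarith [sq_nonneg x]
      · push Not at hxm hym
        have hzm : D ≤ 3 * z := by linarith
        have : D * D ≤ 3 * z * D := mul_le_mul_of_nonneg_right hzm hD0
        nlinarith [sq_nonneg x, sq_nonneg y]
  linarith

theorem delta_sq {n q : ℕ} (s M : ℕ) (lam : ℝ) (hn : 2 ≤ n) (hs1 : 1 ≤ s) (hs : s ≤ n)
    (hlam : 0 < lam) (hq : 3 ≤ q) :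
    E (fun G : Fin M → Ed n => E (fun e : Ed n =>
      (RC s (SolC G : Set (Co n q)) - RC s ((SolC G : Set (Co n q)) ∩ {σ | pr σ e})) ^ 2)) ≤
      18 * (lam + 2 * (s : ℝ) ^ 2 * (30 ^ 3 * (Real.sqrt (3 * s) / lam) ^ 3 * 250 *
        (1 + 500 / ((n : ℝ) - 1)) ^ M)) + 24 * (s : ℝ) ^ 3 / (n : ℝ) ^ 2 := by
  set c0 : Fin q := ⟨0, by omega⟩ with hc0
  have hn0 : (0 : ℝ) < n := by
    have : 0 < n := by omega
    exact_mod_cast this
  have hn1 : (0 : ℝ) < (n : ℝ) - 1 := by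
    have : (2 : ℝ) ≤ n := by exact_mod_cast hn
    linarith
  set bd : ℝ := 30 ^ 3 * (Real.sqrt (3 * s) / lam) ^ 3 * 250 *
        (1 + 500 / ((n : ℝ) - 1)) ^ M with hbd
  have hbd0 : 0 ≤ bd := by rw [hbd]; positivity
  set D : (Fin M → Ed n) → Ed n → ℝ := fun G e =>
    RC s (SolC G : Set (Co n q)) - RC s ((SolC G : Set (Co n q)) ∩ {σ | pr σ e}) with hD
  set Z : ℝ := 8 * (s : ℝ) ^ 3 / (n : ℝ) ^ 2 with hZ
  have hZ0 : 0 ≤ Z := by rw [hZ]; positivity
  have hDnn : ∀ G e, 0 ≤ D G e := fun G e =>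
    (Dp_nonneg (q := q) s e.1.1 G e).trans (Dp_le_delta s e.1.1 G e)
  -- pointwise bound
  have hpt : ∀ (G : Fin M → Ed n) (e : Ed n), D G e ^ 2 ≤ 18 * lam * D G e +
      9 * (s : ℝ) ^ 2 * (deF s lam c0 G e.1.1 e.1.2 + deF s lam c0 G e.1.2 e.1.1) +
        3 * Z * D G e := by
    intro G e
    have htc1 : tc e.1.1 e := Or.inl rfl
    have htc2 : tc e.1.2 e := Or.inr rfl
    have ho1 : oth e.1.1 e = e.1.2 := by
      unfold oth
      rw [if_pos rfl]
    have ho2 : oth e.1.2 e = e.1.1 := by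
      unfold oth
      rw [if_neg e.2]
    have hr1 := Dp_le_rho s e.1.1 c0 G e htc1
    have hr2 := Dp_le_rho s e.1.2 c0 G e htc2
    rw [ho1] at hr1
    rw [ho2] at hr2
    have hdec := delta_decomp (q := q) s G e
    have hbt := both_touched hn s e.1.1 e.1.2 e.2
    have hD' : D G e ≤ Dp (q := q) s e.1.1 G e + Dp (q := q) s e.1.2 G e + Z := by
      rw [hD, hZ]
      simp only
      linarith
    refine de_alg (D G e) (Dp (q := q) s e.1.1 G e) (Dp (q := q) s e.1.2 G e) Z lam s _ _ hlam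
      (by positivity) (Dp_nonneg s _ G e) (Dp_nonneg s _ G e) hZ0 (Dp_le_delta s _ G e)
      (Dp_le_delta s _ G e) (Dp_le_s s _ G e) (Dp_le_s s _ G e) hD' (ind_nonneg _) (ind_nonneg _)
      ?_ ?_
    · intro h
      exact (ind_true (h.trans hr1)).ge
    · intro h
      exact (ind_true (h.trans hr2)).ge
  -- averages
  have hED : E (fun G : Fin M → Ed n => E (fun e : Ed n => D G e)) ≤ 1 :=
    E_le_of_nonneg zero_le_one fun G => delta_first s hn (SolC G)
  have hEF1 : E (fun G : Fin M → Ed n => E (fun e : Ed n => deF s lam c0 G e.1.1 e.1.2)) ≤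
      2 * bd := by
    have h1 : ∀ G : Fin M → Ed n, E (fun e : Ed n => deF s lam c0 G e.1.1 e.1.2) ≤
        2 * E (fun i => E (fun w => deF s lam c0 G i w)) := fun G =>
      E_edge_le hn (fun i w => deF s lam c0 G i w) (fun i w => ind_nonneg _)
    refine (E_mono h1).trans ?_
    rw [E_mul_left]
    apply mul_le_mul_of_nonneg_left _ (by norm_num)
    rw [E_comm]
    refine E_le_of_nonneg hbd0 fun i => ?_
    rw [E_comm]
    exact de_star s M lam hn hs1 hs hlam hq c0 i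
  have hEF2 : E (fun G : Fin M → Ed n => E (fun e : Ed n => deF s lam c0 G e.1.2 e.1.1)) ≤
      2 * bd := by
    have h1 : ∀ G : Fin M → Ed n, E (fun e : Ed n => deF s lam c0 G e.1.2 e.1.1) ≤
        2 * E (fun w => E (fun i => deF s lam c0 G i w)) := fun G =>
      E_edge_le hn (fun w i => deF s lam c0 G i w) (fun w i => ind_nonneg _)
    refine (E_mono h1).trans ?_
    rw [E_mul_left]
    apply mul_le_mul_of_nonneg_left _ (by norm_num)
    have h2 : ∀ G : Fin M → Ed n, E (fun w => E (fun i => deF s lam c0 G i w)) =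
        E (fun i => E (fun w => deF s lam c0 G i w)) := fun G => E_comm _
    rw [E_congr h2, E_comm]
    refine E_le_of_nonneg hbd0 fun i => ?_
    rw [E_comm]
    exact de_star s M lam hn hs1 hs hlam hq c0 i
  -- total
  have htot : E (fun G : Fin M → Ed n => E (fun e : Ed n => D G e ^ 2)) ≤
      18 * lam * E (fun G : Fin M → Ed n => E (fun e : Ed n => D G e)) +
      9 * (s : ℝ) ^ 2 * (E (fun G : Fin M → Ed n => E (fun e : Ed n =>
        deF s lam c0 G e.1.1 e.1.2)) + E (fun G : Fin M → Ed n => E (fun e : Ed n =>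
        deF s lam c0 G e.1.2 e.1.1))) +
      3 * Z * E (fun G : Fin M → Ed n => E (fun e : Ed n => D G e)) := by
    rw [← E_mul_left, ← E_add, ← E_mul_left, ← E_mul_left, ← E_add, ← E_add]
    refine E_mono fun G => ?_
    rw [← E_mul_left, ← E_add, ← E_mul_left, ← E_mul_left, ← E_add, ← E_add]
    exact E_mono fun e => hpt G e
  refine htot.trans ?_
  have h1 : 18 * lam * E (fun G : Fin M → Ed n => E (fun e : Ed n => D G e)) ≤ 18 * lam * 1 :=
    mul_le_mul_of_nonneg_left hED (by positivity)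
  have h2 : 3 * Z * E (fun G : Fin M → Ed n => E (fun e : Ed n => D G e)) ≤ 3 * Z * 1 :=
    mul_le_mul_of_nonneg_left hED (by positivity)
  have h3 : 9 * (s : ℝ) ^ 2 * (E (fun G : Fin M → Ed n => E (fun e : Ed n =>
        deF s lam c0 G e.1.1 e.1.2)) + E (fun G : Fin M → Ed n => E (fun e : Ed n =>
        deF s lam c0 G e.1.2 e.1.1))) ≤ 9 * (s : ℝ) ^ 2 * (2 * bd + 2 * bd) :=
    mul_le_mul_of_nonneg_left (add_le_add hEF1 hEF2) (by positivity)
  have h4 : 24 * (s : ℝ) ^ 3 / (n : ℝ) ^ 2 = 3 * Z := by rw [hZ]; ring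
  rw [h4]
  linarith

end Pool.Agent.H320R2.CT
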