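import Pool.Agent.H320R2.CT.Defs

/-! Task DR: the vertex `i` may take the colour `c0` by symmetry. -/

set_option autoImplicit false

namespace Pool.Agent.H320R2.CT

open Finset Pool.Agent.H999R2.KSat

theorem dr_touch {n q : ℕ} (i : Fin n) (c0 : Fin q) (σ : Co n q) (g : Ed n) (hg : tc i g)
    (hc : σ (oth i g) ≠ c0) : pr (Function.update σ i c0) g := by
  unfold pr
  by_cases h1 : g.1.1 = i
  · have h2 : g.1.2 ≠ i := fun h => g.2 (h1.trans h.symm)
    unfold oth at hc
    rw [if_pos h1] at hc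
    rw [h1, Function.update_self, Function.update_of_ne h2]
    exact hc.symm
  · have h2 : g.1.2 = i := by
      rcases hg with h | h
      · exact absurd h h1
      · exact h
    unfold oth at hc
    rw [if_neg h1] at hc
    rw [h2, Function.update_self, Function.update_of_ne h1]
    exact hc

theorem dr_oth_ne {n : ℕ} (i : Fin n) (g : Ed n) (hg : tc i g) : oth i g ≠ i := by
  unfold oth
  by_cases h1 : g.1.1 = i
  · rw [if_pos h1]
    exact fun h => g.2 (h1.trans h.symm)
  · rw [if_neg h1]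
    exact h1

theorem dr_mem_Nb {n M : ℕ} (i : Fin n) (G : Fin M → Ed n) (w : Fin n) :
    w ∈ Nb i G ↔ ∃ j, tc i (G j) ∧ w = oth i (G j) := by
  simp [Nb]

theorem dr_notouch {n q : ℕ} (i : Fin n) (c0 : Fin q) (σ : Co n q) (g : Ed n) (hg : ¬ tc i g)
    (hc : pr σ g) : pr (Function.update σ i c0) g := by
  unfold pr at *
  unfold tc at hg
  push Not at hg
  rw [Function.update_of_ne hg.1, Function.update_of_ne hg.2]
  exact hc

theorem Dp_le_rho {n q M : ℕ} (s : ℕ) (i : Fin n) (c0 : Fin q) (G : Fin M → Ed n) (e : Ed n)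
    (he : tc i e) :
    Dp (q := q) s i G e ≤ rho s i c0 (Base i G) ∅ - rho s i c0 (Base i G) ({oth i e} ∪ Nb i G) := by
  unfold Dp rho
  rw [← E_sub]
  refine E_mono fun W => ?_
  rw [← Finset.sum_sub_distrib]
  refine Finset.sum_le_sum fun u _ => ?_
  apply sub_le_sub
  · apply ind_mono
    rintro ⟨hN, σ, hσ, hp⟩
    refine ⟨hN, σ, fun j _ => hσ j, hp, ?_⟩
    intro w hw
    simp at hw
  · apply ind_mono
    rintro ⟨hN, σ, hσ, hp, hc⟩
    refine ⟨hN, Function.update σ i c0, ⟨?_, ?_⟩, ?_⟩
    · intro j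
      by_cases hj : tc i (G j)
      · apply dr_touch i c0 σ (G j) hj
        apply hc _ _ (dr_oth_ne i _ hj)
        rw [mem_union]
        right
        exact (dr_mem_Nb i G _).2 ⟨j, hj, rfl⟩
      · exact dr_notouch i c0 σ (G j) hj (hσ j hj)
    · apply dr_touch i c0 σ e he
      apply hc _ _ (dr_oth_ne i _ he)
      rw [mem_union]
      left
      simp
    · intro l hl
      exact dr_notouch i c0 σ (W l) (hN l hl) (hp l hl)

end Pool.Agent.H320R2.CT
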