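import Pool.Agent.H999R2.KSat.Defs

/-!
# Random graph colouring: definitions

Edges are ordered pairs of distinct vertices; `m` independent uniform edges.
`E` (average over a finite type) and `ind` (indicator) are those of `H999R2.KSat.Defs`.
-/

set_option autoImplicit false

namespace Pool.Agent.H320R2.CT

open Finset Pool.Agent.H999R2.KSat

/-- ordered pairs of distinct vertices -/
abbrev Ed (n : ℕ) := {e : Fin n × Fin n // e.1 ≠ e.2}
/-- colourings -/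
abbrev Co (n q : ℕ) := Fin n → Fin q

/-- `σ` is proper on the edge `e` -/
def pr {n q : ℕ} (σ : Co n q) (e : Ed n) : Prop := σ e.1.1 ≠ σ e.1.2

/-- the set of colourings proper on all edges of `F` -/
def SolC {n q m : ℕ} (F : Fin m → Ed n) : Set (Co n q) := {σ | ∀ j, pr σ (F j)}

/-- probability that `m` independent uniform edges on `n` vertices form a `q`-colourable graph -/
noncomputable def pc (n q m : ℕ) : ℝ :=
  E (fun F : Fin m → Ed n => ind ((SolC F : Set (Co n q)).Nonempty))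

/-- the smoothed survival functional with `s` probing edges -/
noncomputable def RC {n q : ℕ} (s : ℕ) (A : Set (Co n q)) : ℝ :=
  E (fun W : Fin s → Ed n =>
    ∑ u ∈ range s, ind (∃ σ ∈ A, ∀ l : Fin s, l.val < u → pr σ (W l)))

/-- the edge `e` touches the vertex `i` -/
def tc {n : ℕ} (i : Fin n) (e : Ed n) : Prop := e.1.1 = i ∨ e.1.2 = i

/-- the endpoint of `e` different from `i` (if `e` touches `i`) -/
def oth {n : ℕ} (i : Fin n) (e : Ed n) : Fin n := if e.1.1 = i then e.1.2 else e.1.1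

/-- survival functional of `B` and the unary constraints `σ w ≠ c0` (`w ∈ S`, `w ≠ i`), counting
only the times `u` at which no probe has touched the vertex `i` -/
noncomputable def rho {n q : ℕ} (s : ℕ) (i : Fin n) (c0 : Fin q) (B : Set (Co n q))
    (S : Finset (Fin n)) : ℝ :=
  E (fun W : Fin s → Ed n =>
    ∑ u ∈ range s, ind ((∀ l : Fin s, l.val < u → ¬ tc i (W l)) ∧
      ∃ σ ∈ B, (∀ l : Fin s, l.val < u → pr σ (W l)) ∧ ∀ w ∈ S, w ≠ i → σ w ≠ c0))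

/-- `B` is invariant under permutations of the colours -/
def SymC {n q : ℕ} (B : Set (Co n q)) : Prop :=
  ∀ π : Equiv.Perm (Fin q), ∀ σ ∈ B, (fun w => π (σ w)) ∈ B

/-- `B` does not constrain the colour of `i` -/
def FreeAt {n q : ℕ} (i : Fin n) (B : Set (Co n q)) : Prop :=
  ∀ σ ∈ B, ∀ c : Fin q, Function.update σ i c ∈ B

/-- colourings proper on the edges of `G` that avoid `i` -/
def Base {n q M : ℕ} (i : Fin n) (G : Fin M → Ed n) : Set (Co n q) :=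
  {σ | ∀ j, ¬ tc i (G j) → pr σ (G j)}

open Classical in
/-- the neighbours of `i` in `G` -/
noncomputable def Nb {n M : ℕ} (i : Fin n) (G : Fin M → Ed n) : Finset (Fin n) :=
  univ.filter (fun w => ∃ j, tc i (G j) ∧ w = oth i (G j))

/-- the part of the effect of `e` seen when no probe has touched `i` -/
noncomputable def Dp {n q M : ℕ} (s : ℕ) (i : Fin n) (G : Fin M → Ed n) (e : Ed n) : ℝ :=
  E (fun W : Fin s → Ed n =>
    ∑ u ∈ range s, (ind ((∀ l : Fin s, l.val < u → ¬ tc i (W l)) ∧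
        ∃ σ ∈ (SolC G : Set (Co n q)), ∀ l : Fin s, l.val < u → pr σ (W l)) -
      ind ((∀ l : Fin s, l.val < u → ¬ tc i (W l)) ∧
        ∃ σ ∈ (SolC G : Set (Co n q)) ∩ {σ | pr σ e}, ∀ l : Fin s, l.val < u → pr σ (W l))))

/-- the number of pairs (two classes), vertices are classified by the colours: loops kill -/
noncomputable def p0 (n q m : ℕ) : ℝ :=
  E (fun F : Fin m → Fin n × Fin n =>
    ind (∃ σ : Co n q, ∀ j, σ (F j).1 ≠ σ (F j).2))

/-- survival probability of the set `A` under `m` uniform ordered pairs (loops kill) -/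
noncomputable def sv0 {n q : ℕ} (m : ℕ) (A : Set (Co n q)) : ℝ :=
  E (fun F : Fin m → Fin n × Fin n => ind (∃ σ ∈ A, ∀ j, σ (F j).1 ≠ σ (F j).2))

/-- product set -/
def rectC {N1 N2 q : ℕ} (A1 : Set (Co N1 q)) (A2 : Set (Co N2 q)) : Set (Co (N1 + N2) q) :=
  {a | (fun i => a (Fin.castAdd N2 i)) ∈ A1 ∧ (fun i => a (Fin.natAdd N1 i)) ∈ A2}

/-- the properties of `p n m = pc n q m` used in the convergence argument -/
structure HypC (p : ℕ → ℕ → ℝ) : Prop where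
  h0 : ∀ n : ℕ, 2 ≤ n → p n 0 = 1
  hnn : ∀ n m : ℕ, 0 ≤ p n m
  hanti : ∀ n m : ℕ, p n (m + 1) ≤ p n m
  hfm : ∃ n1 : ℕ, ∃ K r : ℝ, 0 ≤ r ∧ r < 1 ∧ 1 ≤ K ∧ ∀ n m : ℕ, n1 ≤ n → p n m ≤ K ^ n * r ^ m
  hsharp : ∀ Λ : ℝ, ∃ C : ℝ, 0 < C ∧ ∀ n m s : ℕ, 2 ≤ n → 1 ≤ s → s ≤ n →
      (m : ℝ) + s ≤ Λ * n →
      (1 - p n m) * p n (m + s) ^ 2 ≤ C * (n * (s : ℝ) ^ (-(9 / 8) : ℝ) + s / n)
  hone : ∀ Λ : ℝ, ∃ c : ℝ, 0 < c ∧ ∀ n m : ℕ, 2 ≤ n → (m : ℝ) ≤ Λ * n →
      c * p n m ≤ p (n + 1) m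
  htwo : ∀ Λ : ℝ, ∃ c : ℝ, 0 < c ∧ ∀ (N1 N2 m m1 m2 : ℕ) (d : ℝ), 2 ≤ N1 → 2 ≤ N2 → 0 ≤ d →
      4 * (m : ℝ) ≤ d ^ 2 → (m1 : ℝ) ≤ Λ * N1 → (m2 : ℝ) ≤ Λ * N2 →
      m * (N1 : ℝ) / (N1 + N2) + d ≤ m1 → m * (N2 : ℝ) / (N1 + N2) + d ≤ m2 →
      c * p N1 m1 * p N2 m2 ≤ p (N1 + N2) m

end Pool.Agent.H320R2.CT
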