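import Pool.Agent.H320R2.CT.SA
import Pool.Agent.H224R2.CT.Conv
import Pool.Agent.H545R3.CT.TF

/-! The `k`-colourability threshold of the random graph exists (assembly). -/

set_option autoImplicit false

namespace Pool.Agent.H320R2.CT

open Finset Filter Pool.Agent.H999R2.KSat

theorem pc_eq (q n m : ℕ) : Pool.Agent.H224R2.CT.pc q n m = pc n q m := by
  unfold Pool.Agent.H224R2.CT.pc pc
  refine E_congr fun F => ind_congr ?_
  rfl

/-- The threshold in the model of independent uniform edges. -/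
theorem threshold (q : ℕ) (hq : 3 ≤ q) :
    ∃ rs : ℝ, (∀ r, r < rs → Tendsto (fun n : ℕ => pc n q ⌊r * (n : ℝ)⌋₊) atTop (nhds 1)) ∧
      (∀ r, rs < r → Tendsto (fun n : ℕ => pc n q ⌊r * (n : ℝ)⌋₊) atTop (nhds 0)) := by
  obtain ⟨rs, h1, h0⟩ := Pool.Agent.H224R2.CT.col_convergence q (by omega) (by
    intro Λ
    obtain ⟨C, hC, h⟩ := sharpC q hq Λ
    refine ⟨C, hC, fun n m s hn hs hsn hm => ?_⟩
    rw [pc_eq, pc_eq]
    exact h n m s hn hs hsn hm)
  refine ⟨rs, fun r hr => ?_, fun r hr => ?_⟩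
  · simpa [pc_eq] using h1 r hr
  · simpa [pc_eq] using h0 r hr

/-- **The `k`-colourability threshold exists for every `k ≥ 3`.** -/
theorem main :
    ∀ k : ℕ, 3 ≤ k → ∃ c : ℝ, ∀ ε : ℝ, 0 < ε →
      Filter.Tendsto
        (fun n : ℕ =>
          (Nat.card {G : SimpleGraph (Fin n) //
              G.edgeSet.ncard = ⌊(c - ε) * (n : ℝ)⌋₊ ∧ G.Colorable k} : ℝ) /
          (Nat.card {G : SimpleGraph (Fin n) //
              G.edgeSet.ncard = ⌊(c - ε) * (n : ℝ)⌋₊} : ℝ))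
        Filter.atTop (nhds 1) ∧
      Filter.Tendsto
        (fun n : ℕ =>
          (Nat.card {G : SimpleGraph (Fin n) //
              G.edgeSet.ncard = ⌊(c + ε) * (n : ℝ)⌋₊ ∧ G.Colorable k} : ℝ) /
          (Nat.card {G : SimpleGraph (Fin n) //
              G.edgeSet.ncard = ⌊(c + ε) * (n : ℝ)⌋₊} : ℝ))
        Filter.atTop (nhds 0) := by
  intro k hk
  obtain ⟨rs, h1, h0⟩ := threshold k hk
  exact ⟨rs, Pool.Agent.H545R3.CT.transfer k rs h1 h0⟩

end Pool.Agent.H320R2.CT
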