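import Pool.Agent.H320R2.CT.Defs

/-! Task RM: elementary facts about `rho` -/

set_option autoImplicit false

namespace Pool.Agent.H320R2.CT

open Finset Pool.Agent.H999R2.KSat

theorem rho_nonneg {n q : ℕ} (s : ℕ) (i : Fin n) (c0 : Fin q) (B : Set (Co n q))
    (S : Finset (Fin n)) : 0 ≤ rho s i c0 B S := by
  unfold rho
  exact E_nonneg fun W => Finset.sum_nonneg fun u _ => ind_nonneg _

theorem rho_mono {n q : ℕ} (s : ℕ) (i : Fin n) (c0 : Fin q) (B : Set (Co n q))
    (S T : Finset (Fin n)) (h : S ⊆ T) : rho s i c0 B T ≤ rho s i c0 B S := by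
  unfold rho
  refine E_mono fun W => Finset.sum_le_sum fun u _ => ind_mono ?_
  rintro ⟨h1, σ, hσ, h2, h3⟩
  exact ⟨h1, σ, hσ, h2, fun w hw => h3 w (h hw)⟩

/-- colour symmetry: fewer than `q` vertices can avoid one colour for free -/
theorem rho_small {n q : ℕ} (s : ℕ) (i : Fin n) (c0 : Fin q) (B : Set (Co n q)) (hq : 3 ≤ q)
    (hB : SymC B) (S : Finset (Fin n)) (hS : S.card ≤ 2) : rho s i c0 B S = rho s i c0 B ∅ := by
  apply le_antisymm (rho_mono s i c0 B ∅ S (Finset.empty_subset S))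
  unfold rho
  refine E_mono fun W => Finset.sum_le_sum fun u _ => ind_mono ?_
  rintro ⟨h1, σ, hσ, h2, -⟩
  refine ⟨h1, ?_⟩
  obtain ⟨c1, hc1⟩ : ∃ c1, c1 ∉ S.image σ := by
    by_contra hcon
    push Not at hcon
    have h3 : (univ : Finset (Fin q)) ⊆ S.image σ := fun c _ => hcon c
    have h4 := (Finset.card_le_card h3).trans Finset.card_image_le
    rw [Finset.card_univ, Fintype.card_fin] at h4
    omega
  refine ⟨fun w => Equiv.swap c0 c1 (σ w), hB (Equiv.swap c0 c1) σ hσ, fun l hl h => ?_,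
    fun w hw _ h => ?_⟩
  · exact h2 l hl ((Equiv.swap c0 c1).injective h)
  · have h5 : σ w = c1 := by
      have h6 := congrArg (Equiv.swap c0 c1) h
      rw [Equiv.swap_apply_self, Equiv.swap_apply_left] at h6
      exact h6
    exact hc1 (h5 ▸ Finset.mem_image_of_mem σ hw)

end Pool.Agent.H320R2.CT
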