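import Pool.Agent.H320R2.CT.Defs

/-! One random unary constraint costs at most `sqrt (3 s)`. -/

set_option autoImplicit false

namespace Pool.Agent.H320R2.CT

open Finset Filter Pool.Agent.H999R2.KSat

/-- surviving colourings at time `u` -/
def ru_Q {n q s : ℕ} (i : Fin n) (c0 : Fin q) (B : Set (Co n q)) (S : Finset (Fin n))
    (W : Fin s → Ed n) (u : ℕ) : Set (Co n q) :=
  {σ | σ ∈ B ∧ (∀ l : Fin s, l.val < u → pr σ (W l)) ∧ ∀ w ∈ S, w ≠ i → σ w ≠ c0}

/-- alive at time `u` -/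
def ru_A {n q s : ℕ} (i : Fin n) (c0 : Fin q) (B : Set (Co n q)) (S : Finset (Fin n))
    (W : Fin s → Ed n) (u : ℕ) : Prop :=
  (∀ l : Fin s, l.val < u → ¬ tc i (W l)) ∧ (ru_Q i c0 B S W u).Nonempty

/-- frozen to the colour `c0` -/
def ru_fr {n q : ℕ} (i : Fin n) (c0 : Fin q) (Q : Set (Co n q)) (v : Fin n) : Prop :=
  v ≠ i ∧ ∀ σ ∈ Q, σ v = c0

/-- kill probability -/
noncomputable def ru_kill {n q : ℕ} (i : Fin n) (c0 : Fin q) (Q : Set (Co n q)) : ℝ :=
  E (fun e : Ed n => ind (ru_fr i c0 Q e.1.1 ∧ ru_fr i c0 Q e.1.2))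

/-- frozen fraction -/
noncomputable def ru_f {n q : ℕ} (i : Fin n) (c0 : Fin q) (Q : Set (Co n q)) : ℝ :=
  E (fun v : Fin n => ind (ru_fr i c0 Q v))

theorem ru_rho {n q : ℕ} (s : ℕ) (i : Fin n) (c0 : Fin q) (B : Set (Co n q))
    (S : Finset (Fin n)) :
    rho s i c0 B S = E (fun W : Fin s → Ed n => ∑ u ∈ range s, ind (ru_A i c0 B S W u)) := by
  unfold rho
  refine E_congr fun W => Finset.sum_congr rfl fun u _ => ind_congr ?_
  constructor
  · rintro ⟨h1, σ, h2, h3, h4⟩
    exact ⟨h1, σ, h2, h3, h4⟩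
  · rintro ⟨h1, σ, h2, h3, h4⟩
    exact ⟨h1, σ, h2, h3, h4⟩

theorem ru_point {n q s : ℕ} (i : Fin n) (c0 : Fin q) (B : Set (Co n q)) (S : Finset (Fin n))
    (W : Fin s → Ed n) (u : ℕ) (v : Fin n) :
    ind (ru_A i c0 B S W u) - ind (ru_A i c0 B (insert v S) W u) ≤
      ind (ru_A i c0 B S W u) * ind (ru_fr i c0 (ru_Q i c0 B S W u) v) := by
  by_cases hA : ru_A i c0 B S W u
  · by_cases hf : ru_fr i c0 (ru_Q i c0 B S W u) v
    · rw [ind_true hA, ind_true hf]
      have := ind_nonneg (ru_A i c0 B (insert v S) W u)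
      linarith
    · have hA' : ru_A i c0 B (insert v S) W u := by
        refine ⟨hA.1, ?_⟩
        unfold ru_fr at hf
        by_cases hv : v = i
        · obtain ⟨σ, h1, h2, h3⟩ := hA.2
          refine ⟨σ, h1, h2, fun w hw hwi => ?_⟩
          rcases Finset.mem_insert.mp hw with h | h
          · exact absurd (h.trans hv) hwi
          · exact h3 w h hwi
        · push Not at hf
          obtain ⟨σ, ⟨h1, h2, h3⟩, h4⟩ := hf hv
          refine ⟨σ, h1, h2, fun w hw hwi => ?_⟩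
          rcases Finset.mem_insert.mp hw with h | h
          · rw [h]; exact h4
          · exact h3 w h hwi
      rw [ind_true hA, ind_true hA', ind_false hf]
      norm_num
  · rw [ind_false hA]
    have := ind_nonneg (ru_A i c0 B (insert v S) W u)
    linarith

theorem ru_Q_update {n q s : ℕ} (i : Fin n) (c0 : Fin q) (B : Set (Co n q)) (S : Finset (Fin n))
    (W : Fin s → Ed n) (u : Fin s) (y : Ed n) :
    ru_Q i c0 B S (Function.update W u y) u.val = ru_Q i c0 B S W u.val := by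
  have h : ∀ l : Fin s, l.val < u.val → Function.update W u y l = W l := by
    intro l hl
    exact Function.update_of_ne (by intro h; rw [h] at hl; exact lt_irrefl _ hl) _ _
  ext σ
  constructor
  · rintro ⟨h1, h2, h3⟩
    exact ⟨h1, fun l hl => by have := h2 l hl; rwa [h l hl] at this, h3⟩
  · rintro ⟨h1, h2, h3⟩
    exact ⟨h1, fun l hl => by rw [h l hl]; exact h2 l hl, h3⟩

theorem ru_A_update {n q s : ℕ} (i : Fin n) (c0 : Fin q) (B : Set (Co n q)) (S : Finset (Fin n))
    (W : Fin s → Ed n) (u : Fin s) (y : Ed n) :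
    ru_A i c0 B S (Function.update W u y) u.val ↔ ru_A i c0 B S W u.val := by
  have h : ∀ l : Fin s, l.val < u.val → Function.update W u y l = W l := by
    intro l hl
    exact Function.update_of_ne (by intro h; rw [h] at hl; exact lt_irrefl _ hl) _ _
  unfold ru_A
  rw [ru_Q_update]
  constructor
  · rintro ⟨h1, h2⟩
    exact ⟨fun l hl => by have := h1 l hl; rwa [h l hl] at this, h2⟩
  · rintro ⟨h1, h2⟩
    exact ⟨fun l hl => by rw [h l hl]; exact h1 l hl, h2⟩

/-- one step of the telescope -/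
theorem ru_step_point {n q s : ℕ} (i : Fin n) (c0 : Fin q) (B : Set (Co n q))
    (S : Finset (Fin n)) (W : Fin s → Ed n) (u : Fin s) :
    ind (ru_A i c0 B S W u.val) *
        ind (ru_fr i c0 (ru_Q i c0 B S W u.val) (W u).1.1 ∧
          ru_fr i c0 (ru_Q i c0 B S W u.val) (W u).1.2) ≤
      ind (ru_A i c0 B S W u.val) - ind (ru_A i c0 B S W (u.val + 1)) := by
  by_cases hA' : ru_A i c0 B S W (u.val + 1)
  · obtain ⟨h1, σ, h2, h3, h4⟩ := hA'
    have hQ : σ ∈ ru_Q i c0 B S W u.val := ⟨h2, fun l hl => h3 l (by omega), h4⟩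
    have hA : ru_A i c0 B S W u.val := ⟨fun l hl => h1 l (by omega), σ, hQ⟩
    have hf : ¬ (ru_fr i c0 (ru_Q i c0 B S W u.val) (W u).1.1 ∧
          ru_fr i c0 (ru_Q i c0 B S W u.val) (W u).1.2) := by
      rintro ⟨⟨_, ha⟩, ⟨_, hb⟩⟩
      have hp : pr σ (W u) := h3 u (by omega)
      exact hp ((ha σ hQ).trans (hb σ hQ).symm)
    rw [ind_true hA, ind_false hf, ind_true ⟨h1, σ, h2, h3, h4⟩]
    norm_num
  · rw [ind_false hA']
    have h1 := ind_nonneg (ru_A i c0 B S W u.val)
    have h2 := ind_le_one (ru_fr i c0 (ru_Q i c0 B S W u.val) (W u).1.1 ∧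
          ru_fr i c0 (ru_Q i c0 B S W u.val) (W u).1.2)
    nlinarith

theorem ru_step {n q s : ℕ} (i : Fin n) (c0 : Fin q) (B : Set (Co n q))
    (S : Finset (Fin n)) (u : Fin s) :
    E (fun W : Fin s → Ed n => ind (ru_A i c0 B S W u.val) *
      ru_kill i c0 (ru_Q i c0 B S W u.val)) ≤
      E (fun W : Fin s → Ed n => ind (ru_A i c0 B S W u.val)) -
      E (fun W : Fin s → Ed n => ind (ru_A i c0 B S W (u.val + 1))) := by
  rw [← E_sub]
  refine le_trans (le_of_eq ?_) (E_mono fun W => ru_step_point i c0 B S W u)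
  rw [E_update u (fun W : Fin s → Ed n => ind (ru_A i c0 B S W u.val) *
        ind (ru_fr i c0 (ru_Q i c0 B S W u.val) (W u).1.1 ∧
          ru_fr i c0 (ru_Q i c0 B S W u.val) (W u).1.2))]
  refine E_congr fun W => ?_
  unfold ru_kill
  rw [← E_mul_left]
  refine E_congr fun y => ?_
  rw [ru_Q_update, Function.update_self, ind_congr (ru_A_update i c0 B S W u y)]

theorem ru_telescope {n q : ℕ} (s : ℕ) (i : Fin n) (c0 : Fin q) (B : Set (Co n q))
    (S : Finset (Fin n)) :
    ∑ u ∈ range s, E (fun W : Fin s → Ed n => ind (ru_A i c0 B S W u) *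
      ru_kill i c0 (ru_Q i c0 B S W u)) ≤ 1 := by
  have h1 : ∀ u ∈ range s, E (fun W : Fin s → Ed n => ind (ru_A i c0 B S W u) *
      ru_kill i c0 (ru_Q i c0 B S W u)) ≤
      E (fun W : Fin s → Ed n => ind (ru_A i c0 B S W u)) -
      E (fun W : Fin s → Ed n => ind (ru_A i c0 B S W (u + 1))) := by
    intro u hu
    exact ru_step i c0 B S ⟨u, Finset.mem_range.mp hu⟩
  refine (Finset.sum_le_sum h1).trans ?_
  rw [Finset.sum_range_sub' (fun u => E (fun W : Fin s → Ed n => ind (ru_A i c0 B S W u))) s]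
  have h2 : E (fun W : Fin s → Ed n => ind (ru_A i c0 B S W 0)) ≤ 1 :=
    E_le_of_nonneg (by norm_num) fun _ => ind_le_one _
  have h3 : 0 ≤ E (fun W : Fin s → Ed n => ind (ru_A i c0 B S W s)) :=
    E_nonneg fun _ => ind_nonneg _
  linarith

theorem ru_sum_edges {n : ℕ} (g : Fin n → Fin n → ℝ) :
    ∑ e : Ed n, g e.1.1 e.1.2 = ∑ v, ∑ w, g v w - ∑ v, g v v := by
  classical
  have h1 : ∑ e : Ed n, g e.1.1 e.1.2 =
      ∑ x : Fin n × Fin n, if x.1 ≠ x.2 then g x.1 x.2 else 0 := by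
    rw [← Finset.sum_filter]
    exact (Finset.sum_subtype (univ.filter (fun x : Fin n × Fin n => x.1 ≠ x.2))
      (p := fun x : Fin n × Fin n => x.1 ≠ x.2) (by intro x; simp)
      (fun x => g x.1 x.2)).symm
  rw [h1, Fintype.sum_prod_type, ← Finset.sum_sub_distrib]
  refine Finset.sum_congr rfl fun v _ => ?_
  have h2 : ∀ w, (if (v, w).1 ≠ (v, w).2 then g (v, w).1 (v, w).2 else 0) =
      g v w - if v = w then g v w else 0 := by
    intro w
    by_cases h : v = w
    · simp [h]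
    · simp [h]
  simp_rw [h2]
  rw [Finset.sum_sub_distrib]
  simp

theorem ru_card_le {n : ℕ} : (Fintype.card (Ed n) : ℝ) ≤ (n : ℝ) ^ 2 := by
  have : Fintype.card (Ed n) ≤ Fintype.card (Fin n × Fin n) := Fintype.card_subtype_le _
  rw [Fintype.card_prod, Fintype.card_fin] at this
  have h : (Fintype.card (Ed n) : ℝ) ≤ ((n * n : ℕ) : ℝ) := by exact_mod_cast this
  rw [pow_two]
  exact_mod_cast h

theorem ru_card_pos {n : ℕ} (hn : 2 ≤ n) : (0 : ℝ) < Fintype.card (Ed n) := by
  have : 0 < Fintype.card (Ed n) := by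
    rw [Fintype.card_pos_iff]
    refine ⟨⟨(⟨0, by omega⟩, ⟨1, by omega⟩), ?_⟩⟩
    intro h
    have := congrArg Fin.val h
    simp at this
  exact_mod_cast this

theorem ru_f_sq {n q : ℕ} (hn : 2 ≤ n) (i : Fin n) (c0 : Fin q) (Q : Set (Co n q)) :
    ru_f i c0 Q ^ 2 ≤ 2 * ru_kill i c0 Q + 1 / (n : ℝ) ^ 2 := by
  have hn0 : (0 : ℝ) < n := by positivity
  set g : Fin n → ℝ := fun v => ind (ru_fr i c0 Q v) with hg
  have hkill : ru_kill i c0 Q = ((∑ v, g v) ^ 2 - ∑ v, g v) / Fintype.card (Ed n) := by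
    unfold ru_kill E
    congr 1
    have h1 : ∀ e : Ed n, ind (ru_fr i c0 Q e.1.1 ∧ ru_fr i c0 Q e.1.2) =
        g e.1.1 * g e.1.2 := fun e => ind_and _ _
    rw [Finset.sum_congr rfl (fun e _ => h1 e), ru_sum_edges (fun v w => g v * g w), pow_two,
      Finset.sum_mul_sum]
    congr 1
    refine Finset.sum_congr rfl fun v _ => ind_sq _
  have hf : ru_f i c0 Q = (∑ v, g v) / n := by
    unfold ru_f E
    rw [Fintype.card_fin]
  -- the sum is a natural number
  obtain ⟨k, hk⟩ : ∃ k : ℕ, ∑ v, g v = k := by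
    classical
    refine ⟨(univ.filter (fun v => ru_fr i c0 Q v)).card, ?_⟩
    rw [Finset.card_filter]
    push_cast
    refine Finset.sum_congr rfl fun v _ => ?_
    by_cases h : ru_fr i c0 Q v
    · rw [hg]; simp only; rw [ind_true h, if_pos h]
    · rw [hg]; simp only; rw [ind_false h, if_neg h]
  rw [hkill, hf, hk]
  have hk0 : (0 : ℝ) ≤ (k : ℝ) ^ 2 - k := by
    rcases Nat.eq_zero_or_pos k with h | h
    · subst h; norm_num
    · have : (1 : ℝ) ≤ k := by exact_mod_cast h
      nlinarith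
  have h1 : ((k : ℝ) ^ 2 - k) / (n : ℝ) ^ 2 ≤ ((k : ℝ) ^ 2 - k) / Fintype.card (Ed n) :=
    div_le_div_of_nonneg_left hk0 (ru_card_pos hn) ru_card_le
  have h2 : ((k : ℝ) / n) ^ 2 ≤ 2 * (((k : ℝ) ^ 2 - k) / (n : ℝ) ^ 2) + 1 / (n : ℝ) ^ 2 := by
    rw [div_pow, ← mul_div_assoc, ← add_div]
    apply div_le_div_of_nonneg_right _ (by positivity)
    nlinarith [sq_nonneg ((k : ℝ) - 1)]
  linarith

/-- one random unary constraint costs at most `sqrt (3 s)` -/
theorem rho_step {n q : ℕ} (s : ℕ) (hn : 2 ≤ n) (hs : s ≤ n) (i : Fin n) (c0 : Fin q)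
    (B : Set (Co n q)) (S : Finset (Fin n)) :
    E (fun v : Fin n => rho s i c0 B S - rho s i c0 B (insert v S)) ≤ Real.sqrt (3 * s) := by
  have hn0 : (0 : ℝ) < n := by positivity
  have hne : Nonempty (Fin n) := ⟨i⟩
  have hneE : Nonempty (Ed n) := by
    have := ru_card_pos hn
    rw [← Fintype.card_pos_iff]
    exact_mod_cast this
  -- Step 1
  have h1 : E (fun v : Fin n => rho s i c0 B S - rho s i c0 B (insert v S)) ≤
      ∑ u ∈ range s, E (fun W : Fin s → Ed n => ind (ru_A i c0 B S W u) *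
        ru_f i c0 (ru_Q i c0 B S W u)) := by
    calc E (fun v : Fin n => rho s i c0 B S - rho s i c0 B (insert v S))
        ≤ E (fun v : Fin n => E (fun W : Fin s → Ed n => ∑ u ∈ range s,
            ind (ru_A i c0 B S W u) * ind (ru_fr i c0 (ru_Q i c0 B S W u) v))) := by
          refine E_mono fun v => ?_
          rw [ru_rho, ru_rho, ← E_sub]
          refine E_mono fun W => ?_
          rw [← Finset.sum_sub_distrib]
          exact Finset.sum_le_sum fun u _ => ru_point i c0 B S W u v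
      _ = ∑ u ∈ range s, E (fun W : Fin s → Ed n => ind (ru_A i c0 B S W u) *
            ru_f i c0 (ru_Q i c0 B S W u)) := by
          rw [E_comm, ← E_sum]
          refine E_congr fun W => ?_
          rw [E_sum]
          refine Finset.sum_congr rfl fun u _ => ?_
          unfold ru_f
          rw [← E_mul_left]
  -- Step 2
  have h2 : ∑ u ∈ range s, (E (fun W : Fin s → Ed n => ind (ru_A i c0 B S W u) *
        ru_f i c0 (ru_Q i c0 B S W u))) ^ 2 ≤ 3 := by
    have h3 : ∀ u ∈ range s, (E (fun W : Fin s → Ed n => ind (ru_A i c0 B S W u) *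
        ru_f i c0 (ru_Q i c0 B S W u))) ^ 2 ≤
        2 * E (fun W : Fin s → Ed n => ind (ru_A i c0 B S W u) *
          ru_kill i c0 (ru_Q i c0 B S W u)) + 1 / (n : ℝ) ^ 2 := by
      intro u _
      refine (sq_E_le _).trans ?_
      have h4 : ∀ W : Fin s → Ed n, (ind (ru_A i c0 B S W u) *
          ru_f i c0 (ru_Q i c0 B S W u)) ^ 2 ≤ 2 * (ind (ru_A i c0 B S W u) *
          ru_kill i c0 (ru_Q i c0 B S W u)) + 1 / (n : ℝ) ^ 2 := by
        intro W
        have h5 := ru_f_sq hn i c0 (ru_Q i c0 B S W u)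
        by_cases hA : ru_A i c0 B S W u
        · rw [ind_true hA, one_mul, one_mul]
          exact h5
        · rw [ind_false hA]
          have : (0 : ℝ) ≤ 1 / (n : ℝ) ^ 2 := by positivity
          simpa using this
      refine (E_mono h4).trans ?_
      rw [E_add, E_mul_left, E_const]
    refine (Finset.sum_le_sum h3).trans ?_
    rw [Finset.sum_add_distrib, ← Finset.mul_sum, Finset.sum_const, card_range, nsmul_eq_mul]
    have h6 := ru_telescope s i c0 B S
    have h7 : (s : ℝ) * (1 / (n : ℝ) ^ 2) ≤ 1 := by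
      have hsn : (s : ℝ) ≤ n := by exact_mod_cast hs
      have hn1 : (1 : ℝ) ≤ n := by
        have : 1 ≤ n := by omega
        exact_mod_cast this
      rw [mul_one_div, div_le_one (by positivity)]
      nlinarith
    linarith
  refine h1.trans ?_
  apply Real.le_sqrt_of_sq_le
  have h8 := sq_sum_le_card_mul_sum_sq (s := range s) (f := fun u =>
    E (fun W : Fin s → Ed n => ind (ru_A i c0 B S W u) * ru_f i c0 (ru_Q i c0 B S W u)))
  rw [card_range] at h8
  refine h8.trans ?_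
  have hs0 : (0 : ℝ) ≤ s := Nat.cast_nonneg s
  nlinarith

end Pool.Agent.H320R2.CT
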