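import Pool.Agent.H320R2.CT.Main

/-!
# Polynomial rates for the `k`-colourability threshold
-/

set_option autoImplicit false

namespace Pool.Agent.H320R2.CT.Rate

open Finset Filter Pool.Agent.H999R2.KSat
open Pool.Agent.H224R2.CT (win win_pos win_le_rpow win_le win_ge)

/-- the colouring probability as a function of `n`, `m` -/
noncomputable def p (q n m : ℕ) : ℝ := Pool.Agent.H224R2.CT.pc q n m

theorem err_le (n : ℕ) (hn : 1 ≤ n) :
    (n : ℝ) * (win n : ℝ) ^ (-(9 / 8) : ℝ) + (win n : ℝ) / n ≤ 5 * (n : ℝ) ^ (-(1 / 18) : ℝ) := by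
  have hn1 : (1 : ℝ) ≤ n := by exact_mod_cast hn
  have hn0 : (0 : ℝ) < n := by linarith
  have hA : 0 < (n : ℝ) ^ ((17 : ℝ) / 18) / 2 := by positivity
  have a1 : (n : ℝ) * (win n : ℝ) ^ (-(9 / 8) : ℝ) ≤ 4 * (n : ℝ) ^ (-(1 / 18) : ℝ) := by
    have e1 : (win n : ℝ) ^ (-(9 / 8) : ℝ) ≤ ((n : ℝ) ^ ((17 : ℝ) / 18) / 2) ^ (-(9 / 8) : ℝ) :=
      Real.rpow_le_rpow_of_nonpos hA (win_ge n hn) (by norm_num)
    have e2 : ((n : ℝ) ^ ((17 : ℝ) / 18) / 2) ^ (-(9 / 8) : ℝ) =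
        (2 : ℝ) ^ ((9 : ℝ) / 8) * (n : ℝ) ^ (-(17 / 16) : ℝ) := by
      rw [Real.div_rpow (by positivity) (by norm_num), ← Real.rpow_mul hn0.le,
        Real.rpow_neg (by norm_num : (0 : ℝ) ≤ 2), div_inv_eq_mul, mul_comm]
      norm_num
    have e3 : (n : ℝ) * ((2 : ℝ) ^ ((9 : ℝ) / 8) * (n : ℝ) ^ (-(17 / 16) : ℝ)) =
        (2 : ℝ) ^ ((9 : ℝ) / 8) * (n : ℝ) ^ (-(1 / 16) : ℝ) := by
      have : (n : ℝ) * (n : ℝ) ^ (-(17 / 16) : ℝ) = (n : ℝ) ^ (-(1 / 16) : ℝ) := by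
        calc (n : ℝ) * (n : ℝ) ^ (-(17 / 16) : ℝ)
            = (n : ℝ) ^ (1 : ℝ) * (n : ℝ) ^ (-(17 / 16) : ℝ) := by rw [Real.rpow_one]
          _ = _ := by rw [← Real.rpow_add hn0]; norm_num
      rw [← this]; ring
    have e4 : (2 : ℝ) ^ ((9 : ℝ) / 8) ≤ 4 := by
      calc (2 : ℝ) ^ ((9 : ℝ) / 8) ≤ (2 : ℝ) ^ (2 : ℝ) :=
            Real.rpow_le_rpow_of_exponent_le (by norm_num) (by norm_num)
        _ = 4 := by norm_num
    have e5 : (n : ℝ) ^ (-(1 / 16) : ℝ) ≤ (n : ℝ) ^ (-(1 / 18) : ℝ) :=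
      Real.rpow_le_rpow_of_exponent_le hn1 (by norm_num)
    calc (n : ℝ) * (win n : ℝ) ^ (-(9 / 8) : ℝ)
        ≤ n * ((2 : ℝ) ^ ((9 : ℝ) / 8) * (n : ℝ) ^ (-(17 / 16) : ℝ)) := by
          rw [← e2]; exact mul_le_mul_of_nonneg_left e1 hn0.le
      _ = (2 : ℝ) ^ ((9 : ℝ) / 8) * (n : ℝ) ^ (-(1 / 16) : ℝ) := e3
      _ ≤ 4 * (n : ℝ) ^ (-(1 / 18) : ℝ) := mul_le_mul e4 e5 (by positivity) (by norm_num)
  have a2 : (win n : ℝ) / n ≤ (n : ℝ) ^ (-(1 / 18) : ℝ) := by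
    calc (win n : ℝ) / n ≤ (n : ℝ) ^ ((17 : ℝ) / 18) / n :=
          div_le_div_of_nonneg_right (win_le_rpow n) hn0.le
      _ = (n : ℝ) ^ ((17 : ℝ) / 18) / (n : ℝ) ^ (1 : ℝ) := by rw [Real.rpow_one]
      _ = (n : ℝ) ^ (-(1 / 18) : ℝ) := by rw [← Real.rpow_sub hn0]; norm_num
  linarith

theorem sharp' (q : ℕ) (hq : 3 ≤ q) (Λ : ℝ) : ∃ C : ℝ, 0 < C ∧ ∀ n m : ℕ, 2 ≤ n →
    (m : ℝ) + win n ≤ Λ * n →
    (1 - p q n m) * p q n (m + win n) ^ 2 ≤ C * (n : ℝ) ^ (-(1 / 18) : ℝ) := by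
  obtain ⟨C, hC, h⟩ := sharpC q hq Λ
  refine ⟨5 * C, by positivity, fun n m hn hm => ?_⟩
  have h1 := h n m (win n) hn (win_pos n (by omega)) (win_le n (by omega)) hm
  have h2 := err_le n (by omega)
  have e1 : p q n m = pc n q m := pc_eq q n m
  have e2 : p q n (m + win n) = pc n q (m + win n) := pc_eq q n _
  rw [e1, e2]
  refine h1.trans ?_
  calc C * (n * (win n : ℝ) ^ (-(9 / 8) : ℝ) + (win n : ℝ) / n)
      ≤ C * (5 * (n : ℝ) ^ (-(1 / 18) : ℝ)) := mul_le_mul_of_nonneg_left h2 hC.le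
    _ = _ := by ring

theorem hypc (q : ℕ) (hq3 : 3 ≤ q) : Pool.Agent.H224R2.CT.HypC (1 / 18) win (2 * q) (p q) := by
  have hq : 0 < q := by omega
  have hq' : (0 : ℝ) < q := by exact_mod_cast hq
  have hq1 : (1 : ℝ) ≤ q := by exact_mod_cast hq
  exact
    { hc0 := by norm_num
      hc2 := by norm_num
      hn1 := by omega
      h0 := fun n => Pool.Agent.H224R2.CT.pc_zero q n hq
      hnn := fun n m => Pool.Agent.H224R2.CT.pc_nonneg q n m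
      hanti := fun n m => Pool.Agent.H224R2.CT.pc_succ_le q n m
      hfm := ⟨q, 1 - 1 / (2 * q), hq1, by
          have : 1 / (2 * (q : ℝ)) ≤ 1 / 2 := by
            apply one_div_le_one_div_of_le <;> linarith
          linarith, by
          have : 0 < 1 / (2 * (q : ℝ)) := by positivity
          linarith, fun n m hn => Pool.Agent.H224R2.CT.pc_first_moment q n m hq hn (by omega)⟩
      hwin := fun n _ => by
        have := win_le_rpow n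
        norm_num at this ⊢
        exact this
      hsharp := by
        intro Λ δ hδ
        obtain ⟨C, hC, hs⟩ := sharp' q hq3 Λ
        have hlim : Tendsto (fun n : ℕ => C * (n : ℝ) ^ (-(1 / 18) : ℝ)) atTop (nhds 0) := by
          have := ((tendsto_rpow_neg_atTop (show (0 : ℝ) < 1 / 18 by norm_num)).comp
            (tendsto_natCast_atTop_atTop (R := ℝ))).const_mul C
          simpa using this
        have hev := (hlim.eventually_lt_const hδ).and (eventually_ge_atTop 2)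
        obtain ⟨n0, hn0⟩ := eventually_atTop.mp hev
        refine ⟨n0, fun n m hn hm => ?_⟩
        obtain ⟨h1, h2⟩ := hn0 n hn
        exact (hs n m h2 hm).trans h1.le
      hone := fun n m hn => Pool.Agent.H224R2.CT.pc_super_one q n m hq (by omega)
      htwo := fun N1 N2 m m1 m2 d h1 h2 hd hdm hm1 hm2 =>
        Pool.Agent.H224R2.CT.pc_super_two q N1 N2 m m1 m2 d hq (by omega) (by omega) hd hdm hm1 hm2 }

theorem one_le_T (n : ℕ) (hn : 1 ≤ n) : (1 : ℝ) ≤ (n : ℝ) ^ ((17 : ℝ) / 18) :=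
  Real.one_le_rpow (by exact_mod_cast hn) (by norm_num)

/-- upper side of the window -/
theorem upper (q : ℕ) (hq : 3 ≤ q) : ∃ C : ℝ, 0 < C ∧ ∀ n m : ℕ, 2 * q ≤ n →
    (Mx (p q) n : ℝ) + 2 * (n : ℝ) ^ ((17 : ℝ) / 18) ≤ m →
    p q n m ≤ C * (n : ℝ) ^ (-(1 / 36) : ℝ) := by
  have h := hypc q hq
  obtain ⟨Λ, hΛ, hfb⟩ := h.first_bound (1 / 2) (by norm_num)
  obtain ⟨C, hC, hs⟩ := sharp' q hq (Λ + 2)
  refine ⟨Real.sqrt (2 * C), by positivity, fun n m hn hm => ?_⟩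
  have hn1 : 1 ≤ n := by omega
  have hn1' : (1 : ℝ) ≤ n := by exact_mod_cast hn1
  obtain ⟨hM1, hM2⟩ := h.Mx_spec n hn
  have hMΛ := hfb n _ hn hM1
  have hw : (win n : ℝ) ≤ n := by exact_mod_cast win_le n (by omega)
  have hlt : p q n (Mx (p q) n + 1) < 1 / 2 := by
    by_contra hcon
    have := hM2 _ (not_lt.1 hcon)
    omega
  have h1 := hs n (Mx (p q) n + 1) (by omega) (by push_cast; nlinarith)
  have hle : Mx (p q) n + 1 + win n ≤ m := by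
    have h2 := win_le_rpow n
    have h3 := one_le_T n hn1
    have : ((Mx (p q) n + 1 + win n : ℕ) : ℝ) ≤ m := by push_cast; linarith
    exact_mod_cast this
  have h4 := h.anti n hle
  have h5 := h.hnn n m
  have h6 : p q n m ^ 2 ≤ (Real.sqrt (2 * C) * (n : ℝ) ^ (-(1 / 36) : ℝ)) ^ 2 := by
    have e : (Real.sqrt (2 * C) * (n : ℝ) ^ (-(1 / 36) : ℝ)) ^ 2 =
        2 * C * (n : ℝ) ^ (-(1 / 18) : ℝ) := by
      rw [mul_pow, Real.sq_sqrt (by positivity), ← Real.rpow_natCast, ← Real.rpow_mul (by positivity)]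
      norm_num
    rw [e]
    have h7 : p q n m ^ 2 ≤ p q n (Mx (p q) n + 1 + win n) ^ 2 := pow_le_pow_left₀ h5 h4 2
    have h8 : (1 / 2 : ℝ) * p q n (Mx (p q) n + 1 + win n) ^ 2 ≤
        (1 - p q n (Mx (p q) n + 1)) * p q n (Mx (p q) n + 1 + win n) ^ 2 :=
      mul_le_mul_of_nonneg_right (by linarith) (by positivity)
    linarith
  exact (pow_le_pow_iff_left₀ h5 (by positivity) (by norm_num)).1 h6

/-- lower side of the window -/
theorem lower (q : ℕ) (hq : 3 ≤ q) : ∃ C : ℝ, 0 < C ∧ ∀ n m : ℕ, 2 * q ≤ n →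
    (m : ℝ) + (n : ℝ) ^ ((17 : ℝ) / 18) ≤ Mx (p q) n →
    1 - C * (n : ℝ) ^ (-(1 / 18) : ℝ) ≤ p q n m := by
  have h := hypc q hq
  obtain ⟨Λ, hΛ, hfb⟩ := h.first_bound (1 / 2) (by norm_num)
  obtain ⟨C, hC, hs⟩ := sharp' q hq Λ
  refine ⟨4 * C, by positivity, fun n m hn hm => ?_⟩
  obtain ⟨hM1, hM2⟩ := h.Mx_spec n hn
  have hMΛ := hfb n _ hn hM1
  have hw := win_le_rpow n
  have h1 := hs n m (by omega) (by linarith)
  have hle : m + win n ≤ Mx (p q) n := by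
    have : ((m + win n : ℕ) : ℝ) ≤ Mx (p q) n := by push_cast; linarith
    exact_mod_cast this
  have h4 : 1 / 2 ≤ p q n (m + win n) := hM1.trans (h.anti n hle)
  have hp1 := h.le_one n m
  have h7 : (1 - p q n m) * (1 / 2 : ℝ) ^ 2 ≤ (1 - p q n m) * p q n (m + win n) ^ 2 :=
    mul_le_mul_of_nonneg_left (pow_le_pow_left₀ (by norm_num) h4 2) (by linarith)
  nlinarith

/-- the finite thresholds exceed the limit by at most `C n^(17/18)` -/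
theorem rate (q : ℕ) (hq : 3 ≤ q) (rs : ℝ)
    (h0 : ∀ r, rs < r → Tendsto (fun n : ℕ => p q n ⌊r * (n : ℝ)⌋₊) atTop (nhds 0)) :
    ∃ C : ℝ, 0 < C ∧ ∃ n0 : ℕ, ∀ n : ℕ, n0 ≤ n →
      (Mx (p q) n : ℝ) ≤ rs * n + C * (n : ℝ) ^ ((17 : ℝ) / 18) := by
  have h := hypc q hq
  obtain ⟨C, hC, a1, hB⟩ := h.stepB
  have h43 : 0 < (4 / 3 : ℝ) ^ (1 / 18 : ℝ) - 1 := by
    have := Real.one_lt_rpow (by norm_num : (1 : ℝ) < 4 / 3) (show (0 : ℝ) < 1 / 18 by norm_num)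
    linarith
  set C' : ℝ := C / ((4 / 3 : ℝ) ^ (1 / 18 : ℝ) - 1) with hC'
  have hC'0 : 0 < C' := by positivity
  refine ⟨C', hC'0, max a1 (2 * q), fun n hn => ?_⟩
  have hna : a1 ≤ n := (le_max_left _ _).trans hn
  have hnq : 2 * q ≤ n := (le_max_right _ _).trans hn
  have hn1 : 1 ≤ n := by omega
  have hn0 : (0 : ℝ) < n := by exact_mod_cast hn1
  by_contra hcon
  rw [not_le] at hcon
  have hT : (n : ℝ) ^ ((17 : ℝ) / 18) = n * (n : ℝ) ^ (-(1 / 18) : ℝ) := by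
    calc (n : ℝ) ^ ((17 : ℝ) / 18) = (n : ℝ) ^ ((1 : ℝ) + (-(1 / 18) : ℝ)) := by norm_num
      _ = _ := by rw [Real.rpow_add hn0, Real.rpow_one]
  have hr : rs + C' * (n : ℝ) ^ (-(1 / 18) : ℝ) < (Mx (p q) n : ℝ) / n := by
    rw [lt_div_iff₀ hn0]
    calc (rs + C' * (n : ℝ) ^ (-(1 / 18) : ℝ)) * n
        = rs * n + C' * (n : ℝ) ^ ((17 : ℝ) / 18) := by rw [hT]; ring
      _ < _ := hcon
  set η : ℝ := ((Mx (p q) n : ℝ) / n - C' * (n : ℝ) ^ (-(1 / 18) : ℝ) - rs) / 2 with hη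
  have hη0 : 0 < η := by rw [hη]; linarith
  have hmul := sq_mult (fun N => (Mx (p q) N : ℝ) / N) (1 / 18) C a1 (by norm_num) hC
    (fun N1 N2 b1 b2 b3 b4 => hB N1 N2 b1 b2 b3 b4) n hna hn1
  have hlim := (h0 (rs + η) (by linarith)).eventually_lt_const (show (0 : ℝ) < 1 / 2 by norm_num)
  obtain ⟨N0, hN0⟩ := eventually_atTop.1 hlim
  have hbig : N0 ≤ (N0 + 1) * n := by nlinarith
  have h1 := hN0 ((N0 + 1) * n) hbig
  have h2 := hmul (N0 + 1) (by omega)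
  have hNq : 2 * q ≤ (N0 + 1) * n := by nlinarith
  have hNpos : (0 : ℝ) < (((N0 + 1) * n : ℕ) : ℝ) := by
    have : 0 < (N0 + 1) * n := by positivity
    exact_mod_cast this
  have h3 : rs + 2 * η ≤ (Mx (p q) ((N0 + 1) * n) : ℝ) / (((N0 + 1) * n : ℕ) : ℝ) := by
    refine le_trans ?_ h2
    have e : rs + 2 * η = (Mx (p q) n : ℝ) / n - C' * (n : ℝ) ^ (-(1 / 18) : ℝ) := by rw [hη]; ring
    rw [e]
    have h5 : C' * (n : ℝ) ^ (-(1 / 18) : ℝ) * (1 - ((N0 + 1 : ℕ) : ℝ) ^ (-(1 / 18) : ℝ)) ≤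
        C' * (n : ℝ) ^ (-(1 / 18) : ℝ) * 1 := by
      apply mul_le_mul_of_nonneg_left _ (by positivity)
      have : 0 ≤ ((N0 + 1 : ℕ) : ℝ) ^ (-(1 / 18) : ℝ) := by positivity
      linarith
    rw [← hC']
    linarith
  rw [le_div_iff₀ hNpos] at h3
  have h4 : ⌊(rs + η) * (((N0 + 1) * n : ℕ) : ℝ)⌋₊ ≤ Mx (p q) ((N0 + 1) * n) := by
    rcases le_total 0 ((rs + η) * (((N0 + 1) * n : ℕ) : ℝ)) with hc | hc
    · have h5 := Nat.floor_le hc
      have : (⌊(rs + η) * (((N0 + 1) * n : ℕ) : ℝ)⌋₊ : ℝ) ≤ Mx (p q) ((N0 + 1) * n) := by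
        nlinarith
      exact_mod_cast this
    · rw [Nat.floor_of_nonpos hc]
      exact Nat.zero_le _
  have h5 := h.anti ((N0 + 1) * n) h4
  have h6 := (h.Mx_spec _ hNq).1
  linarith

end Pool.Agent.H320R2.CT.Rate
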