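import Pool.Agent.H320R2.CT.Rate

/-!
# Polynomial rates for the `k`-colourability threshold of `G(n,M)`
-/

set_option autoImplicit false

namespace Pool.Agent.H320R2.CT.Rate

open Finset Filter Pool.Agent.H999R2.KSat Pool.Agent.H545R3.CT

/-- probability that the uniform random graph with `n` vertices and `M` edges is `k`-colourable -/
noncomputable def PG (k n M : ℕ) : ℝ :=
  (Nat.card {G : SimpleGraph (Fin n) // G.edgeSet.ncard = M ∧ G.Colorable k} : ℝ) /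
    (Nat.card {G : SimpleGraph (Fin n) // G.edgeSet.ncard = M} : ℝ)

theorem card_all (n M : ℕ) : Nat.card {G : SimpleGraph (Fin n) // G.edgeSet.ncard = M} =
    (Fintype.card (Dn n)).choose M := by
  classical
  rw [nat_card_all]
  have h : (univ.filter (fun S : Finset (Dn n) => S.card = M)) = powersetCard M univ := by
    ext S; simp [mem_powersetCard]
  rw [h, card_powersetCard, card_univ]

open Classical in
theorem PG_succ_le (k n M : ℕ) : PG k n (M + 1) ≤ PG k n M := by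
  unfold PG
  rw [card_all, card_all, nat_card_col, nat_card_col]
  have hs : ((univ.filter (fun S : Finset (Dn n) => S.card = M + 1 ∧ ColS k S) :
      Finset (Finset (Dn n))) : Set (Finset (Dn n))).Sized (M + 1) := by
    intro S hS
    simp only [coe_filter, mem_univ, true_and, Set.mem_ofPred_eq] at hS
    exact hS.1
  have h := Finset.local_lubell_yamamoto_meshalkin_inequality_div (𝕜 := ℝ) (Nat.succ_ne_zero M) hs
  refine h.trans ?_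
  show _ / ((Nat.choose _ M : ℕ) : ℝ) ≤ _
  apply div_le_div_of_nonneg_right _ (Nat.cast_nonneg _)
  norm_cast
  apply card_le_card
  intro T hT
  rw [mem_shadow_iff] at hT
  obtain ⟨S, hS, a, ha, rfl⟩ := hT
  simp only [mem_filter, mem_univ, true_and] at hS ⊢
  refine ⟨by rw [card_erase_of_mem ha, hS.1]; rfl, ?_⟩
  obtain ⟨σ, hσ⟩ := hS.2
  exact ⟨σ, fun z hz => hσ z (mem_of_mem_erase hz)⟩

theorem PG_anti (k n : ℕ) {M M' : ℕ} (h : M ≤ M') : PG k n M' ≤ PG k n M :=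
  antitone_nat_of_succ_le (PG_succ_le k n) h

theorem PG_nonneg (k n M : ℕ) : 0 ≤ PG k n M := by unfold PG; positivity

theorem PG_le_one (k n M : ℕ) : PG k n M ≤ 1 := by
  classical
  unfold PG
  rw [nat_card_all, nat_card_col]
  apply div_le_one_of_le₀ _ (Nat.cast_nonneg _)
  norm_cast
  apply card_le_card
  intro S hS
  simp only [mem_filter, mem_univ, true_and] at hS ⊢
  exact hS.1

theorem PG_le_choose (k n M : ℕ) (h : 0 < PG k n M) : M ≤ n ^ 2 := by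
  by_contra hcon
  rw [not_le] at hcon
  have h1 : (Fintype.card (Dn n)).choose M = 0 := by
    apply Nat.choose_eq_zero_of_lt
    rw [Sym2.card_subtype_not_diag, Fintype.card_fin]
    refine lt_of_le_of_lt ?_ hcon
    exact Nat.choose_le_pow n 2
  unfold PG at h
  rw [card_all, h1] at h
  simp at h

theorem tr (k : ℕ) (Λ : ℝ) (hΛ : 0 ≤ Λ) : ∃ n0 : ℕ, ∀ n M : ℕ, n0 ≤ n → (M : ℝ) ≤ Λ * n →
    PG k n M ≤ Real.exp (8 * Λ ^ 2) * p k n M ∧
      1 - Real.exp (8 * Λ ^ 2) * (1 - p k n M) ≤ PG k n M := by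
  obtain ⟨n0, hn0⟩ := AA_lower Λ hΛ
  refine ⟨max n0 2, fun n M hn hM => ?_⟩
  have h1 := hn0 n M ((le_max_left _ _).trans hn) hM
  have h2 : 2 ≤ n := (le_max_right _ _).trans hn
  have e : PG k n M = (BB n k M : ℝ) / AA n M := ratio_eq n k M
  have e2 : p k n M = pc n k M := pc_eq k n M
  rw [e, e2]
  exact ⟨ratio_le Λ n k M h2 h1, ratio_ge Λ n k M h2 h1⟩

theorem T_le (n : ℕ) : (n : ℝ) ^ ((17 : ℝ) / 18) ≤ n := by
  rcases Nat.eq_zero_or_pos n with h | h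
  · subst h
    rw [Nat.cast_zero, Real.zero_rpow (by norm_num)]
  · have h1 : (1 : ℝ) ≤ n := by exact_mod_cast h
    calc (n : ℝ) ^ ((17 : ℝ) / 18) ≤ (n : ℝ) ^ (1 : ℝ) :=
          Real.rpow_le_rpow_of_exponent_le h1 (by norm_num)
      _ = n := Real.rpow_one _

/-- trivial bound for small `n` -/
theorem small_ge (n N : ℕ) (hn : 1 ≤ n) (hnN : n ≤ N) (x : ℝ) (hx1 : x ≤ 1) (C : ℝ)
    (hC : (N : ℝ) ≤ C) : 1 ≤ C * (n : ℝ) ^ (-x) := by
  have h1 : (1 : ℝ) ≤ n := by exact_mod_cast hn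
  have h0 : (0 : ℝ) < n := by linarith
  have h2 : (n : ℝ) ^ (-(1 : ℝ)) ≤ (n : ℝ) ^ (-x) :=
    Real.rpow_le_rpow_of_exponent_le h1 (by linarith)
  rw [Real.rpow_neg_one] at h2
  have h3 : (n : ℝ) ≤ C := le_trans (by exact_mod_cast hnN) hC
  calc (1 : ℝ) = n * (n : ℝ)⁻¹ := (mul_inv_cancel₀ h0.ne').symm
    _ ≤ C * (n : ℝ) ^ (-x) := mul_le_mul h3 h2 (by positivity) (by linarith)

theorem main0 (k : ℕ) (hk : 3 ≤ k) : ∃ c C0 : ℝ, 0 < C0 ∧
    (∀ ε : ℝ, 0 < ε → Tendsto (fun n : ℕ => PG k n ⌊(c - ε) * (n : ℝ)⌋₊) atTop (nhds 1) ∧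
      Tendsto (fun n : ℕ => PG k n ⌊(c + ε) * (n : ℝ)⌋₊) atTop (nhds 0)) ∧
    ∀ C : ℝ, C0 ≤ C →
    (∀ n M : ℕ, 1 ≤ n → c * n + C * (n : ℝ) ^ ((17 : ℝ) / 18) ≤ M →
      PG k n M ≤ C * (n : ℝ) ^ (-(1 / 36) : ℝ)) ∧
    (∀ ε : ℝ, 0 < ε → ∃ n0 : ℕ, ∀ n M : ℕ, n0 ≤ n → (M : ℝ) ≤ (c - ε) * n →
      1 - C * (n : ℝ) ^ (-(1 / 18) : ℝ) ≤ PG k n M) ∧
    (∀ n : ℕ, 1 ≤ n → ∃ m : ℕ,
      (∀ M : ℕ, (M : ℝ) + C * (n : ℝ) ^ ((17 : ℝ) / 18) ≤ m →
        1 - C * (n : ℝ) ^ (-(1 / 18) : ℝ) ≤ PG k n M) ∧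
      (∀ M : ℕ, (m : ℝ) + C * (n : ℝ) ^ ((17 : ℝ) / 18) ≤ M →
        PG k n M ≤ C * (n : ℝ) ^ (-(1 / 36) : ℝ))) := by
  obtain ⟨rs, h1, h0⟩ := threshold k hk
  have hthr := transfer k rs h1 h0
  have e0 : ∀ n m, pc n k m = p k n m := fun n m => (pc_eq k n m).symm
  simp only [e0] at h1 h0
  have h := hypc k hk
  obtain ⟨Λ0, hΛ0, hfb⟩ := h.first_bound (1 / 2) (by norm_num)
  obtain ⟨C1, hC1, n1, hrate⟩ := rate k hk rs h0
  obtain ⟨C2, hC2, hup⟩ := upper k hk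
  obtain ⟨C3, hC3, hlo⟩ := lower k hk
  set Λ : ℝ := |rs| + Λ0 + C1 + 4 with hΛ
  have hrs := le_abs_self rs
  have hrs' := neg_abs_le rs
  have hars := abs_nonneg rs
  have hΛ' : 0 ≤ Λ := by linarith
  obtain ⟨n2, htr⟩ := tr k Λ hΛ'
  set K : ℝ := Real.exp (8 * Λ ^ 2) with hK
  have hK0 : 0 < K := Real.exp_pos _
  set N : ℕ := max (max n1 n2) (2 * k) with hN
  have q1 : 0 < K * C2 := by positivity
  have q2 : 0 < K * C3 := by positivity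
  have q3 : (0 : ℝ) ≤ N := Nat.cast_nonneg _
  refine ⟨rs, K * C2 + K * C3 + C1 + 4 + N, by positivity, hthr, fun C hC => ?_⟩
  have hC0 : 0 < C := by linarith
  have hCN : (N : ℝ) ≤ C := by linarith
  have hCa : K * C2 ≤ C := by linarith
  have hCb : K * C3 ≤ C := by linarith
  have hCc : C1 + 4 ≤ C := by linarith
  have hT0 : ∀ n : ℕ, 0 ≤ (n : ℝ) ^ ((17 : ℝ) / 18) := fun n => by positivity
  have hspec : ∀ n, 2 * k ≤ n → (Mx (p k) n : ℝ) ≤ Λ0 * n := fun n hn =>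
    hfb n _ hn (h.Mx_spec n hn).1
  -- upper bound above `Mx + 3 T`
  have hU : ∀ n M : ℕ, N ≤ n → (Mx (p k) n : ℝ) + 2 * (n : ℝ) ^ ((17 : ℝ) / 18) ≤ M →
      (M : ℝ) ≤ Λ * n → PG k n M ≤ C * (n : ℝ) ^ (-(1 / 36) : ℝ) := by
    intro n M hn hM hMΛ
    have a1 : n2 ≤ n := ((le_max_right _ _).trans (le_max_left _ _)).trans hn
    have a2 : 2 * k ≤ n := (le_max_right _ _).trans hn
    have a3 := hup n M a2 hM
    have a4 := (htr n M a1 hMΛ).1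
    calc PG k n M ≤ K * p k n M := a4
      _ ≤ K * (C2 * (n : ℝ) ^ (-(1 / 36) : ℝ)) := mul_le_mul_of_nonneg_left a3 hK0.le
      _ = (K * C2) * (n : ℝ) ^ (-(1 / 36) : ℝ) := by ring
      _ ≤ C * (n : ℝ) ^ (-(1 / 36) : ℝ) := mul_le_mul_of_nonneg_right hCa (by positivity)
  have hLo : ∀ n M : ℕ, N ≤ n → (M : ℝ) + (n : ℝ) ^ ((17 : ℝ) / 18) ≤ Mx (p k) n →
      1 - C * (n : ℝ) ^ (-(1 / 18) : ℝ) ≤ PG k n M := by
    intro n M hn hM
    have a1 : n2 ≤ n := ((le_max_right _ _).trans (le_max_left _ _)).trans hn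
    have a2 : 2 * k ≤ n := (le_max_right _ _).trans hn
    have a3 := hlo n M a2 hM
    have hn0 : (0 : ℝ) ≤ n := Nat.cast_nonneg n
    have a5 : (M : ℝ) ≤ Λ * n := by
      have b1 := hspec n a2
      have b2 := hT0 n
      have b3 : Λ0 * n ≤ Λ * n := mul_le_mul_of_nonneg_right (by linarith) hn0
      linarith
    have a4 := (htr n M a1 a5).2
    have a6 : K * (1 - p k n M) ≤ K * (C3 * (n : ℝ) ^ (-(1 / 18) : ℝ)) :=
      mul_le_mul_of_nonneg_left (by linarith) hK0.le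
    have a7 : (K * C3) * (n : ℝ) ^ (-(1 / 18) : ℝ) ≤ C * (n : ℝ) ^ (-(1 / 18) : ℝ) :=
      mul_le_mul_of_nonneg_right hCb (by positivity)
    have a8 : K * (C3 * (n : ℝ) ^ (-(1 / 18) : ℝ)) = (K * C3) * (n : ℝ) ^ (-(1 / 18) : ℝ) := by
      ring
    linarith
  -- large `M` by monotonicity
  have hU' : ∀ (n M : ℕ) (z : ℝ), N ≤ n → (Mx (p k) n : ℝ) + 2 * (n : ℝ) ^ ((17 : ℝ) / 18) ≤ z →
      z + 1 ≤ Λ * n → z ≤ M → PG k n M ≤ C * (n : ℝ) ^ (-(1 / 36) : ℝ) := by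
    intro n M z hn hz hzΛ hM
    have b0 : 0 ≤ z := le_trans (by positivity) hz
    have b1 : ⌈z⌉₊ ≤ M := Nat.ceil_le.2 hM
    refine (PG_anti k n b1).trans (hU n _ hn (hz.trans (Nat.le_ceil z)) ?_)
    exact (Nat.ceil_lt_add_one b0).le.trans hzΛ
  have hsmall36 : ∀ n : ℕ, 1 ≤ n → n ≤ N → 1 ≤ C * (n : ℝ) ^ (-(1 / 36) : ℝ) := fun n hn hnN =>
    small_ge n N hn hnN (1 / 36) (by norm_num) C hCN
  have hsmall18 : ∀ n : ℕ, 1 ≤ n → n ≤ N → 1 ≤ C * (n : ℝ) ^ (-(1 / 18) : ℝ) := fun n hn hnN =>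
    small_ge n N hn hnN (1 / 18) (by norm_num) C hCN
  have hA : ∀ n M : ℕ, 1 ≤ n → rs * n + C * (n : ℝ) ^ ((17 : ℝ) / 18) ≤ M →
      PG k n M ≤ C * (n : ℝ) ^ (-(1 / 36) : ℝ) := by
    intro n M hn hM
    rcases le_total n N with hc | hc
    · exact (PG_le_one k n M).trans (hsmall36 n hn hc)
    · have a0 : n1 ≤ n := ((le_max_left _ _).trans (le_max_left _ _)).trans hc
      have hn' : (1 : ℝ) ≤ n := by exact_mod_cast hn
      have b1 := hrate n a0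
      have b2 := T_le n
      have b3 := hT0 n
      refine hU' n M (rs * n + (C1 + 2) * (n : ℝ) ^ ((17 : ℝ) / 18)) hc (by linarith) ?_ ?_
      · have b4 : (C1 + 2) * (n : ℝ) ^ ((17 : ℝ) / 18) ≤ (C1 + 2) * n :=
          mul_le_mul_of_nonneg_left b2 (by linarith)
        have b5 : rs * n ≤ |rs| * n := mul_le_mul_of_nonneg_right hrs (by linarith)
        have b6 : Λ * n = |rs| * n + Λ0 * n + (C1 + 2) * n + 2 * n := by rw [hΛ]; ring
        have b7 : 0 ≤ Λ0 * n := by positivity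
        linarith
      · have b4 : (C1 + 2) * (n : ℝ) ^ ((17 : ℝ) / 18) ≤ C * (n : ℝ) ^ ((17 : ℝ) / 18) :=
          mul_le_mul_of_nonneg_right (by linarith) b3
        linarith
  have hMxlim : ∀ ε : ℝ, 0 < ε → ∀ᶠ n : ℕ in atTop, (rs - ε) * n ≤ Mx (p k) n := by
    intro ε hε
    have c1 := (h1 (rs - ε / 2) (by linarith)).eventually_const_lt
      (show (1 / 2 : ℝ) < 1 by norm_num)
    filter_upwards [c1, eventually_ge_atTop (2 * k), tendsto_natCast_atTop_atTop.eventually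
      (eventually_gt_atTop (2 / ε))] with n d1 d2 d3
    have d4 := (h.Mx_spec n d2).2 _ d1.le
    have d5 : ((⌊(rs - ε / 2) * (n : ℝ)⌋₊ : ℕ) : ℝ) ≤ Mx (p k) n := by exact_mod_cast d4
    have d6 : (rs - ε / 2) * (n : ℝ) < ⌊(rs - ε / 2) * (n : ℝ)⌋₊ + 1 := Nat.lt_floor_add_one _
    have d7 : 1 < ε / 2 * n := by
      rw [div_lt_iff₀ hε] at d3
      linarith
    nlinarith
  have hB : ∀ ε : ℝ, 0 < ε → ∃ n0 : ℕ, ∀ n M : ℕ, n0 ≤ n → (M : ℝ) ≤ (rs - ε) * n →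
      1 - C * (n : ℝ) ^ (-(1 / 18) : ℝ) ≤ PG k n M := by
    intro ε hε
    have ev := ((hMxlim (ε / 2) (by positivity)).and
      (Pool.Agent.H224R2.CT.rpow_small (1 / 18) (ε / 2) (by norm_num) (by positivity))).and
      (eventually_ge_atTop N)
    obtain ⟨n0, hn0⟩ := eventually_atTop.1 ev
    refine ⟨n0, fun n M hn hM => ?_⟩
    obtain ⟨⟨c1, c2⟩, c3⟩ := hn0 n hn
    have e : (1 - 1 / 18 : ℝ) = 17 / 18 := by norm_num
    rw [e] at c2
    exact hLo n M c3 (by linarith)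
  refine ⟨hA, hB, ?_⟩
  · intro n hn
    rcases le_total n N with hc | hc
    · refine ⟨0, fun M _ => ?_, fun M _ => ?_⟩
      · have := hsmall18 n hn hc
        have := PG_nonneg k n M
        linarith
      · exact (PG_le_one k n M).trans (hsmall36 n hn hc)
    · have b2 := T_le n
      have b3 := hT0 n
      have hn' : (1 : ℝ) ≤ n := by exact_mod_cast hn
      have a2 : 2 * k ≤ n := (le_max_right _ _).trans hc
      refine ⟨Mx (p k) n, fun M hM => hLo n M hc ?_, fun M hM => ?_⟩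
      · have : 1 * (n : ℝ) ^ ((17 : ℝ) / 18) ≤ C * (n : ℝ) ^ ((17 : ℝ) / 18) :=
          mul_le_mul_of_nonneg_right (by linarith) b3
        linarith
      · refine hU' n M (Mx (p k) n + 2 * (n : ℝ) ^ ((17 : ℝ) / 18)) hc le_rfl ?_ ?_
        · have b5 := hspec n a2
          have b6 : Λ * n = |rs| * n + Λ0 * n + C1 * n + 4 * n := by rw [hΛ]; ring
          have b7 : 0 ≤ |rs| * n := by positivity
          have b8 : 0 ≤ C1 * n := by positivity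
          linarith
        · have : 2 * (n : ℝ) ^ ((17 : ℝ) / 18) ≤ C * (n : ℝ) ^ ((17 : ℝ) / 18) :=
            mul_le_mul_of_nonneg_right (by linarith) b3
          linarith

theorem T_div (n : ℕ) (hn : 1 ≤ n) :
    (n : ℝ) ^ ((17 : ℝ) / 18) / n = (n : ℝ) ^ (-(1 / 18) : ℝ) := by
  have hn0 : (0 : ℝ) < n := by exact_mod_cast hn
  calc (n : ℝ) ^ ((17 : ℝ) / 18) / n = (n : ℝ) ^ ((17 : ℝ) / 18) / (n : ℝ) ^ (1 : ℝ) := by
        rw [Real.rpow_one]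
    _ = (n : ℝ) ^ (-(1 / 18) : ℝ) := by rw [← Real.rpow_sub hn0]; norm_num

theorem main (k : ℕ) (hk : 3 ≤ k) : ∃ (c : ℝ) (C : ℕ), 0 < C ∧
    (∀ ε : ℝ, 0 < ε → Tendsto (fun n : ℕ => PG k n ⌊(c - ε) * (n : ℝ)⌋₊) atTop (nhds 1) ∧
      Tendsto (fun n : ℕ => PG k n ⌊(c + ε) * (n : ℝ)⌋₊) atTop (nhds 0)) ∧
    (∀ n M : ℕ, 1 ≤ n → c * n + (C : ℝ) * (n : ℝ) ^ ((17 : ℝ) / 18) ≤ M →
      PG k n M ≤ (C : ℝ) * (n : ℝ) ^ (-(1 / 36) : ℝ)) ∧
    (∀ ε : ℝ, 0 < ε → ∃ n0 : ℕ, ∀ n M : ℕ, n0 ≤ n → (M : ℝ) ≤ (c - ε) * n →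
      1 - (C : ℝ) * (n : ℝ) ^ (-(1 / 18) : ℝ) ≤ PG k n M) ∧
    (∀ n : ℕ, 1 ≤ n → ∃ m : ℕ,
      (∀ M : ℕ, (M : ℝ) + (C : ℝ) * (n : ℝ) ^ ((17 : ℝ) / 18) ≤ m →
        1 - (C : ℝ) * (n : ℝ) ^ (-(1 / 18) : ℝ) ≤ PG k n M) ∧
      (∀ M : ℕ, (m : ℝ) + (C : ℝ) * (n : ℝ) ^ ((17 : ℝ) / 18) ≤ M →
        PG k n M ≤ (C : ℝ) * (n : ℝ) ^ (-(1 / 36) : ℝ))) ∧
    IsLUB {x : ℝ | ∃ n M : ℕ, 1 ≤ n ∧ 1 / 2 ≤ PG k n M ∧
      x = (M : ℝ) / n - (C : ℝ) * (n : ℝ) ^ (-(1 / 18) : ℝ)} c := by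
  obtain ⟨c, C0, hC0, hthr, hall⟩ := main0 k hk
  set B : ℝ := (2 * C0 + 1) ^ 36 with hB
  have hB1 : 1 ≤ B := one_le_pow₀ (by linarith)
  have hB0 : 0 < B := by linarith
  have habs := abs_nonneg c
  have hBB : 0 ≤ (B + |c|) * B := by positivity
  obtain ⟨Cn, hCn⟩ := exists_nat_ge (C0 + (B + |c|) * B)
  set C : ℝ := (Cn : ℝ) with hC
  have hCC : C0 ≤ C := by linarith
  have hCpos : 0 < C := by linarith
  obtain ⟨hA, hBb, hW⟩ := hall C hCC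
  have hCnpos : 0 < Cn := Nat.cast_pos.1 (show (0 : ℝ) < (Cn : ℝ) from hCpos)
  refine ⟨c, Cn, hCnpos, hthr, hA, hBb, hW, ?_, ?_⟩
  · rintro x ⟨n, M, hn, hP, rfl⟩
    have hn1 : (1 : ℝ) ≤ n := by exact_mod_cast hn
    have hn0 : (0 : ℝ) < n := by linarith
    have hpw : (0 : ℝ) < (n : ℝ) ^ (-(1 / 18) : ℝ) := by positivity
    rcases lt_or_ge (M : ℝ) (c * n + C0 * (n : ℝ) ^ ((17 : ℝ) / 18)) with hc | hc
    · have h1 : (M : ℝ) / n ≤ (c * n + C0 * (n : ℝ) ^ ((17 : ℝ) / 18)) / n :=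
        div_le_div_of_nonneg_right hc.le hn0.le
      have h2 : (c * n + C0 * (n : ℝ) ^ ((17 : ℝ) / 18)) / n =
          c + C0 * (n : ℝ) ^ (-(1 / 18) : ℝ) := by
        rw [← T_div n hn]
        field_simp
      have h3 : C0 * (n : ℝ) ^ (-(1 / 18) : ℝ) ≤ C * (n : ℝ) ^ (-(1 / 18) : ℝ) :=
        mul_le_mul_of_nonneg_right hCC hpw.le
      linarith
    · have h1 := (hall C0 le_rfl).1 n M hn hc
      have h2 : (1 / 2 : ℝ) ≤ C0 * (n : ℝ) ^ (-(1 / 36) : ℝ) := hP.trans h1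
      have h3 : (n : ℝ) ^ (1 / 36 : ℝ) ≤ 2 * C0 + 1 := by
        have e : (n : ℝ) ^ (1 / 36 : ℝ) * (n : ℝ) ^ (-(1 / 36) : ℝ) = 1 := by
          rw [← Real.rpow_add hn0]; norm_num
        have h4 : (0 : ℝ) < (n : ℝ) ^ (1 / 36 : ℝ) := by positivity
        have h5 : (n : ℝ) ^ (1 / 36 : ℝ) * (1 / 2) ≤
            (n : ℝ) ^ (1 / 36 : ℝ) * (C0 * (n : ℝ) ^ (-(1 / 36) : ℝ)) :=
          mul_le_mul_of_nonneg_left h2 h4.le
        have h6 : (n : ℝ) ^ (1 / 36 : ℝ) * (C0 * (n : ℝ) ^ (-(1 / 36) : ℝ)) = C0 := by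
          rw [mul_left_comm, e, mul_one]
        linarith
      have h4 : (n : ℝ) ≤ B := by
        calc (n : ℝ) = ((n : ℝ) ^ (1 / 36 : ℝ)) ^ 36 := by
              rw [← Real.rpow_natCast, ← Real.rpow_mul hn0.le]; norm_num
          _ ≤ (2 * C0 + 1) ^ 36 := pow_le_pow_left₀ (by positivity) h3 36
      have h5 : (M : ℝ) / n ≤ n := by
        rw [div_le_iff₀ hn0]
        have := PG_le_choose k n M (by linarith)
        have h6 : (M : ℝ) ≤ (n : ℝ) ^ 2 := by exact_mod_cast this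
        linarith [sq (n : ℝ)]
      have h6 : B⁻¹ ≤ (n : ℝ) ^ (-(1 / 18) : ℝ) := by
        calc B⁻¹ ≤ (n : ℝ)⁻¹ := inv_anti₀ hn0 h4
          _ = (n : ℝ) ^ (-(1 : ℝ)) := (Real.rpow_neg_one _).symm
          _ ≤ _ := Real.rpow_le_rpow_of_exponent_le hn1 (by norm_num)
      have h7 : B + |c| ≤ C * (n : ℝ) ^ (-(1 / 18) : ℝ) := by
        calc B + |c| = ((B + |c|) * B) * B⁻¹ := by field_simp
          _ ≤ C * (n : ℝ) ^ (-(1 / 18) : ℝ) :=
              mul_le_mul (by linarith) h6 (by positivity) hCpos.le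
      have := neg_abs_le c
      linarith
  · intro b hb
    by_contra hcon
    rw [not_le] at hcon
    set ε : ℝ := (c - b) / 4 with hε
    have hε0 : 0 < ε := by rw [hε]; linarith
    have e1 := (hthr ε hε0).1.eventually_const_lt (show (1 / 2 : ℝ) < 1 by norm_num)
    have e2 : Tendsto (fun n : ℕ => C * (n : ℝ) ^ (-(1 / 18) : ℝ)) atTop (nhds 0) := by
      have := ((tendsto_rpow_neg_atTop (show (0 : ℝ) < 1 / 18 by norm_num)).comp
        (tendsto_natCast_atTop_atTop (R := ℝ))).const_mul C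
      simpa using this
    have e3 := e2.eventually_lt_const hε0
    have e4 := tendsto_natCast_atTop_atTop.eventually (eventually_gt_atTop (1 / ε))
    obtain ⟨n, ⟨⟨h1, h2⟩, h3⟩, h4⟩ := (((e1.and e3).and e4).and (eventually_ge_atTop 1)).exists
    have hn0 : (0 : ℝ) < n := by exact_mod_cast h4
    have h5 := hb ⟨n, ⌊(c - ε) * (n : ℝ)⌋₊, h4, h1.le, rfl⟩
    have h6 : (c - ε) * (n : ℝ) < ⌊(c - ε) * (n : ℝ)⌋₊ + 1 := Nat.lt_floor_add_one _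
    have h7 : 1 < ε * n := by
      rw [div_lt_iff₀ hε0] at h3
      linarith
    have h8 : c - 2 * ε < (⌊(c - ε) * (n : ℝ)⌋₊ : ℝ) / n := by
      rw [lt_div_iff₀ hn0]
      linarith
    have h9 : c - b = 4 * ε := by rw [hε]; ring
    linarith

end Pool.Agent.H320R2.CT.Rate
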