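import Pool.Agent.H320R2.CT.SH

/-! Task SA: real algebra from `sharp_gen` with `lam = s^(7/8)` -/

set_option autoImplicit false

namespace Pool.Agent.H320R2.CT

open Finset Filter Pool.Agent.H999R2.KSat

theorem sa_pow {s : ℝ} (hs : 0 < s) : s ^ (7 / 8 : ℝ) = s ^ 2 * s ^ (-(9 / 8) : ℝ) := by
  rw [← Real.rpow_natCast s 2, ← Real.rpow_add hs]
  norm_num

theorem sa_cube {s : ℝ} (hs : 0 < s) :
    (Real.sqrt (3 * s) / s ^ (7 / 8 : ℝ)) ^ 3 ≤ 6 * s ^ (-(9 / 8) : ℝ) := by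
  have h1 : Real.sqrt (3 * s) / s ^ (7 / 8 : ℝ) = Real.sqrt 3 * s ^ (-(3 / 8) : ℝ) := by
    rw [Real.sqrt_mul (by norm_num : (0 : ℝ) ≤ 3), Real.sqrt_eq_rpow s, mul_div_assoc,
      ← Real.rpow_sub hs]
    norm_num
  have h2 : (s ^ (-(3 / 8) : ℝ)) ^ 3 = s ^ (-(9 / 8) : ℝ) := by
    rw [← Real.rpow_natCast, ← Real.rpow_mul hs.le]
    norm_num
  rw [h1, mul_pow, h2]
  have h3 : Real.sqrt 3 ^ 3 ≤ 6 := by
    have h4 : Real.sqrt 3 ^ 2 = 3 := Real.sq_sqrt (by norm_num)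
    have h5 : Real.sqrt 3 ≤ 2 := by
      rw [Real.sqrt_le_left (by norm_num)]
      norm_num
    calc Real.sqrt 3 ^ 3 = Real.sqrt 3 ^ 2 * Real.sqrt 3 := by ring
      _ = 3 * Real.sqrt 3 := by rw [h4]
      _ ≤ 6 := by linarith
  exact mul_le_mul_of_nonneg_right h3 (Real.rpow_nonneg hs.le _)

theorem sa_exp (n m : ℕ) (Λ : ℝ) (hn : 2 ≤ n) (hm : (m : ℝ) ≤ Λ * n) :
    (1 + 500 / ((n : ℝ) - 1)) ^ m ≤ Real.exp (1000 * Λ) := by
  have hn' : (2 : ℝ) ≤ n := by exact_mod_cast hn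
  have h1 : (0 : ℝ) ≤ 500 / ((n : ℝ) - 1) := div_nonneg (by norm_num) (by linarith)
  have h2 : 1 + 500 / ((n : ℝ) - 1) ≤ Real.exp (500 / ((n : ℝ) - 1)) := by
    have := Real.add_one_le_exp (500 / ((n : ℝ) - 1))
    linarith
  calc (1 + 500 / ((n : ℝ) - 1)) ^ m ≤ Real.exp (500 / ((n : ℝ) - 1)) ^ m :=
        pow_le_pow_left₀ (by linarith) h2 m
    _ = Real.exp (m * (500 / ((n : ℝ) - 1))) := by rw [← Real.exp_nat_mul]
    _ ≤ Real.exp (1000 * Λ) := by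
        apply Real.exp_le_exp.2
        have h3 : 500 / ((n : ℝ) - 1) ≤ 1000 / n := by
          rw [div_le_div_iff₀ (by linarith) (by linarith)]
          linarith
        have h4 : (0 : ℝ) ≤ m := Nat.cast_nonneg m
        calc (m : ℝ) * (500 / ((n : ℝ) - 1)) ≤ m * (1000 / n) :=
              mul_le_mul_of_nonneg_left h3 h4
          _ ≤ (Λ * n) * (1000 / n) := mul_le_mul_of_nonneg_right hm (by positivity)
          _ = 1000 * Λ := by field_simp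

theorem sharpC (q : ℕ) (hq : 3 ≤ q) (Λ : ℝ) : ∃ C : ℝ, 0 < C ∧ ∀ n m s : ℕ, 2 ≤ n → 1 ≤ s →
    s ≤ n → (m : ℝ) + s ≤ Λ * n →
    (1 - pc n q m) * pc n q (m + s) ^ 2 ≤ C * (n * (s : ℝ) ^ (-(9 / 8) : ℝ) + s / n) := by
  set L : ℝ := max Λ 1 with hL
  have hL1 : 1 ≤ L := le_max_right _ _
  set K : ℝ := Real.exp (1000 * L) with hK
  have hKpos : 0 < K := Real.exp_pos _
  refine ⟨L * (18 * (1 + 81000000 * K)) + 24 * L, by positivity, fun n m s hn hs1 hs hms => ?_⟩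
  have hn' : (2 : ℝ) ≤ n := by exact_mod_cast hn
  have hs' : (1 : ℝ) ≤ s := by exact_mod_cast hs1
  have hspos : (0 : ℝ) < s := by linarith
  have hnpos : (0 : ℝ) < n := by linarith
  have hm0 : (0 : ℝ) ≤ m := Nat.cast_nonneg m
  have hmL : (m : ℝ) ≤ L * n := by
    have : Λ * n ≤ L * n := mul_le_mul_of_nonneg_right (le_max_left _ _) hnpos.le
    linarith
  have hgen := sharp_gen s n q m ((s : ℝ) ^ (7 / 8 : ℝ)) hn hs1 hs (Real.rpow_pos_of_pos hspos _) hq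
  have hc := sa_cube hspos
  have he := sa_exp n m L hn hmL
  rw [← hK] at he
  set x : ℝ := (s : ℝ) ^ (-(9 / 8) : ℝ) with hx
  have hxpos : 0 < x := Real.rpow_pos_of_pos hspos _
  set c : ℝ := (Real.sqrt (3 * (s : ℝ)) / (s : ℝ) ^ (7 / 8 : ℝ)) ^ 3 with hcdef
  have hc0 : 0 ≤ c := by positivity
  set e : ℝ := (1 + 500 / ((n : ℝ) - 1)) ^ m with hedef
  have he0 : 0 ≤ e := by
    have : (0 : ℝ) ≤ 500 / ((n : ℝ) - 1) := div_nonneg (by norm_num) (by linarith)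
    positivity
  have hce : c * e ≤ 6 * x * K := mul_le_mul hc he he0 (by positivity)
  have h1 : (s : ℝ) ^ (7 / 8 : ℝ) + 2 * (s : ℝ) ^ 2 * (30 ^ 3 * c * 250 * e) ≤
      (s : ℝ) ^ 2 * (x * (1 + 81000000 * K)) := by
    rw [sa_pow hspos, ← hx]
    have h2 : 2 * (s : ℝ) ^ 2 * (30 ^ 3 * c * 250 * e) = (s : ℝ) ^ 2 * (13500000 * (c * e)) := by
      ring
    rw [h2, ← mul_add]
    apply mul_le_mul_of_nonneg_left _ (by positivity)
    nlinarith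
  have h3 : (m : ℝ) * (18 * ((s : ℝ) ^ (7 / 8 : ℝ) + 2 * (s : ℝ) ^ 2 * (30 ^ 3 * c * 250 * e)) +
      24 * (s : ℝ) ^ 3 / (n : ℝ) ^ 2) ≤
      (s : ℝ) ^ 2 * ((L * (18 * (1 + 81000000 * K)) + 24 * L) * (n * x + s / n)) := by
    have h4 : (m : ℝ) * (18 * ((s : ℝ) ^ (7 / 8 : ℝ) +
        2 * (s : ℝ) ^ 2 * (30 ^ 3 * c * 250 * e)) + 24 * (s : ℝ) ^ 3 / (n : ℝ) ^ 2) ≤
        (L * n) * (18 * ((s : ℝ) ^ 2 * (x * (1 + 81000000 * K))) +
          24 * (s : ℝ) ^ 3 / (n : ℝ) ^ 2) := by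
      apply mul_le_mul hmL _ (by positivity) (by positivity)
      linarith
    refine h4.trans ?_
    have h5 : (L * n) * (18 * ((s : ℝ) ^ 2 * (x * (1 + 81000000 * K))) +
          24 * (s : ℝ) ^ 3 / (n : ℝ) ^ 2) =
        (s : ℝ) ^ 2 * ((L * (18 * (1 + 81000000 * K))) * (n * x) + 24 * L * (s / n)) := by
      field_simp
    rw [h5]
    apply mul_le_mul_of_nonneg_left _ (by positivity)
    have h6 : 0 ≤ (L * (18 * (1 + 81000000 * K))) * ((s : ℝ) / n) := by positivity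
    have h7 : 0 ≤ 24 * L * ((n : ℝ) * x) := by positivity
    nlinarith
  have h8 := hgen.trans h3
  have h9 : (1 - pc n q m) * ((s : ℝ) * pc n q (m + s)) ^ 2 =
      (s : ℝ) ^ 2 * ((1 - pc n q m) * pc n q (m + s) ^ 2) := by ring
  rw [h9] at h8
  exact le_of_mul_le_mul_left h8 (by positivity)

end Pool.Agent.H320R2.CT

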