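import Pool.Agent.H320R2.CT.DE
import Pool.Agent.H999R2.KSat.ES

/-!
# The sharpness inequality (assembly)
-/

set_option autoImplicit false

namespace Pool.Agent.H320R2.CT

open Finset Filter Pool.Agent.H999R2.KSat

theorem sh_SolC_insertNth {n q M : ℕ} (j : Fin (M + 1)) (x : Ed n) (G : Fin M → Ed n) :
    (SolC (j.insertNth x G : Fin (M + 1) → Ed n) : Set (Co n q)) =
      (SolC G : Set (Co n q)) ∩ {σ | pr σ x} := by
  ext a
  simp only [SolC, Set.mem_ofPred_eq, Set.mem_inter_iff]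
  rw [Fin.forall_iff_succAbove j]
  simp only [Fin.insertNth_apply_same, Fin.insertNth_apply_succAbove]
  tauto

/-- the bound for the mean square of one increment -/
noncomputable def shB (s n M : ℕ) (lam : ℝ) : ℝ :=
  18 * (lam + 2 * (s : ℝ) ^ 2 * (30 ^ 3 * (Real.sqrt (3 * s) / lam) ^ 3 * 250 *
        (1 + 500 / ((n : ℝ) - 1)) ^ M)) + 24 * (s : ℝ) ^ 3 / (n : ℝ) ^ 2

theorem sh_var_upper (s n q M : ℕ) (lam : ℝ) (hn : 2 ≤ n) (hs1 : 1 ≤ s) (hs : s ≤ n)
    (hlam : 0 < lam) (hq : 3 ≤ q) :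
    E (fun F : Fin (M + 1) → Ed n => RC s (SolC F : Set (Co n q)) ^ 2)
      - (E (fun F : Fin (M + 1) → Ed n => RC s (SolC F : Set (Co n q)))) ^ 2 ≤
      ((M : ℝ) + 1) * shB s n M lam := by
  have h1 := efron_stein (M + 1) (fun F : Fin (M + 1) → Ed n => RC s (SolC F : Set (Co n q)))
    (fun j F => RC s (SolC (j.removeNth F) : Set (Co n q))) (by
      intro j F y
      simp only [Fin.removeNth_update])
  refine h1.trans ?_
  have h2 : ∀ j : Fin (M + 1), E (fun F : Fin (M + 1) → Ed n =>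
      (RC s (SolC F : Set (Co n q)) - RC s (SolC (j.removeNth F) : Set (Co n q))) ^ 2) ≤
      shB s n M lam := by
    intro j
    rw [E_insertNth j, E_comm]
    refine le_trans (le_of_eq ?_) (delta_sq (q := q) s M lam hn hs1 hs hlam hq)
    refine E_congr fun G => E_congr fun C => ?_
    rw [sh_SolC_insertNth, Fin.removeNth_insertNth]
    ring
  calc _ ≤ ∑ _j : Fin (M + 1), shB s n M lam :=
        Finset.sum_le_sum fun j _ => h2 j
    _ = _ := by
        rw [Finset.sum_const, Finset.card_univ, Fintype.card_fin, nsmul_eq_mul]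
        push_cast
        ring

theorem sh_nonempty_Ed (n : ℕ) (hn : 2 ≤ n) : Nonempty (Ed n) := by
  refine ⟨⟨(⟨0, by omega⟩, ⟨1, by omega⟩), ?_⟩⟩
  intro h
  simp [Fin.ext_iff] at h

theorem sh_var_lower (s n q m : ℕ) (hn : 2 ≤ n) :
    (1 - pc n q m) * ((s : ℝ) * pc n q (m + s)) ^ 2 ≤
    E (fun F : Fin m → Ed n => RC s (SolC F : Set (Co n q)) ^ 2)
      - (E (fun F : Fin m → Ed n => RC s (SolC F : Set (Co n q)))) ^ 2 := by
  have hne : Nonempty (Ed n) := sh_nonempty_Ed n hn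
  rw [← E_sq_sub_mean]
  set μ := E (fun F : Fin m → Ed n => RC s (SolC F : Set (Co n q))) with hμ
  have h1 : (s : ℝ) * pc n q (m + s) ≤ μ := E_RC_ge n q m s
  have h2 : 0 ≤ (s : ℝ) * pc n q (m + s) := mul_nonneg (by positivity) (pc_nonneg _ _ _)
  have h3 : ((s : ℝ) * pc n q (m + s)) ^ 2 ≤ μ ^ 2 := pow_le_pow_left₀ h2 h1 2
  have h4 : 0 ≤ 1 - pc n q m := by linarith [pc_le_one n q m]
  have h5 : (1 - pc n q m) * μ ^ 2
      = E (fun F : Fin m → Ed n => ind (¬ (SolC F : Set (Co n q)).Nonempty) * μ ^ 2) := by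
    rw [E_mul_right]
    congr 1
    simp only [ind_not]
    rw [E_sub, E_const]
    rfl
  calc _ ≤ (1 - pc n q m) * μ ^ 2 := mul_le_mul_of_nonneg_left h3 h4
    _ = _ := h5
    _ ≤ _ := by
        refine E_mono fun F => ?_
        by_cases hF : (SolC F : Set (Co n q)).Nonempty
        · rw [ind_false (not_not.2 hF), zero_mul]
          exact sq_nonneg _
        · rw [ind_true hF, one_mul, Set.not_nonempty_iff_eq_empty.1 hF, RC_empty]
          rw [zero_sub, neg_sq]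

theorem sharp_gen (s n q m : ℕ) (lam : ℝ) (hn : 2 ≤ n) (hs1 : 1 ≤ s) (hs : s ≤ n)
    (hlam : 0 < lam) (hq : 3 ≤ q) :
    (1 - pc n q m) * ((s : ℝ) * pc n q (m + s)) ^ 2 ≤
      m * (18 * (lam + 2 * (s : ℝ) ^ 2 * (30 ^ 3 * (Real.sqrt (3 * s) / lam) ^ 3 * 250 *
        (1 + 500 / ((n : ℝ) - 1)) ^ m)) + 24 * (s : ℝ) ^ 3 / (n : ℝ) ^ 2) := by
  rcases m with _ | M
  · rw [pc_zero n q (by omega)]
    simp
  · refine (sh_var_lower s n q (M + 1) hn).trans
      ((sh_var_upper s n q M lam hn hs1 hs hlam hq).trans ?_)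
    unfold shB
    push_cast
    have hn1 : (0 : ℝ) < (n : ℝ) - 1 := by
      have : (2 : ℝ) ≤ n := by exact_mod_cast hn
      linarith
    have h500 : 1 ≤ 1 + 500 / ((n : ℝ) - 1) := by
      have : 0 < 500 / ((n : ℝ) - 1) := by positivity
      linarith
    have hpow : (1 + 500 / ((n : ℝ) - 1)) ^ M ≤ (1 + 500 / ((n : ℝ) - 1)) ^ (M + 1) :=
      pow_le_pow_right₀ h500 (by omega)
    gcongr

end Pool.Agent.H320R2.CT
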