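import Pool.Agent.H320R2.CT.Defs

/-! Task TO: probability that a random edge touches a vertex -/

set_option autoImplicit false

namespace Pool.Agent.H320R2.CT

open Finset Pool.Agent.H999R2.KSat

theorem to_sum {n : ℕ} (f : Fin n × Fin n → ℝ) :
    ∑ e : Ed n, f e.1 = ∑ a, ∑ b, if a ≠ b then f (a, b) else 0 := by
  have h : ∑ e ∈ univ.filter (fun e : Fin n × Fin n => e.1 ≠ e.2), f e = ∑ e : Ed n, f e.1 :=
    Finset.sum_subtype (p := fun e : Fin n × Fin n => e.1 ≠ e.2)
    (univ.filter (fun e : Fin n × Fin n => e.1 ≠ e.2)) (by simp) f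
  rw [← h, Finset.sum_filter, Fintype.sum_prod_type]

theorem to_card (n : ℕ) : (Fintype.card (Ed n) : ℝ) = (n : ℝ) * ((n : ℝ) - 1) := by
  have h := to_sum (n := n) (fun _ => (1 : ℝ))
  rw [Finset.sum_const, Finset.card_univ, nsmul_eq_mul, mul_one] at h
  rw [h]
  have h2 : ∀ a : Fin n, ∑ b : Fin n, (if a ≠ b then (1 : ℝ) else 0) = (n : ℝ) - 1 := by
    intro a
    have h3 : ∀ b : Fin n, (if a ≠ b then (1 : ℝ) else 0) = 1 - (if a = b then 1 else 0) := by
      intro b
      by_cases hab : a = b <;> simp [hab]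
    rw [Finset.sum_congr rfl fun b _ => h3 b, Finset.sum_sub_distrib, Finset.sum_ite_eq]
    simp
  rw [Finset.sum_congr rfl fun a _ => h2 a]
  simp
  ring

theorem to_nonempty {n : ℕ} (hn : 2 ≤ n) : Nonempty (Ed n) :=
  ⟨⟨(⟨0, by omega⟩, ⟨1, by omega⟩), by simp⟩⟩

theorem to_E {n : ℕ} (f : Fin n × Fin n → ℝ) :
    E (fun e : Ed n => f e.1) =
      (∑ a, ∑ b, if a ≠ b then f (a, b) else 0) / ((n : ℝ) * ((n : ℝ) - 1)) := by
  unfold E
  rw [to_sum, to_card]

theorem to_touch {n : ℕ} (i : Fin n) (g : Fin n → ℝ) :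
    (∑ a, ∑ b, if a ≠ b then ind (a = i ∨ b = i) * g (if a = i then b else a) else 0) =
      2 * ∑ w, if w ≠ i then g w else 0 := by
  have hpt : ∀ a b : Fin n,
      (if a ≠ b then ind (a = i ∨ b = i) * g (if a = i then b else a) else 0) =
      (if a = i then (if b ≠ i then g b else 0) else 0) +
      (if b = i then (if a ≠ i then g a else 0) else 0) := by
    intro a b
    by_cases ha : a = i
    · subst ha
      by_cases hb : b = a
      · subst hb; simp
      · have hb' : a ≠ b := fun h => hb h.symm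
        simp [hb, hb', ind]
    · by_cases hb : b = i
      · subst hb
        simp [ha, ind]
      · simp [ha, hb, ind]
  rw [Finset.sum_congr rfl fun a _ => Finset.sum_congr rfl fun b _ => hpt a b]
  simp only [Finset.sum_add_distrib]
  rw [two_mul]
  congr 1
  · rw [Finset.sum_comm]
    refine Finset.sum_congr rfl fun b _ => ?_
    rw [Finset.sum_ite_eq']
    simp
  · refine Finset.sum_congr rfl fun a _ => ?_
    rw [Finset.sum_ite_eq']
    simp

theorem touch_le {n : ℕ} (hn : 2 ≤ n) (i : Fin n) (g : Fin n → ℝ) (hg : ∀ w, 0 ≤ g w) :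
    E (fun e : Ed n => ind (tc i e) * g (oth i e)) ≤ 2 / ((n : ℝ) - 1) * E g := by
  have hn' : (2 : ℝ) ≤ n := by exact_mod_cast hn
  have h1 : E (fun e : Ed n => ind (tc i e) * g (oth i e)) =
      (2 * ∑ w, if w ≠ i then g w else 0) / ((n : ℝ) * ((n : ℝ) - 1)) := by
    rw [← to_touch]
    exact to_E (fun p => ind (p.1 = i ∨ p.2 = i) * g (if p.1 = i then p.2 else p.1))
  have h2 : ∑ w, (if w ≠ i then g w else 0) ≤ ∑ w, g w := by
    refine Finset.sum_le_sum fun w _ => ?_
    split_ifs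
    · exact le_rfl
    · exact hg w
  rw [h1]
  unfold E
  rw [Fintype.card_fin]
  have hn1 : 0 < (n : ℝ) - 1 := by linarith
  have hn0 : 0 < (n : ℝ) := by linarith
  calc (2 * ∑ w, if w ≠ i then g w else 0) / ((n : ℝ) * ((n : ℝ) - 1))
      ≤ (2 * ∑ w, g w) / ((n : ℝ) * ((n : ℝ) - 1)) := by
        apply div_le_div_of_nonneg_right _ (by positivity)
        linarith
    _ = 2 / ((n : ℝ) - 1) * ((∑ w, g w) / n) := by
        field_simp

theorem touch_prob {n : ℕ} (hn : 2 ≤ n) (i : Fin n) :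
    E (fun e : Ed n => ind (tc i e)) = 2 / (n : ℝ) := by
  have hn' : (2 : ℝ) ≤ n := by exact_mod_cast hn
  have h1 : E (fun e : Ed n => ind (tc i e)) =
      (2 * ∑ w : Fin n, if w ≠ i then (1 : ℝ) else 0) / ((n : ℝ) * ((n : ℝ) - 1)) := by
    rw [← to_touch i (fun _ => (1 : ℝ))]
    have h3 := to_E (n := n) (fun p => ind (p.1 = i ∨ p.2 = i) * 1)
    rw [← h3]
    refine E_congr fun e => ?_
    rw [mul_one]
    rfl
  have h2 : ∑ w : Fin n, (if w ≠ i then (1 : ℝ) else 0) = (n : ℝ) - 1 := by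
    have h3 : ∀ b : Fin n, (if b ≠ i then (1 : ℝ) else 0) = 1 - (if b = i then 1 else 0) := by
      intro b
      by_cases hab : b = i <;> simp [hab]
    rw [Finset.sum_congr rfl fun b _ => h3 b, Finset.sum_sub_distrib, Finset.sum_ite_eq']
    simp
  rw [h1, h2]
  have hn1 : (n : ℝ) - 1 ≠ 0 := by linarith
  have hn0 : (n : ℝ) ≠ 0 := by linarith
  field_simp

theorem touch_two {n : ℕ} (hn : 2 ≤ n) (i j : Fin n) (hij : i ≠ j) :
    E (fun e : Ed n => ind (tc i e ∧ tc j e)) ≤ 4 / (n : ℝ) ^ 2 := by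
  have hn' : (2 : ℝ) ≤ n := by exact_mod_cast hn
  have h1 : E (fun e : Ed n => ind (tc i e ∧ tc j e)) =
      (∑ a, ∑ b, if a ≠ b then ind ((a = i ∨ b = i) ∧ (a = j ∨ b = j)) else 0) /
        ((n : ℝ) * ((n : ℝ) - 1)) :=
    to_E (fun p => ind ((p.1 = i ∨ p.2 = i) ∧ (p.1 = j ∨ p.2 = j)))
  have h2 : ∑ a : Fin n, ∑ b : Fin n,
      (if a ≠ b then ind ((a = i ∨ b = i) ∧ (a = j ∨ b = j)) else 0) ≤ 2 := by
    have hpt : ∀ a b : Fin n,
        (if a ≠ b then ind ((a = i ∨ b = i) ∧ (a = j ∨ b = j)) else 0) ≤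
        (if a = i then (if b = j then (1 : ℝ) else 0) else 0) +
        (if a = j then (if b = i then (1 : ℝ) else 0) else 0) := by
      intro a b
      by_cases h1 : a = i
      · have h2 : a ≠ j := by rw [h1]; exact hij
        by_cases h3 : b = j
        · simp only [h1, h3]
          (split_ifs; simp [ind])
        · simp [h2, h3, ind]
      · by_cases h2 : a = j
        · by_cases h3 : b = i
          · simp only [h2, h3]
            split_ifs <;> simp [ind]
          · simp [h1, h3, ind]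
        · by_cases h3 : b = i
          · have h4 : b ≠ j := by rw [h3]; exact hij
            simp [h1, h2, h4, ind]
          · simp [h1, h2, h3, ind]
    calc _ ≤ ∑ a : Fin n, ∑ b : Fin n,
        ((if a = i then (if b = j then (1 : ℝ) else 0) else 0) +
        (if a = j then (if b = i then (1 : ℝ) else 0) else 0)) :=
          Finset.sum_le_sum fun a _ => Finset.sum_le_sum fun b _ => hpt a b
      _ = 2 := by
        have e1 : ∀ a i j : Fin n, ∑ b : Fin n, (if a = i then (if b = j then (1 : ℝ) else 0) else 0)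
            = if a = i then 1 else 0 := by
          intro a i j
          split_ifs
          · rw [Finset.sum_ite_eq']; simp
          · simp
        simp only [Finset.sum_add_distrib, e1, Finset.sum_ite_eq', Finset.mem_univ, if_true]
        norm_num
  rw [h1]
  have hn1 : 0 < (n : ℝ) - 1 := by linarith
  have hn0 : 0 < (n : ℝ) := by linarith
  calc _ ≤ 2 / ((n : ℝ) * ((n : ℝ) - 1)) := div_le_div_of_nonneg_right h2 (by positivity)
    _ ≤ 4 / (n : ℝ) ^ 2 := by
      rw [div_le_div_iff₀ (by positivity) (by positivity)]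
      nlinarith

theorem E_edge_le {n : ℕ} (hn : 2 ≤ n) (F : Fin n → Fin n → ℝ) (hF : ∀ i j, 0 ≤ F i j) :
    E (fun e : Ed n => F e.1.1 e.1.2) ≤ 2 * E (fun i => E (fun j => F i j)) := by
  have hn' : (2 : ℝ) ≤ n := by exact_mod_cast hn
  have h1 : E (fun e : Ed n => F e.1.1 e.1.2) =
      (∑ a, ∑ b, if a ≠ b then F a b else 0) / ((n : ℝ) * ((n : ℝ) - 1)) :=
    to_E (fun p => F p.1 p.2)
  have h2 : ∑ a, ∑ b, (if a ≠ b then F a b else 0) ≤ ∑ a, ∑ b, F a b := by
    refine Finset.sum_le_sum fun a _ => Finset.sum_le_sum fun b _ => ?_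
    split_ifs
    · exact le_rfl
    · exact hF a b
  have h3 : 0 ≤ ∑ a, ∑ b, F a b := Finset.sum_nonneg fun a _ => Finset.sum_nonneg fun b _ => hF a b
  rw [h1]
  unfold E
  rw [Fintype.card_fin, ← Finset.sum_div]
  have hn1 : 0 < (n : ℝ) - 1 := by linarith
  have hn0 : 0 < (n : ℝ) := by linarith
  calc _ ≤ (∑ a, ∑ b, F a b) / ((n : ℝ) * ((n : ℝ) - 1)) :=
        div_le_div_of_nonneg_right h2 (by positivity)
    _ ≤ 2 * ((∑ a, ∑ b, F a b) / (n : ℝ) / n) := by
      rw [div_div, ← mul_div_assoc, div_le_div_iff₀ (by positivity) (by positivity)]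
      have : (n : ℝ) * n ≤ 2 * (n * (n - 1)) := by nlinarith
      nlinarith

theorem to_marg {n s : ℕ} (hn : 2 ≤ n) (l : Fin s) (f : Ed n → ℝ) :
    E (fun W : Fin s → Ed n => f (W l)) = E f := by
  have := to_nonempty hn
  rw [E_update l]
  have h : ∀ F : Fin s → Ed n, E (fun y : Ed n => f (Function.update F l y l)) = E f := by
    intro F
    refine E_congr fun y => ?_
    rw [Function.update_self]
  rw [E_congr h, E_const]

/-- both endpoints have been touched by probes -/
theorem both_touched {n : ℕ} (hn : 2 ≤ n) (s : ℕ) (i j : Fin n) (hij : i ≠ j) :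
    E (fun W : Fin s → Ed n => ∑ u ∈ range s,
      ind ((∃ l : Fin s, l.val < u ∧ tc i (W l)) ∧ (∃ l : Fin s, l.val < u ∧ tc j (W l)))) ≤
      8 * (s : ℝ) ^ 3 / (n : ℝ) ^ 2 := by
  have hn' : (2 : ℝ) ≤ n := by exact_mod_cast hn
  have := to_nonempty hn
  have hpair : ∀ l l' : Fin s,
      E (fun W : Fin s → Ed n => ind (tc i (W l) ∧ tc j (W l'))) ≤ 4 / (n : ℝ) ^ 2 := by
    intro l l'
    by_cases hl : l = l'
    · subst hl
      rw [to_marg hn l (fun e => ind (tc i e ∧ tc j e))]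
      exact touch_two hn i j hij
    · rw [E_update l]
      have h : ∀ F : Fin s → Ed n, E (fun y : Ed n =>
          ind (tc i (Function.update F l y l) ∧ tc j (Function.update F l y l'))) =
          2 / (n : ℝ) * ind (tc j (F l')) := by
        intro F
        rw [← touch_prob hn i, ← E_mul_right]
        refine E_congr fun y => ?_
        rw [Function.update_self, Function.update_of_ne (Ne.symm hl), ind_and]
      rw [E_congr h, E_mul_left, to_marg hn l' (fun e => ind (tc j e)), touch_prob hn j]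
      apply le_of_eq
      have hn0 : (n : ℝ) ≠ 0 := by linarith
      field_simp
      norm_num
  have hmain : ∀ W : Fin s → Ed n, ∑ u ∈ range s,
      ind ((∃ l : Fin s, l.val < u ∧ tc i (W l)) ∧ (∃ l : Fin s, l.val < u ∧ tc j (W l))) ≤
      (s : ℝ) * ∑ l : Fin s, ∑ l' : Fin s, ind (tc i (W l) ∧ tc j (W l')) := by
    intro W
    have h1 : ∀ u ∈ range s,
        ind ((∃ l : Fin s, l.val < u ∧ tc i (W l)) ∧ (∃ l : Fin s, l.val < u ∧ tc j (W l))) ≤
        ∑ l : Fin s, ∑ l' : Fin s, ind (tc i (W l) ∧ tc j (W l')) := by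
      intro u _
      calc _ ≤ ind (∃ l : Fin s, ∃ l' : Fin s, tc i (W l) ∧ tc j (W l')) := by
            apply ind_mono
            rintro ⟨⟨l, _, hl⟩, ⟨l', _, hl'⟩⟩
            exact ⟨l, l', hl, hl'⟩
        _ ≤ ∑ l : Fin s, ind (∃ l' : Fin s, tc i (W l) ∧ tc j (W l')) := ind_exists_le _
        _ ≤ ∑ l : Fin s, ∑ l' : Fin s, ind (tc i (W l) ∧ tc j (W l')) :=
            Finset.sum_le_sum fun l _ => ind_exists_le _
    calc _ ≤ ∑ u ∈ range s, ∑ l : Fin s, ∑ l' : Fin s, ind (tc i (W l) ∧ tc j (W l')) :=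
          Finset.sum_le_sum h1
      _ = _ := by rw [Finset.sum_const, Finset.card_range, nsmul_eq_mul]
  refine (E_mono hmain).trans ?_
  rw [E_mul_left, E_sum]
  have h4 : ∑ l : Fin s, E (fun W : Fin s → Ed n => ∑ l' : Fin s, ind (tc i (W l) ∧ tc j (W l'))) ≤
      ∑ _l : Fin s, ∑ _l' : Fin s, 4 / (n : ℝ) ^ 2 := by
    refine Finset.sum_le_sum fun l _ => ?_
    rw [E_sum]
    exact Finset.sum_le_sum fun l' _ => hpair l l'
  simp only [Finset.sum_const, Finset.card_univ, Fintype.card_fin, nsmul_eq_mul] at h4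
  have hs0 : (0 : ℝ) ≤ s := Nat.cast_nonneg s
  have hn0 : 0 < (n : ℝ) := by linarith
  calc (s : ℝ) * ∑ l : Fin s, E (fun W : Fin s → Ed n =>
        ∑ l' : Fin s, ind (tc i (W l) ∧ tc j (W l')))
      ≤ s * (s * (s * (4 / (n : ℝ) ^ 2))) := mul_le_mul_of_nonneg_left h4 hs0
    _ = 4 * (s : ℝ) ^ 3 / (n : ℝ) ^ 2 := by ring
    _ ≤ 8 * (s : ℝ) ^ 3 / (n : ℝ) ^ 2 := by
        apply div_le_div_of_nonneg_right _ (by positivity)
        have : 0 ≤ (s : ℝ) ^ 3 := by positivity
        linarith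

end Pool.Agent.H320R2.CT
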