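import Pool.Agent.H320R2.CT.ST
import Pool.Agent.H320R2.CT.RM
import Pool.Agent.H320R2.CT.RU
import Pool.Agent.H320R2.CT.TO
import Pool.Agent.H320R2.CT.DR

/-! Task SI: random stars of a random graph, induction over the edges. -/

set_option autoImplicit false

namespace Pool.Agent.H320R2.CT

open Finset Pool.Agent.H999R2.KSat

theorem si_Base_cons_tc {n q M : ℕ} (i : Fin n) (e : Ed n) (G : Fin M → Ed n) (he : tc i e) :
    (Base i (Fin.cons e G : Fin (M + 1) → Ed n) : Set (Co n q)) = Base i G := by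
  ext σ
  simp only [Base, Set.mem_ofPred_eq]
  rw [Fin.forall_fin_succ]
  simp only [Fin.cons_zero, Fin.cons_succ]
  constructor
  · exact fun h => h.2
  · exact fun h => ⟨fun h' => absurd he h', h⟩

theorem si_Base_cons_ntc {n q M : ℕ} (i : Fin n) (e : Ed n) (G : Fin M → Ed n)
    (he : ¬ tc i e) (B : Set (Co n q)) :
    B ∩ (Base i (Fin.cons e G : Fin (M + 1) → Ed n) : Set (Co n q)) =
      (B ∩ {σ | pr σ e}) ∩ Base i G := by
  ext σ
  simp only [Base, Set.mem_inter_iff, Set.mem_ofPred_eq]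
  rw [Fin.forall_fin_succ]
  simp only [Fin.cons_zero, Fin.cons_succ]
  constructor
  · rintro ⟨h1, h2, h3⟩
    exact ⟨⟨h1, h2 he⟩, h3⟩
  · rintro ⟨⟨h1, h2⟩, h3⟩
    exact ⟨h1, fun _ => h2, h3⟩

theorem si_Nb_cons_tc {n M : ℕ} (i : Fin n) (e : Ed n) (G : Fin M → Ed n) (he : tc i e) :
    Nb i (Fin.cons e G : Fin (M + 1) → Ed n) = insert (oth i e) (Nb i G) := by
  ext w
  rw [mem_insert, dr_mem_Nb, dr_mem_Nb, Fin.exists_fin_succ]
  simp only [Fin.cons_zero, Fin.cons_succ]
  constructor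
  · rintro (⟨_, h⟩ | h)
    · exact Or.inl h
    · exact Or.inr h
  · rintro (h | h)
    · exact Or.inl ⟨he, h⟩
    · exact Or.inr h

theorem si_Nb_cons_ntc {n M : ℕ} (i : Fin n) (e : Ed n) (G : Fin M → Ed n) (he : ¬ tc i e) :
    Nb i (Fin.cons e G : Fin (M + 1) → Ed n) = Nb i G := by
  ext w
  rw [dr_mem_Nb, dr_mem_Nb, Fin.exists_fin_succ]
  simp only [Fin.cons_zero, Fin.cons_succ]
  constructor
  · rintro (⟨h, _⟩ | h)
    · exact absurd h he
    · exact h
  · exact fun h => Or.inr h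

theorem si_SymC {n q : ℕ} (B : Set (Co n q)) (hB : SymC B) (e : Ed n) :
    SymC (B ∩ {σ | pr σ e}) := by
  intro π σ hσ
  refine ⟨hB π σ hσ.1, ?_⟩
  have h := hσ.2
  simp only [Set.mem_ofPred_eq, pr] at h ⊢
  exact fun h' => h (π.injective h')

theorem si_Base_zero {n q : ℕ} (i : Fin n) (G : Fin 0 → Ed n) (B : Set (Co n q)) :
    B ∩ Base i G = B := by
  ext σ
  simp only [Base, Set.mem_inter_iff, Set.mem_ofPred_eq]
  exact ⟨fun h => h.1, fun h => ⟨h, fun j => j.elim0⟩⟩

theorem si_Nb_zero {n : ℕ} (i : Fin n) (G : Fin 0 → Ed n) : Nb i G = ∅ := by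
  ext w
  rw [dr_mem_Nb]
  constructor
  · rintro ⟨j, _⟩
    exact j.elim0
  · intro h
    simp at h

theorem si_image_cons {n d : ℕ} (w : Fin n) (v : Fin d → Fin n) (S : Finset (Fin n)) :
    univ.image (Fin.cons w v : Fin (d + 1) → Fin n) ∪ S = univ.image v ∪ insert w S := by
  ext x
  simp only [mem_union, mem_image, mem_univ, true_and, mem_insert]
  rw [Fin.exists_fin_succ]
  simp only [Fin.cons_zero, Fin.cons_succ]
  constructor
  · rintro ((h | h) | h)
    · exact Or.inr (Or.inl h.symm)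
    · exact Or.inl h
    · exact Or.inr (Or.inr h)
  · rintro (h | h | h)
    · exact Or.inl (Or.inr h)
    · exact Or.inl (Or.inl h.symm)
    · exact Or.inr h

theorem star_graph {n q : ℕ} (s : ℕ) (lam : ℝ) (hn : 2 ≤ n) (hs1 : 1 ≤ s) (hs : s ≤ n)
    (hlam : 0 < lam) (hq : 3 ≤ q) (i : Fin n) (c0 : Fin q) (M : ℕ) :
    ∀ (d : ℕ) (B : Set (Co n q)), SymC B →
      E (fun v : Fin d → Fin n => E (fun G : Fin M → Ed n =>
        ind (lam ≤ rho s i c0 (B ∩ Base i G) ∅ -
          rho s i c0 (B ∩ Base i G) (univ.image v ∪ Nb i G)))) ≤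
      30 ^ 3 * (Real.sqrt (3 * s) / lam) ^ 3 * 250 ^ d * (1 + 500 / ((n : ℝ) - 1)) ^ M := by
  have hne : Nonempty (Fin n) := ⟨i⟩
  have hs0 : (0 : ℝ) < s := by exact_mod_cast hs1
  have hL : 0 < Real.sqrt (3 * s) := Real.sqrt_pos.2 (by positivity)
  have hn1 : (0 : ℝ) < (n : ℝ) - 1 := by
    have : (2 : ℝ) ≤ n := by exact_mod_cast hn
    linarith
  induction M with
  | zero =>
    intro d B hB
    have h1 := star_bound (rho s i c0 B) (Real.sqrt (3 * s)) lam hL hlam
      (fun S T h => rho_mono s i c0 B S T h) (fun S => rho_step s hn hs i c0 B S)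
      (fun S hS => rho_small s i c0 B hq hB S hS) d
    rw [pow_zero, mul_one]
    refine le_trans (E_mono fun v => ?_) (h1.trans (le_of_eq (by ring)))
    refine E_le_of_nonneg (ind_nonneg _) fun G => ?_
    rw [si_Base_zero, si_Nb_zero, union_empty]
  | succ M ih =>
    intro d B hB
    set bd : ℕ → ℝ := fun d => 30 ^ 3 * (Real.sqrt (3 * s) / lam) ^ 3 * 250 ^ d *
      (1 + 500 / ((n : ℝ) - 1)) ^ M with hbd
    have hbd0 : ∀ d, 0 ≤ bd d := by
      intro d
      rw [hbd]
      positivity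
    -- pointwise
    have hpt : ∀ (v : Fin d → Fin n) (e : Ed n) (G : Fin M → Ed n),
        ind (lam ≤ rho s i c0 (B ∩ Base i (Fin.cons e G : Fin (M + 1) → Ed n)) ∅ -
          rho s i c0 (B ∩ Base i (Fin.cons e G : Fin (M + 1) → Ed n))
            (univ.image v ∪ Nb i (Fin.cons e G : Fin (M + 1) → Ed n))) ≤
        ind (lam ≤ rho s i c0 ((B ∩ {σ | pr σ e}) ∩ Base i G) ∅ -
          rho s i c0 ((B ∩ {σ | pr σ e}) ∩ Base i G) (univ.image v ∪ Nb i G)) +
        ind (tc i e) * ind (lam ≤ rho s i c0 (B ∩ Base i G) ∅ -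
          rho s i c0 (B ∩ Base i G) (univ.image v ∪ insert (oth i e) (Nb i G))) := by
      intro v e G
      by_cases he : tc i e
      · rw [si_Base_cons_tc i e G he, si_Nb_cons_tc i e G he, ind_true he, one_mul]
        have := ind_nonneg (lam ≤ rho s i c0 ((B ∩ {σ | pr σ e}) ∩ Base i G) ∅ -
          rho s i c0 ((B ∩ {σ | pr σ e}) ∩ Base i G) (univ.image v ∪ Nb i G))
        linarith
      · rw [si_Base_cons_ntc i e G he B, si_Nb_cons_ntc i e G he, ind_false he, zero_mul, add_zero]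
    -- first part
    have hfirst : E (fun v : Fin d → Fin n => E (fun e : Ed n => E (fun G : Fin M → Ed n =>
        ind (lam ≤ rho s i c0 ((B ∩ {σ | pr σ e}) ∩ Base i G) ∅ -
          rho s i c0 ((B ∩ {σ | pr σ e}) ∩ Base i G) (univ.image v ∪ Nb i G))))) ≤ bd d := by
      rw [E_comm]
      exact E_le_of_nonneg (hbd0 d) fun e => ih d _ (si_SymC B hB e)
    -- second part
    have hsecond : E (fun v : Fin d → Fin n => E (fun e : Ed n => E (fun G : Fin M → Ed n =>
        ind (tc i e) * ind (lam ≤ rho s i c0 (B ∩ Base i G) ∅ -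
          rho s i c0 (B ∩ Base i G) (univ.image v ∪ insert (oth i e) (Nb i G)))))) ≤
        500 / ((n : ℝ) - 1) * bd d := by
      set g : (Fin d → Fin n) → Fin n → ℝ := fun v w => E (fun G : Fin M → Ed n =>
        ind (lam ≤ rho s i c0 (B ∩ Base i G) ∅ -
          rho s i c0 (B ∩ Base i G) (univ.image v ∪ insert w (Nb i G)))) with hg
      have hg0 : ∀ v w, 0 ≤ g v w := fun v w => E_nonneg fun G => ind_nonneg _
      have h1 : ∀ v : Fin d → Fin n, E (fun e : Ed n => E (fun G : Fin M → Ed n =>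
        ind (tc i e) * ind (lam ≤ rho s i c0 (B ∩ Base i G) ∅ -
          rho s i c0 (B ∩ Base i G) (univ.image v ∪ insert (oth i e) (Nb i G))))) ≤
          2 / ((n : ℝ) - 1) * E (g v) := by
        intro v
        refine le_trans (le_of_eq ?_) (touch_le hn i (g v) (hg0 v))
        refine E_congr fun e => ?_
        rw [E_mul_left]
      refine (E_mono h1).trans ?_
      rw [E_mul_left]
      have h2 : E (fun v : Fin d → Fin n => E (g v)) ≤ bd (d + 1) := by
        have h3 := ih (d + 1) B hB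
        rw [E_cons] at h3
        rw [E_comm]
        refine le_trans (le_of_eq ?_) h3
        refine E_congr fun w => E_congr fun v => ?_
        refine E_congr fun G => ?_
        rw [si_image_cons]
      calc 2 / ((n : ℝ) - 1) * E (fun v : Fin d → Fin n => E (g v)) ≤
          2 / ((n : ℝ) - 1) * bd (d + 1) := mul_le_mul_of_nonneg_left h2 (by positivity)
        _ = 500 / ((n : ℝ) - 1) * bd d := by
            rw [hbd]
            simp only
            rw [pow_succ]
            ring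
    -- total
    have htot : E (fun v : Fin d → Fin n => E (fun G : Fin (M + 1) → Ed n =>
        ind (lam ≤ rho s i c0 (B ∩ Base i G) ∅ -
          rho s i c0 (B ∩ Base i G) (univ.image v ∪ Nb i G)))) ≤
        bd d + 500 / ((n : ℝ) - 1) * bd d := by
      refine le_trans ?_ (add_le_add hfirst hsecond)
      rw [← E_add]
      refine E_mono fun v => ?_
      rw [E_cons, ← E_add]
      refine E_mono fun e => ?_
      rw [← E_add]
      exact E_mono fun G => hpt v e G
    refine htot.trans (le_of_eq ?_)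
    rw [hbd]
    simp only
    rw [pow_succ (1 + 500 / ((n : ℝ) - 1)) M]
    ring

end Pool.Agent.H320R2.CT
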