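import Pool.Agent.H320R2.CT.Defs

/-!
# Second moments of sums over random samples (task SMO of helper320, by helper301)
-/

set_option autoImplicit false

namespace Pool.Agent.H320R2.CT

open Finset Filter Pool.Agent.H999R2.KSat

theorem smo_coord {V : Type} [Fintype V] [Nonempty V] (T : ℕ) (f : V → ℝ) (k : Fin T) :
    E (fun x : Fin T → V => f (x k)) = E f := by
  rw [E_update k]
  simp only [Function.update_self]
  exact E_const _

theorem smo_first {V : Type} [Fintype V] [Nonempty V] (T : ℕ) (f : V → ℝ) :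
    E (fun x : Fin T → V => ∑ k, f (x k)) = T * E f := by
  rw [E_sum]
  simp only [smo_coord]
  simp

theorem smo_exact {V : Type} [Fintype V] [Nonempty V] (T : ℕ) (f : V → ℝ) :
    E (fun x : Fin T → V => (∑ k, f (x k)) ^ 2) =
      T * E (fun a => f a ^ 2) + (T : ℝ) * (T - 1) * (E f) ^ 2 := by
  induction T with
  | zero => simp [E]
  | succ T ih =>
    rw [E_cons]
    have h1 : ∀ a : V, E (fun G : Fin T → V => (∑ k, f ((Fin.cons a G : Fin (T + 1) → V) k)) ^ 2) =
        f a ^ 2 + (2 * (T * E f)) * f a +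
          (T * E (fun a => f a ^ 2) + (T : ℝ) * (T - 1) * (E f) ^ 2) := by
      intro a
      have h2 : ∀ G : Fin T → V, (∑ k, f ((Fin.cons a G : Fin (T + 1) → V) k)) ^ 2 =
          f a ^ 2 + (2 * f a) * (∑ k, f (G k)) + (∑ k, f (G k)) ^ 2 := by
        intro G
        rw [Fin.sum_univ_succ]
        simp only [Fin.cons_zero, Fin.cons_succ]
        ring
      rw [E_congr h2, E_add, E_add, E_const, E_mul_left, smo_first, ih]
      ring
    rw [E_congr h1, E_add, E_add, E_const, E_mul_left]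
    push_cast
    ring

theorem sm_one {V : Type} [Fintype V] [Nonempty V] (T : ℕ) (f : V → ℝ) :
    E (fun x : Fin T → V => (∑ k, f (x k)) ^ 2) ≤ T * E (fun a => f a ^ 2) + (T : ℝ) ^ 2 * (E f) ^ 2 := by
  rw [smo_exact]
  have h : 0 ≤ (T : ℝ) * (E f) ^ 2 := by positivity
  nlinarith [h]

theorem sm_two {V : Type} [Fintype V] [Nonempty V] (T : ℕ) (g : V → V → ℝ) :
    E (fun x : Fin T → V => E (fun y : Fin T → V => (∑ k, ∑ l, g (x k) (y l)) ^ 2)) ≤
      (T : ℝ) ^ 2 * E (fun a => E (fun b => g a b ^ 2)) +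
      (T : ℝ) ^ 3 * E (fun a => (E (fun b => g a b)) ^ 2) +
      (T : ℝ) ^ 3 * E (fun b => (E (fun a => g a b)) ^ 2) +
      (T : ℝ) ^ 4 * (E (fun a => E (fun b => g a b))) ^ 2 := by
  rw [E_comm]
  -- for fixed y
  have h1 : ∀ y : Fin T → V, E (fun x : Fin T → V => (∑ k, ∑ l, g (x k) (y l)) ^ 2) ≤
      T * E (fun a => (∑ l, g a (y l)) ^ 2) + (T : ℝ) ^ 2 * (∑ l, E (fun a => g a (y l))) ^ 2 := by
    intro y
    have := sm_one T (fun a => ∑ l, g a (y l))
    rw [E_sum] at this
    exact this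
  refine (E_mono h1).trans ?_
  rw [E_add, E_mul_left, E_mul_left, E_comm]
  have h2 : E (fun a : V => E (fun y : Fin T → V => (∑ l, g a (y l)) ^ 2)) ≤
      T * E (fun a => E (fun b => g a b ^ 2)) + (T : ℝ) ^ 2 * E (fun a => (E (fun b => g a b)) ^ 2) := by
    refine (E_mono fun a => sm_one T (g a)).trans ?_
    rw [E_add, E_mul_left, E_mul_left]
  have h3 : E (fun y : Fin T → V => (∑ l, E (fun a => g a (y l))) ^ 2) ≤
      T * E (fun b => (E (fun a => g a b)) ^ 2) +
        (T : ℝ) ^ 2 * (E (fun a => E (fun b => g a b))) ^ 2 := by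
    have := sm_one T (fun b => E (fun a => g a b))
    rw [E_comm] at this
    rw [E_comm (fun a b => g a b)]
    rw [E_comm] at this
    exact this
  have hT : (0 : ℝ) ≤ T := Nat.cast_nonneg T
  have h2' := mul_le_mul_of_nonneg_left h2 hT
  have h3' := mul_le_mul_of_nonneg_left h3 (sq_nonneg (T : ℝ))
  nlinarith [h2', h3']

theorem sm_three {V : Type} [Fintype V] [Nonempty V] (T : ℕ) (g : V → V → V → ℝ) :
    E (fun x : Fin T → V => E (fun y : Fin T → V => E (fun z : Fin T → V =>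
      (∑ k, ∑ l, ∑ m, g (x k) (y l) (z m)) ^ 2))) ≤
      (T : ℝ) ^ 3 * E (fun a => E (fun b => E (fun c => g a b c ^ 2))) +
      (T : ℝ) ^ 4 * (E (fun a => E (fun b => (E (fun c => g a b c)) ^ 2)) +
        E (fun a => E (fun c => (E (fun b => g a b c)) ^ 2)) +
        E (fun b => E (fun c => (E (fun a => g a b c)) ^ 2))) +
      (T : ℝ) ^ 5 * (E (fun a => (E (fun b => E (fun c => g a b c))) ^ 2) +
        E (fun b => (E (fun a => E (fun c => g a b c))) ^ 2) +
        E (fun c => (E (fun a => E (fun b => g a b c))) ^ 2)) +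
      (T : ℝ) ^ 6 * (E (fun a => E (fun b => E (fun c => g a b c)))) ^ 2 := by
  -- move the average over x inside
  have h0 : E (fun x : Fin T → V => E (fun y : Fin T → V => E (fun z : Fin T → V =>
      (∑ k, ∑ l, ∑ m, g (x k) (y l) (z m)) ^ 2))) =
      E (fun y : Fin T → V => E (fun z : Fin T → V => E (fun x : Fin T → V =>
      (∑ k, ∑ l, ∑ m, g (x k) (y l) (z m)) ^ 2))) := by
    rw [E_comm]
    refine E_congr fun y => ?_
    rw [E_comm]
  rw [h0]
  have h1 : ∀ y z : Fin T → V, E (fun x : Fin T → V => (∑ k, ∑ l, ∑ m, g (x k) (y l) (z m)) ^ 2) ≤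
      T * E (fun a => (∑ l, ∑ m, g a (y l) (z m)) ^ 2) +
        (T : ℝ) ^ 2 * (∑ l, ∑ m, E (fun a => g a (y l) (z m))) ^ 2 := by
    intro y z
    have := sm_one T (fun a => ∑ l, ∑ m, g a (y l) (z m))
    rw [E_sum] at this
    have h : ∀ l : Fin T, E (fun a => ∑ m, g a (y l) (z m)) = ∑ m, E (fun a => g a (y l) (z m)) := by
      intro l; rw [E_sum]
    rw [Finset.sum_congr rfl (fun l _ => h l)] at this
    exact this
  refine (E_mono fun y => E_mono fun z => h1 y z).trans ?_
  have h2 : E (fun y : Fin T → V => E (fun z : Fin T → V =>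
      (T * E (fun a => (∑ l, ∑ m, g a (y l) (z m)) ^ 2) +
        (T : ℝ) ^ 2 * (∑ l, ∑ m, E (fun a => g a (y l) (z m))) ^ 2))) =
      T * E (fun a => E (fun y : Fin T → V => E (fun z : Fin T → V =>
        (∑ l, ∑ m, g a (y l) (z m)) ^ 2))) +
      (T : ℝ) ^ 2 * E (fun y : Fin T → V => E (fun z : Fin T → V =>
        (∑ l, ∑ m, E (fun a => g a (y l) (z m))) ^ 2)) := by
    have e1 : ∀ y : Fin T → V, E (fun z : Fin T → V =>
      (T * E (fun a => (∑ l, ∑ m, g a (y l) (z m)) ^ 2) +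
        (T : ℝ) ^ 2 * (∑ l, ∑ m, E (fun a => g a (y l) (z m))) ^ 2)) =
        T * E (fun a => E (fun z : Fin T → V => (∑ l, ∑ m, g a (y l) (z m)) ^ 2)) +
        (T : ℝ) ^ 2 * E (fun z : Fin T → V => (∑ l, ∑ m, E (fun a => g a (y l) (z m))) ^ 2) := by
      intro y
      rw [E_add, E_mul_left, E_mul_left, E_comm]
    rw [E_congr e1, E_add, E_mul_left, E_mul_left, E_comm]
  rw [h2]
  have hA := E_mono (fun a : V => sm_two T (g a))
  have hB := sm_two T (fun b c => E (fun a => g a b c))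
  have hA' : E (fun a : V => (T : ℝ) ^ 2 * E (fun b => E (fun c => g a b c ^ 2)) +
      (T : ℝ) ^ 3 * E (fun b => (E (fun c => g a b c)) ^ 2) +
      (T : ℝ) ^ 3 * E (fun c => (E (fun b => g a b c)) ^ 2) +
      (T : ℝ) ^ 4 * (E (fun b => E (fun c => g a b c))) ^ 2) =
      (T : ℝ) ^ 2 * E (fun a => E (fun b => E (fun c => g a b c ^ 2))) +
      (T : ℝ) ^ 3 * E (fun a => E (fun b => (E (fun c => g a b c)) ^ 2)) +
      (T : ℝ) ^ 3 * E (fun a => E (fun c => (E (fun b => g a b c)) ^ 2)) +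
      (T : ℝ) ^ 4 * E (fun a => (E (fun b => E (fun c => g a b c))) ^ 2) := by
    rw [E_add, E_add, E_add, E_mul_left, E_mul_left, E_mul_left, E_mul_left]
  rw [hA'] at hA
  have c1 : E (fun b => (E (fun c => E (fun a => g a b c))) ^ 2) =
      E (fun b => (E (fun a => E (fun c => g a b c))) ^ 2) := by
    refine E_congr fun b => ?_
    rw [E_comm]
  have c2 : E (fun c => (E (fun b => E (fun a => g a b c))) ^ 2) =
      E (fun c => (E (fun a => E (fun b => g a b c))) ^ 2) := by
    refine E_congr fun b => ?_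
    rw [E_comm]
  have c3 : E (fun b => E (fun c => E (fun a => g a b c))) =
      E (fun a => E (fun b => E (fun c => g a b c))) := by
    rw [E_comm (fun a b => E (fun c => g a b c))]
    refine E_congr fun b => ?_
    rw [E_comm]
  rw [c1, c2, c3] at hB
  have hT : (0 : ℝ) ≤ T := Nat.cast_nonneg T
  have hA2 := mul_le_mul_of_nonneg_left hA hT
  have hB2 := mul_le_mul_of_nonneg_left hB (sq_nonneg (T : ℝ))
  nlinarith [hA2, hB2]

end Pool.Agent.H320R2.CT
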