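import Pool.Agent.H320R2.CT.B3

/-!
# Random star: a macroscopic loss contains a triple causing a macroscopic loss
-/

set_option autoImplicit false

namespace Pool.Agent.H320R2.CT

open Finset Pool.Agent.H999R2.KSat

/-- the triple event at the positions `p1, p2, p3`, the positions in `J0` being frozen -/
private def st_ev {V : Type} [DecidableEq V] {d : ℕ} (ρ : Finset V → ℝ) (al be : ℝ)
    (J0 : Finset (Fin d)) (p1 p2 p3 : Fin d) (v : Fin d → V) : Prop :=
  al ≤ ρ (J0.image v ∪ ∅) - ρ (J0.image v ∪ {v p1, v p2, v p3}) ∧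
    ρ (J0.image v ∪ ∅) - ρ (J0.image v ∪ {v p1, v p2}) ≤ be ∧
    ρ (J0.image v ∪ ∅) - ρ (J0.image v ∪ {v p1, v p3}) ≤ be ∧
    ρ (J0.image v ∪ ∅) - ρ (J0.image v ∪ {v p2, v p3}) ≤ be

private theorem st_image_update {V : Type} [DecidableEq V] {d : ℕ} (J0 : Finset (Fin d))
    (p : Fin d) (hp : p ∉ J0) (v : Fin d → V) (a : V) :
    J0.image (Function.update v p a) = J0.image v := by
  refine Finset.image_congr ?_
  intro x hx
  have : x ≠ p := fun h => hp (h ▸ hx)
  exact Function.update_of_ne this _ _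

private theorem st_ev_bound {V : Type} [Fintype V] [DecidableEq V] [Nonempty V] {d : ℕ}
    (ρ : Finset V → ℝ)
    (L al be : ℝ) (hL : 0 < L) (hbe : 0 ≤ be) (hal0 : 0 < al) (hal : 4 * be ≤ al)
    (hmono : ∀ S T : Finset V, S ⊆ T → ρ T ≤ ρ S)
    (hstep : ∀ S : Finset V, E (fun v => ρ S - ρ (insert v S)) ≤ L)
    (J0 : Finset (Fin d)) (p1 p2 p3 : Fin d) (h1 : p1 ∉ J0) (h2 : p2 ∉ J0) (h3 : p3 ∉ J0)
    (h12 : p1 ≠ p2) (h13 : p1 ≠ p3) (h23 : p2 ≠ p3) :
    E (fun v : Fin d → V => ind (st_ev ρ al be J0 p1 p2 p3 v)) ≤ 30 ^ 3 * (L / al) ^ 3 := by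
  rw [E_update p3 (fun v : Fin d → V => ind (st_ev ρ al be J0 p1 p2 p3 v))]
  rw [E_update p2]
  rw [E_update p1]
  refine E_le_const fun v => ?_
  have key := triple_bound (fun S => ρ (J0.image v ∪ S)) L al be hL hbe hal0 hal
    (fun S T h => hmono _ _ (Finset.union_subset_union_right h))
    (fun S => by
      have h := hstep (J0.image v ∪ S)
      refine le_trans (le_of_eq (E_congr fun x => ?_)) h
      rw [Finset.union_insert])
  refine le_trans (le_of_eq (E_congr fun a => E_congr fun b => E_congr fun c => ?_)) key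
  refine ind_congr ?_
  unfold st_ev
  rw [st_image_update J0 p3 h3, st_image_update J0 p2 h2, st_image_update J0 p1 h1]
  rw [Function.update_self p3]
  rw [Function.update_of_ne h23, Function.update_self p2]
  rw [Function.update_of_ne h13, Function.update_of_ne h12, Function.update_self p1]

/-- ST -/
theorem star_bound {V : Type} [Fintype V] [DecidableEq V] [Nonempty V] (ρ : Finset V → ℝ)
    (L lam : ℝ) (hL : 0 < L) (hlam : 0 < lam)
    (hmono : ∀ S T : Finset V, S ⊆ T → ρ T ≤ ρ S)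
    (hstep : ∀ S : Finset V, E (fun v => ρ S - ρ (insert v S)) ≤ L)
    (hsmall : ∀ S : Finset V, S.card ≤ 2 → ρ S = ρ ∅) (d : ℕ) :
    E (fun v : Fin d → V => ind (lam ≤ ρ ∅ - ρ (univ.image v))) ≤
      30 ^ 3 * 250 ^ d * (L / lam) ^ 3 := by
  -- the levels
  set lj : Finset (Fin d) → ℝ := fun J => lam * 5 ^ J.card / 5 ^ d with hlj
  have hljpos : ∀ J, 0 < lj J := fun J => by simp only [hlj]; positivity
  have hlj_lt : ∀ J J' : Finset (Fin d), J' ⊂ J → lj J' ≤ lj J / 5 := by
    intro J J' h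
    have hc := Finset.card_lt_card h
    have h5 : (5 : ℝ) ^ J'.card * 5 ≤ 5 ^ J.card := by
      rw [← pow_succ]
      exact pow_le_pow_right₀ (by norm_num) hc
    simp only [hlj]
    rw [div_div, div_le_div_iff₀ (by positivity) (by positivity)]
    nlinarith [mul_pos hlam (pow_pos (by norm_num : (0:ℝ) < 5) d),
      mul_le_mul_of_nonneg_left h5 (mul_pos hlam (pow_pos (by norm_num : (0:ℝ) < 5) d)).le]
  -- the positions
  have hch : ∀ J : {J : Finset (Fin d) // 2 < J.card}, ∃ p1 p2 p3 : Fin d,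
      p1 ∈ J.1 ∧ p2 ∈ J.1 ∧ p3 ∈ J.1 ∧ p1 ≠ p2 ∧ p1 ≠ p3 ∧ p2 ≠ p3 := fun J => by
    obtain ⟨x, hx, y, hy, z, hz, h⟩ := Finset.two_lt_card.mp J.2
    exact ⟨x, y, z, hx, hy, hz, h⟩
  choose p1 p2 p3 hp1 hp2 hp3 h12 h13 h23 using hch
  let Ev : {J : Finset (Fin d) // 2 < J.card} → (Fin d → V) → Prop := fun J v =>
    st_ev ρ (4 / 5 * lj J.1) (lj J.1 / 5) (((J.1.erase (p1 J)).erase (p2 J)).erase (p3 J))
      (p1 J) (p2 J) (p3 J) v
  -- a macroscopic loss contains one of the events
  have hcover : ∀ v : Fin d → V, lam ≤ ρ ∅ - ρ (univ.image v) → ∃ J, Ev J v := by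
    intro v hv
    have hne : (univ.filter (fun J : Finset (Fin d) => lj J ≤ ρ ∅ - ρ (J.image v))).Nonempty := by
      refine ⟨univ, ?_⟩
      rw [mem_filter]
      refine ⟨mem_univ _, ?_⟩
      have : lj univ = lam := by
        simp only [hlj, Finset.card_univ, Fintype.card_fin]
        field_simp
      rw [this]; exact hv
    obtain ⟨J, hJmem, hJmin⟩ := Finset.exists_min_image _ (fun J : Finset (Fin d) => J.card) hne
    rw [mem_filter] at hJmem
    have hJ : lj J ≤ ρ ∅ - ρ (J.image v) := hJmem.2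
    have hsub : ∀ J' : Finset (Fin d), J' ⊂ J → ρ ∅ - ρ (J'.image v) ≤ lj J / 5 := by
      intro J' h
      by_contra hcon
      push Not at hcon
      have h1 : lj J' ≤ ρ ∅ - ρ (J'.image v) := le_trans (hlj_lt J J' h) hcon.le
      have h2 := hJmin J' (mem_filter.mpr ⟨mem_univ _, h1⟩)
      have h3 := Finset.card_lt_card h
      omega
    have hJc : 2 < J.card := by
      by_contra hcon
      push Not at hcon
      have h1 : (J.image v).card ≤ 2 := le_trans Finset.card_image_le hcon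
      have h2 := hsmall _ h1
      have h3 := hljpos J
      rw [h2] at hJ
      linarith
    refine ⟨⟨J, hJc⟩, ?_⟩
    set JJ : {J : Finset (Fin d) // 2 < J.card} := ⟨J, hJc⟩ with hJJ
    have m1 : p1 JJ ∈ J := hp1 JJ
    have m2 : p2 JJ ∈ J := hp2 JJ
    have m3 : p3 JJ ∈ J := hp3 JJ
    have n12 := h12 JJ
    have n13 := h13 JJ
    have n23 := h23 JJ
    set a := p1 JJ with ha
    set b := p2 JJ with hb
    set c := p3 JJ with hc
    set J0 := ((J.erase a).erase b).erase c with hJ0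
    have hJ0sub : J0 ⊆ J := by
      intro x hx
      rw [hJ0] at hx
      exact Finset.mem_of_mem_erase (Finset.mem_of_mem_erase (Finset.mem_of_mem_erase hx))
    have hmemJ0 : ∀ x, x ∈ J0 ↔ x ∈ J ∧ x ≠ a ∧ x ≠ b ∧ x ≠ c := by
      intro x
      rw [hJ0, Finset.mem_erase, Finset.mem_erase, Finset.mem_erase]
      tauto
    have hJ0ss : J0 ⊂ J := by
      refine Finset.ssubset_iff_subset_ne.mpr ⟨hJ0sub, ?_⟩
      intro h
      rw [← h, hmemJ0] at m1
      exact m1.2.1 rfl
    have hu3 : J0.image v ∪ {v a, v b, v c} = J.image v := by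
      ext x
      simp only [mem_union, mem_image, mem_insert, mem_singleton, hmemJ0]
      constructor
      · rintro (⟨y, hy, rfl⟩ | rfl | rfl | rfl)
        · exact ⟨y, hy.1, rfl⟩
        · exact ⟨a, m1, rfl⟩
        · exact ⟨b, m2, rfl⟩
        · exact ⟨c, m3, rfl⟩
      · rintro ⟨y, hy, rfl⟩
        by_cases e1 : y = a
        · subst e1; right; left; rfl
        · by_cases e2 : y = b
          · subst e2; right; right; left; rfl
          · by_cases e3 : y = c
            · subst e3; right; right; right; rfl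
            · left; exact ⟨y, ⟨hy, e1, e2, e3⟩, rfl⟩
    have hu2 : ∀ x y z : Fin d, z ∈ J → x ≠ z → y ≠ z → x ∈ J → y ∈ J → z ∉ J0 →
        ρ (J0.image v ∪ ∅) - ρ (J0.image v ∪ {v x, v y}) ≤ lj J / 5 := by
      intro x y z hz hxz hyz hx hy hz0
      have hss : J.erase z ⊂ J := Finset.erase_ssubset hz
      have h1 := hsub _ hss
      have h2 : J0.image v ∪ {v x, v y} ⊆ (J.erase z).image v := by
        intro w hw
        rw [mem_union, mem_insert, mem_singleton] at hw
        rcases hw with hw | rfl | rfl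
        · rw [mem_image] at hw
          obtain ⟨u, hu, rfl⟩ := hw
          refine mem_image_of_mem v (Finset.mem_erase.mpr ⟨?_, hJ0sub hu⟩)
          rintro rfl
          exact hz0 hu
        · exact mem_image_of_mem v (Finset.mem_erase.mpr ⟨hxz, hx⟩)
        · exact mem_image_of_mem v (Finset.mem_erase.mpr ⟨hyz, hy⟩)
      have h3 := hmono _ _ h2
      have h4 := hmono ∅ (J0.image v ∪ ∅) (Finset.empty_subset _)
      linarith
    have ha0 : a ∉ J0 := fun h => ((hmemJ0 a).mp h).2.1 rfl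
    have hb0 : b ∉ J0 := fun h => ((hmemJ0 b).mp h).2.2.1 rfl
    have hc0 : c ∉ J0 := fun h => ((hmemJ0 c).mp h).2.2.2 rfl
    refine ⟨?_, hu2 a b c m3 n13 n23 m1 m2 hc0, hu2 a c b m2 n12 n23.symm m1 m3 hb0,
      hu2 b c a m1 n12.symm n13.symm m2 m3 ha0⟩
    show 4 / 5 * lj J ≤ ρ (J0.image v ∪ ∅) - ρ (J0.image v ∪ {v a, v b, v c})
    rw [hu3, Finset.union_empty]
    have h1 := hsub J0 hJ0ss
    linarith
  -- sum
  have hEv : ∀ J, E (fun v : Fin d → V => ind (Ev J v)) ≤ 30 ^ 3 * (125 ^ d * (L / lam) ^ 3) := by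
    intro J
    have h1 := st_ev_bound ρ L (4 / 5 * lj J.1) (lj J.1 / 5) hL (by have := hljpos J.1; positivity)
      (by have := hljpos J.1; positivity) (by linarith) hmono hstep
      (((J.1.erase (p1 J)).erase (p2 J)).erase (p3 J)) (p1 J) (p2 J) (p3 J)
      (by simp) (by simp) (by simp) (h12 J) (h13 J) (h23 J)
    refine le_trans h1 ?_
    refine mul_le_mul_of_nonneg_left ?_ (by norm_num)
    have h2 : L / (4 / 5 * lj J.1) ≤ 5 ^ d * (L / lam) := by
      have h5 : (5 : ℝ) ^ 3 ≤ 5 ^ J.1.card := pow_le_pow_right₀ (by norm_num) J.2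
      have h6 : lam / 5 ^ d ≤ 4 / 5 * lj J.1 := by
        simp only [hlj]
        rw [← mul_div_assoc]
        refine div_le_div_of_nonneg_right ?_ (by positivity)
        nlinarith
      calc L / (4 / 5 * lj J.1) ≤ L / (lam / 5 ^ d) :=
            div_le_div_of_nonneg_left hL.le (by positivity) h6
        _ = 5 ^ d * (L / lam) := by field_simp
    calc (L / (4 / 5 * lj J.1)) ^ 3 ≤ (5 ^ d * (L / lam)) ^ 3 :=
          pow_le_pow_left₀ (by have := hljpos J.1; positivity) h2 3
      _ = 125 ^ d * (L / lam) ^ 3 := by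
          rw [mul_pow, ← pow_mul, mul_comm d 3, pow_mul]; norm_num
  calc E (fun v : Fin d → V => ind (lam ≤ ρ ∅ - ρ (univ.image v)))
      ≤ E (fun v : Fin d → V => ∑ J, ind (Ev J v)) :=
        E_mono fun v => le_trans (ind_mono (hcover v)) (ind_exists_le _)
    _ = ∑ J, E (fun v : Fin d → V => ind (Ev J v)) := E_sum _ _
    _ ≤ ∑ _J : {J : Finset (Fin d) // 2 < J.card}, 30 ^ 3 * (125 ^ d * (L / lam) ^ 3) :=
        Finset.sum_le_sum fun J _ => hEv J
    _ = (Fintype.card {J : Finset (Fin d) // 2 < J.card} : ℝ) *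
          (30 ^ 3 * (125 ^ d * (L / lam) ^ 3)) := by
        rw [Finset.sum_const, Finset.card_univ, nsmul_eq_mul]
    _ ≤ 2 ^ d * (30 ^ 3 * (125 ^ d * (L / lam) ^ 3)) := by
        refine mul_le_mul_of_nonneg_right ?_ (by positivity)
        have h1 : Fintype.card {J : Finset (Fin d) // 2 < J.card} ≤
            Fintype.card (Finset (Fin d)) := Fintype.card_subtype_le _
        rw [Fintype.card_finset, Fintype.card_fin] at h1
        exact_mod_cast h1
    _ = 30 ^ 3 * 250 ^ d * (L / lam) ^ 3 := by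
        have : (250 : ℝ) ^ d = 2 ^ d * 125 ^ d := by rw [← mul_pow]; norm_num
        rw [this]; ring

end Pool.Agent.H320R2.CT
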