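import Pool.Agent.H320R2.CT.Defs

/-! Blueprint: exact statements of the tasks (proofs sorry). Import `Pool.Agent.H320R2.CT.Defs`
(and, if needed, finished modules), never this file. -/

set_option autoImplicit false

namespace Pool.Agent.H320R2.CT

open Finset Filter Pool.Agent.H999R2.KSat

/-! ### Task S1 (second moment of sums over a random sample, dimension 1, 2, 3) -/
theorem sm_one {V : Type} [Fintype V] [Nonempty V] (T : ℕ) (f : V → ℝ) :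
    E (fun x : Fin T → V => (∑ k, f (x k)) ^ 2) ≤ T * E (fun a => f a ^ 2) + (T : ℝ) ^ 2 * (E f) ^ 2 := by
  sorry

theorem sm_two {V : Type} [Fintype V] [Nonempty V] (T : ℕ) (g : V → V → ℝ) :
    E (fun x : Fin T → V => E (fun y : Fin T → V => (∑ k, ∑ l, g (x k) (y l)) ^ 2)) ≤
      (T : ℝ) ^ 2 * E (fun a => E (fun b => g a b ^ 2)) +
      (T : ℝ) ^ 3 * E (fun a => (E (fun b => g a b)) ^ 2) +
      (T : ℝ) ^ 3 * E (fun b => (E (fun a => g a b)) ^ 2) +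
      (T : ℝ) ^ 4 * (E (fun a => E (fun b => g a b))) ^ 2 := by
  sorry

theorem sm_three {V : Type} [Fintype V] [Nonempty V] (T : ℕ) (g : V → V → V → ℝ) :
    E (fun x : Fin T → V => E (fun y : Fin T → V => E (fun z : Fin T → V =>
      (∑ k, ∑ l, ∑ m, g (x k) (y l) (z m)) ^ 2))) ≤
      (T : ℝ) ^ 3 * E (fun a => E (fun b => E (fun c => g a b c ^ 2))) +
      (T : ℝ) ^ 4 * (E (fun a => E (fun b => (E (fun c => g a b c)) ^ 2)) +
        E (fun a => E (fun c => (E (fun b => g a b c)) ^ 2)) +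
        E (fun b => E (fun c => (E (fun a => g a b c)) ^ 2))) +
      (T : ℝ) ^ 5 * (E (fun a => (E (fun b => E (fun c => g a b c))) ^ 2) +
        E (fun b => (E (fun a => E (fun c => g a b c))) ^ 2) +
        E (fun c => (E (fun a => E (fun b => g a b c))) ^ 2)) +
      (T : ℝ) ^ 6 * (E (fun a => E (fun b => E (fun c => g a b c)))) ^ 2 := by
  sorry

/-! ### Task PZ (Cauchy-Schwarz) -/
theorem pz {α : Type} [Fintype α] (Z : α → ℝ) :
    (E Z) ^ 2 ≤ E (fun x => ind (Z x ≠ 0)) * E (fun x => Z x ^ 2) := by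
  sorry

/-! ### Task LO (loss of a random sample) -/
theorem loss_sample {V : Type} [Fintype V] [DecidableEq V] [Nonempty V] (ρ : Finset V → ℝ) (L : ℝ)
    (hstep : ∀ S : Finset V, E (fun v => ρ S - ρ (insert v S)) ≤ L) (T : ℕ) (S : Finset V) :
    E (fun x : Fin T → V => ρ S - ρ (S ∪ univ.image x)) ≤ T * L := by
  sorry

/-- Markov: few vertices cause a large loss -/
theorem loss_one {V : Type} [Fintype V] [DecidableEq V] [Nonempty V] (ρ : Finset V → ℝ) (L al : ℝ)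
    (hal : 0 < al) (hmono : ∀ S T : Finset V, S ⊆ T → ρ T ≤ ρ S)
    (hstep : ∀ S : Finset V, E (fun v => ρ S - ρ (insert v S)) ≤ L) (S : Finset V) :
    E (fun v => ind (al ≤ ρ S - ρ (insert v S))) ≤ L / al := by
  sorry

/-! ### Task B2 (pairs; uses S1, PZ, LO) -/
theorem pair_bound {V : Type} [Fintype V] [DecidableEq V] [Nonempty V] (ρ : Finset V → ℝ)
    (L al : ℝ) (T : ℕ) (hL : 0 < L) (hT : 1 ≤ T) (hTL : 10 * (T * L) ≤ al)
    (hmono : ∀ S T : Finset V, S ⊆ T → ρ T ≤ ρ S)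
    (hstep : ∀ S : Finset V, E (fun v => ρ S - ρ (insert v S)) ≤ L)
    (H : V → V → Prop) (hH : ∀ b c, H b c → al ≤ ρ ∅ - ρ {b, c})
    (h1 : ∀ b, E (fun c => ind (H b c)) ≤ L / al)
    (h2 : ∀ c, E (fun b => ind (H b c)) ≤ L / al) :
    E (fun b => E (fun c => ind (H b c))) ≤ 1 / (2 * (T : ℝ) ^ 2) := by
  sorry

/-! ### Task B3 (triples; uses S1, PZ, LO, B2) -/
theorem triple_bound {V : Type} [Fintype V] [DecidableEq V] [Nonempty V] (ρ : Finset V → ℝ)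
    (L al be : ℝ) (hL : 0 < L) (hbe : 0 ≤ be) (hal0 : 0 < al) (hal : 4 * be ≤ al)
    (hmono : ∀ S T : Finset V, S ⊆ T → ρ T ≤ ρ S)
    (hstep : ∀ S : Finset V, E (fun v => ρ S - ρ (insert v S)) ≤ L) :
    E (fun a => E (fun b => E (fun c => ind (al ≤ ρ ∅ - ρ {a, b, c} ∧
      ρ ∅ - ρ {a, b} ≤ be ∧ ρ ∅ - ρ {a, c} ≤ be ∧ ρ ∅ - ρ {b, c} ≤ be)))) ≤
      30 ^ 3 * (L / al) ^ 3 := by
  sorry

/-! ### Task ST (random star; uses B3) -/
theorem star_bound {V : Type} [Fintype V] [DecidableEq V] [Nonempty V] (ρ : Finset V → ℝ)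
    (L lam : ℝ) (hL : 0 < L) (hlam : 0 < lam)
    (hmono : ∀ S T : Finset V, S ⊆ T → ρ T ≤ ρ S)
    (hstep : ∀ S : Finset V, E (fun v => ρ S - ρ (insert v S)) ≤ L)
    (hsmall : ∀ S : Finset V, S.card ≤ 2 → ρ S = ρ ∅) (d : ℕ) :
    E (fun v : Fin d → V => ind (lam ≤ ρ ∅ - ρ (univ.image v))) ≤
      30 ^ 3 * 250 ^ d * (L / lam) ^ 3 := by
  sorry

/-! ### Task RM (elementary facts about `rho`) -/
theorem rho_nonneg {n q : ℕ} (s : ℕ) (i : Fin n) (c0 : Fin q) (B : Set (Co n q))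
    (S : Finset (Fin n)) : 0 ≤ rho s i c0 B S := by
  sorry

theorem rho_mono {n q : ℕ} (s : ℕ) (i : Fin n) (c0 : Fin q) (B : Set (Co n q))
    (S T : Finset (Fin n)) (h : S ⊆ T) : rho s i c0 B T ≤ rho s i c0 B S := by
  sorry

/-- colour symmetry: fewer than `q` vertices can avoid one colour for free -/
theorem rho_small {n q : ℕ} (s : ℕ) (i : Fin n) (c0 : Fin q) (B : Set (Co n q)) (hq : 3 ≤ q)
    (hB : SymC B) (S : Finset (Fin n)) (hS : S.card ≤ 2) : rho s i c0 B S = rho s i c0 B ∅ := by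
  sorry

/-! ### Task RU (one random unary constraint costs at most `sqrt(3 s)`) -/
theorem rho_step {n q : ℕ} (s : ℕ) (hn : 2 ≤ n) (hs : s ≤ n) (i : Fin n) (c0 : Fin q)
    (B : Set (Co n q)) (S : Finset (Fin n)) :
    E (fun v : Fin n => rho s i c0 B S - rho s i c0 B (insert v S)) ≤ Real.sqrt (3 * s) := by
  sorry

/-! ### Task TO (probability that a random edge touches a vertex) -/
theorem touch_le {n : ℕ} (hn : 2 ≤ n) (i : Fin n) (g : Fin n → ℝ) (hg : ∀ w, 0 ≤ g w) :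
    E (fun e : Ed n => ind (tc i e) * g (oth i e)) ≤ 2 / ((n : ℝ) - 1) * E g := by
  sorry

theorem touch_prob {n : ℕ} (hn : 2 ≤ n) (i : Fin n) :
    E (fun e : Ed n => ind (tc i e)) = 2 / (n : ℝ) := by
  sorry

theorem touch_two {n : ℕ} (hn : 2 ≤ n) (i j : Fin n) (hij : i ≠ j) :
    E (fun e : Ed n => ind (tc i e ∧ tc j e)) ≤ 4 / (n : ℝ) ^ 2 := by
  sorry

theorem E_edge_le {n : ℕ} (hn : 2 ≤ n) (F : Fin n → Fin n → ℝ) (hF : ∀ i j, 0 ≤ F i j) :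
    E (fun e : Ed n => F e.1.1 e.1.2) ≤ 2 * E (fun i => E (fun j => F i j)) := by
  sorry

/-- both endpoints have been touched by probes -/
theorem both_touched {n : ℕ} (hn : 2 ≤ n) (s : ℕ) (i j : Fin n) (hij : i ≠ j) :
    E (fun W : Fin s → Ed n => ∑ u ∈ range s,
      ind ((∃ l : Fin s, l.val < u ∧ tc i (W l)) ∧ (∃ l : Fin s, l.val < u ∧ tc j (W l)))) ≤
      8 * (s : ℝ) ^ 3 / (n : ℝ) ^ 2 := by
  sorry

/-! ### Task SI (induction over the edges of `G`; uses ST, RM, RU, TO) -/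
theorem star_graph {n q : ℕ} (s : ℕ) (lam : ℝ) (hn : 2 ≤ n) (hs1 : 1 ≤ s) (hs : s ≤ n)
    (hlam : 0 < lam) (hq : 3 ≤ q) (i : Fin n) (c0 : Fin q) (M : ℕ) :
    ∀ (d : ℕ) (B : Set (Co n q)), SymC B →
      E (fun v : Fin d → Fin n => E (fun G : Fin M → Ed n =>
        ind (lam ≤ rho s i c0 (B ∩ Base i G) ∅ -
          rho s i c0 (B ∩ Base i G) (univ.image v ∪ Nb i G)))) ≤
      30 ^ 3 * (Real.sqrt (3 * s) / lam) ^ 3 * 250 ^ d * (1 + 500 / ((n : ℝ) - 1)) ^ M := by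
  sorry

/-! ### Task DC (decomposition of the effect of one edge) -/
theorem delta_decomp {n q M : ℕ} (s : ℕ) (G : Fin M → Ed n) (e : Ed n) :
    RC s (SolC G : Set (Co n q)) - RC s ((SolC G : Set (Co n q)) ∩ {σ | pr σ e}) ≤
      Dp (q := q) s e.1.1 G e + Dp (q := q) s e.1.2 G e +
      E (fun W : Fin s → Ed n => ∑ u ∈ range s,
        ind ((∃ l : Fin s, l.val < u ∧ tc e.1.1 (W l)) ∧
          (∃ l : Fin s, l.val < u ∧ tc e.1.2 (W l)))) := by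
  sorry

theorem Dp_nonneg {n q M : ℕ} (s : ℕ) (i : Fin n) (G : Fin M → Ed n) (e : Ed n) :
    0 ≤ Dp (q := q) s i G e := by
  sorry

theorem Dp_le_delta {n q M : ℕ} (s : ℕ) (i : Fin n) (G : Fin M → Ed n) (e : Ed n) :
    Dp (q := q) s i G e ≤
      RC s (SolC G : Set (Co n q)) - RC s ((SolC G : Set (Co n q)) ∩ {σ | pr σ e}) := by
  sorry

theorem Dp_le_s {n q M : ℕ} (s : ℕ) (i : Fin n) (G : Fin M → Ed n) (e : Ed n) :
    Dp (q := q) s i G e ≤ s := by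
  sorry

/-! ### Task DR (the vertex `i` may take the colour `c0` by symmetry) -/
theorem Dp_le_rho {n q M : ℕ} (s : ℕ) (i : Fin n) (c0 : Fin q) (G : Fin M → Ed n) (e : Ed n)
    (he : tc i e) :
    Dp (q := q) s i G e ≤ rho s i c0 (Base i G) ∅ - rho s i c0 (Base i G) ({oth i e} ∪ Nb i G) := by
  sorry

/-! ### Task BA (basic facts) -/
theorem pc_zero (n q : ℕ) (hq : 0 < q) : pc n q 0 = 1 := by
  sorry
theorem pc_nonneg (n q m : ℕ) : 0 ≤ pc n q m := by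
  sorry
theorem pc_le_one (n q m : ℕ) : pc n q m ≤ 1 := by
  sorry
theorem pc_succ_le (n q m : ℕ) : pc n q (m + 1) ≤ pc n q m := by
  sorry
theorem pc_first_moment (q : ℕ) (hq : 1 ≤ q) : ∃ n1 : ℕ, ∃ K r : ℝ, 0 ≤ r ∧ r < 1 ∧ 1 ≤ K ∧
    ∀ n m : ℕ, n1 ≤ n → pc n q m ≤ K ^ n * r ^ m := by
  sorry
theorem RC_nonneg {n q : ℕ} (s : ℕ) (A : Set (Co n q)) : 0 ≤ RC s A := by
  sorry
theorem RC_mono {n q : ℕ} (s : ℕ) {A B : Set (Co n q)} (h : A ⊆ B) : RC s A ≤ RC s B := by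
  sorry
theorem RC_empty {n q : ℕ} (s : ℕ) : RC s (∅ : Set (Co n q)) = 0 := by
  sorry
theorem E_RC_ge (n q m s : ℕ) :
    (s : ℝ) * pc n q (m + s) ≤ E (fun F : Fin m → Ed n => RC s (SolC F : Set (Co n q))) := by
  sorry
/-- the average effect of one edge is at most one (telescoping) -/
theorem delta_first {n q : ℕ} (s : ℕ) (hn : 2 ≤ n) (A : Set (Co n q)) :
    E (fun e : Ed n => RC s A - RC s (A ∩ {σ | pr σ e})) ≤ 1 := by
  sorry

/-! ### Task DE (second moment of the effect of one edge; uses SI, DC, DR, BA, TO) -/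
theorem delta_sq {n q : ℕ} (s M : ℕ) (lam : ℝ) (hn : 2 ≤ n) (hs1 : 1 ≤ s) (hs : s ≤ n)
    (hlam : 0 < lam) (hq : 3 ≤ q) :
    E (fun G : Fin M → Ed n => E (fun e : Ed n =>
      (RC s (SolC G : Set (Co n q)) - RC s ((SolC G : Set (Co n q)) ∩ {σ | pr σ e})) ^ 2)) ≤
      18 * (lam + 2 * (s : ℝ) ^ 2 * (30 ^ 3 * (Real.sqrt (3 * s) / lam) ^ 3 * 250 *
        (1 + 500 / ((n : ℝ) - 1)) ^ M)) + 24 * (s : ℝ) ^ 3 / (n : ℝ) ^ 2 := by
  sorry

/-! ### Task SH (uses ES of H999R2, DE, BA) -/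
theorem sharp_gen (s n q m : ℕ) (lam : ℝ) (hn : 2 ≤ n) (hs1 : 1 ≤ s) (hs : s ≤ n)
    (hlam : 0 < lam) (hq : 3 ≤ q) :
    (1 - pc n q m) * ((s : ℝ) * pc n q (m + s)) ^ 2 ≤
      m * (18 * (lam + 2 * (s : ℝ) ^ 2 * (30 ^ 3 * (Real.sqrt (3 * s) / lam) ^ 3 * 250 *
        (1 + 500 / ((n : ℝ) - 1)) ^ m)) + 24 * (s : ℝ) ^ 3 / (n : ℝ) ^ 2) := by
  sorry

/-! ### Task SA (real algebra from sharp_gen with `lam = s^(7/8)`) -/
theorem sharpC (q : ℕ) (hq : 3 ≤ q) (Λ : ℝ) : ∃ C : ℝ, 0 < C ∧ ∀ n m s : ℕ, 2 ≤ n → 1 ≤ s →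
    s ≤ n → (m : ℝ) + s ≤ Λ * n →
    (1 - pc n q m) * pc n q (m + s) ^ 2 ≤ C * (n * (s : ℝ) ^ (-(9 / 8) : ℝ) + s / n) := by
  sorry

/-! ### Task IN (interpolation; adapt H999R2.KSat.IN) -/
theorem interpC (N1 N2 q m : ℕ) (h1 : 0 < N1) (h2 : 0 < N2)
    (A1 : Set (Co N1 q)) (A2 : Set (Co N2 q)) :
    ∑ j ∈ range (m + 1), (m.choose j : ℝ) * ((N1 : ℝ) / (N1 + N2)) ^ j *
      ((N2 : ℝ) / (N1 + N2)) ^ (m - j) * (sv0 j A1 * sv0 (m - j) A2) ≤
      sv0 m (rectC A1 A2) := by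
  sorry

/-! ### Task P0 (loops) -/
theorem p0_eq (n q m : ℕ) (hn : 1 ≤ n) : p0 n q m = (1 - 1 / (n : ℝ)) ^ m * pc n q m := by
  sorry

/-! ### Task SM (supermultiplicativity; uses IN, P0; adapt H999R2.KSat.SM) -/
theorem super_one (q : ℕ) (hq : 1 ≤ q) (Λ : ℝ) : ∃ c : ℝ, 0 < c ∧ ∀ n m : ℕ, 2 ≤ n →
    (m : ℝ) ≤ Λ * n → c * pc n q m ≤ pc (n + 1) q m := by
  sorry

theorem super_two (q : ℕ) (hq : 1 ≤ q) (Λ : ℝ) : ∃ c : ℝ, 0 < c ∧
    ∀ (N1 N2 m m1 m2 : ℕ) (d : ℝ), 2 ≤ N1 → 2 ≤ N2 → 0 ≤ d →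
      4 * (m : ℝ) ≤ d ^ 2 → (m1 : ℝ) ≤ Λ * N1 → (m2 : ℝ) ≤ Λ * N2 →
      m * (N1 : ℝ) / (N1 + N2) + d ≤ m1 → m * (N2 : ℝ) / (N1 + N2) + d ≤ m2 →
      c * pc N1 q m1 * pc N2 q m2 ≤ pc (N1 + N2) q m := by
  sorry

/-! ### Task CV (adapt H999R2.KSat.CV1..CV5, SQ) -/
theorem HypC.convergence {p : ℕ → ℕ → ℝ} (h : HypC p) :
    ∃ rs : ℝ, (∀ r, r < rs → Tendsto (fun n : ℕ => p n ⌊r * (n : ℝ)⌋₊) atTop (nhds 1)) ∧
      (∀ r, rs < r → Tendsto (fun n : ℕ => p n ⌊r * (n : ℝ)⌋₊) atTop (nhds 0)) := by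
  sorry

/-! ### Task TR (uniform simple graphs with exactly `M` edges) -/
/-- the probability of `q`-colourability is nonincreasing in the number of edges -/
theorem graph_anti (n q M M' : ℕ) (h : M ≤ M') (hM : M' ≤ n.choose 2) :
    (Nat.card {G : SimpleGraph (Fin n) // G.edgeSet.ncard = M' ∧ G.Colorable q} : ℝ) /
        (Nat.card {G : SimpleGraph (Fin n) // G.edgeSet.ncard = M'} : ℝ) ≤
      (Nat.card {G : SimpleGraph (Fin n) // G.edgeSet.ncard = M ∧ G.Colorable q} : ℝ) /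
        (Nat.card {G : SimpleGraph (Fin n) // G.edgeSet.ncard = M} : ℝ) := by
  sorry

open Classical in
/-- the number of different edges of `F` (as unordered pairs) -/
noncomputable def ne {n m : ℕ} (F : Fin m → Ed n) : ℕ :=
  (univ.image (fun j => s((F j).1.1, (F j).1.2))).card

/-- given the number of different edges the graph is uniform -/
theorem pc_mix (n q m : ℕ) :
    pc n q m = ∑ M ∈ range (m + 1), E (fun F : Fin m → Ed n => ind (ne F = M)) *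
      ((Nat.card {G : SimpleGraph (Fin n) // G.edgeSet.ncard = M ∧ G.Colorable q} : ℝ) /
        (Nat.card {G : SimpleGraph (Fin n) // G.edgeSet.ncard = M} : ℝ)) := by
  sorry

/-- repeated edges are rare (Markov) -/
theorem ne_small (n m a : ℕ) (hn : 2 ≤ n) (ha : 0 < a) :
    E (fun F : Fin m → Ed n => ind (ne F + a ≤ m)) ≤ 4 * (m : ℝ) ^ 2 / ((n : ℝ) ^ 2 * a) := by
  sorry

/-! ### Task TF (limit transfer; uses TR) -/
theorem transfer (q : ℕ) (hq : 3 ≤ q) (rs : ℝ)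
    (h1 : ∀ r, r < rs → Tendsto (fun n : ℕ => pc n q ⌊r * (n : ℝ)⌋₊) atTop (nhds 1))
    (h0 : ∀ r, rs < r → Tendsto (fun n : ℕ => pc n q ⌊r * (n : ℝ)⌋₊) atTop (nhds 0)) :
    ∀ ε : ℝ, 0 < ε →
      Filter.Tendsto
        (fun n : ℕ =>
          (Nat.card {G : SimpleGraph (Fin n) //
              G.edgeSet.ncard = ⌊(rs - ε) * (n : ℝ)⌋₊ ∧ G.Colorable q} : ℝ) /
          (Nat.card {G : SimpleGraph (Fin n) //
              G.edgeSet.ncard = ⌊(rs - ε) * (n : ℝ)⌋₊} : ℝ))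
        Filter.atTop (nhds 1) ∧
      Filter.Tendsto
        (fun n : ℕ =>
          (Nat.card {G : SimpleGraph (Fin n) //
              G.edgeSet.ncard = ⌊(rs + ε) * (n : ℝ)⌋₊ ∧ G.Colorable q} : ℝ) /
          (Nat.card {G : SimpleGraph (Fin n) //
              G.edgeSet.ncard = ⌊(rs + ε) * (n : ℝ)⌋₊} : ℝ))
        Filter.atTop (nhds 0) := by
  sorry

/-! ### The frozen statement S13275, by assembly -/
theorem main :
    ∀ k : ℕ, 3 ≤ k → ∃ c : ℝ, ∀ ε : ℝ, 0 < ε →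
      Filter.Tendsto
        (fun n : ℕ =>
          (Nat.card {G : SimpleGraph (Fin n) //
              G.edgeSet.ncard = ⌊(c - ε) * (n : ℝ)⌋₊ ∧ G.Colorable k} : ℝ) /
          (Nat.card {G : SimpleGraph (Fin n) //
              G.edgeSet.ncard = ⌊(c - ε) * (n : ℝ)⌋₊} : ℝ))
        Filter.atTop (nhds 1) ∧
      Filter.Tendsto
        (fun n : ℕ =>
          (Nat.card {G : SimpleGraph (Fin n) //
              G.edgeSet.ncard = ⌊(c + ε) * (n : ℝ)⌋₊ ∧ G.Colorable k} : ℝ) /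
          (Nat.card {G : SimpleGraph (Fin n) //
              G.edgeSet.ncard = ⌊(c + ε) * (n : ℝ)⌋₊} : ℝ))
        Filter.atTop (nhds 0) := by
  intro k hk
  have hyp : HypC (fun n m => pc n k m) :=
    { h0 := fun n _ => pc_zero n k (by omega)
      hnn := fun n m => pc_nonneg n k m
      hanti := fun n m => pc_succ_le n k m
      hfm := pc_first_moment k (by omega)
      hsharp := fun Λ => sharpC k hk Λ
      hone := fun Λ => super_one k (by omega) Λ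
      htwo := fun Λ => super_two k (by omega) Λ }
  obtain ⟨rs, h1, h0⟩ := hyp.convergence
  exact ⟨rs, transfer k hk rs h1 h0⟩

end Pool.Agent.H320R2.CT
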